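import Mathlib
import Pool.Agent.H82.Q1.SLE
import Pool.Agent.Q1.M3.Iface
import Pool.Agent.Q1.M3.Induct
import Pool.Agent.Q1.M3.Pg.Step
import Pool.Agent.Q1.M3.Pg.Ctx
import Pool.Agent.H29.M7.Chart
import Pool.Agent.H5.M7.Barrier

set_option autoImplicit false
open Finset Filter Topology

/-! # Module M7: objects and statements of the interfaces

* `Win B` : observation window at a flat side of the barrier (`b''` = `Win.p`, free side = direction `k`).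
* `Win.h` : the observable; `Rules.mart` : exact martingale property.
* `Par B` : parameters of the polygons near `b`; `SDX` : step data of a state; `GX` its domain.
* `StObs`, `StUnif`, `StJump` : percolation statements. -/

namespace Pool.Agent.H82.Q1.M7

open Pool.Agent.H75.Perc Pool.Agent.H75.TwoArm Pool.Agent.H75.Four Pool.Agent.H69.Q1
open Pool.Agent.H99.NC
open Pool.Agent.H81.Q1 (pt DDomain Approx IsJordanDomain IsArcs)
open Pool.Agent.Q1.M3
open Pool.Agent.Q1.M3.Pg (SD LX gx lo)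

/-! ### Martingale -/

section mart

variable (R : Rules)

lemma nenv_union {X : DEnv} {ω : Finset (ℤ × ℤ)} (hω : ω ⊆ X.E) :
    R.ncf X ω ∪ (R.nenv X ω).W = ω ∪ X.W := by
  rw [Rules.nenv_W]
  unfold Rules.ncf
  ext e
  simp only [Finset.mem_union, Finset.mem_sdiff, Finset.mem_inter]
  constructor
  · rintro (⟨h, -⟩ | h | ⟨⟨h, -⟩, -⟩)
    · exact Or.inl h
    · exact Or.inr h
    · exact Or.inl h
  · rintro (h | h)
    · by_cases h1 : e ∈ X.exset (R.Q X) (ω ∩ X.E)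
      · exact Or.inr (Or.inr ⟨⟨h, hω h⟩, h1⟩)
      · exact Or.inl ⟨h, h1⟩
    · exact Or.inr (Or.inl h)

/-- The configuration together with the wired labels does not change along the chain. -/
lemma st_union {X : DEnv} {ω : Finset (ℤ × ℤ)} (hω : ω ⊆ X.E) (j : ℕ) :
    R.cf j X ω ∪ (R.st j X ω).W = ω ∪ X.W := by
  induction j with
  | zero => rfl
  | succ j ih => rw [R.cf_last, R.st_last, nenv_union R (R.cf_sub hω j), ih]

/-- The conditional expectation of a functional of the configuration. -/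
noncomputable def cex (f : Finset (ℤ × ℤ) → ℝ) (X : DEnv) : ℝ := EX X.E (fun η => f (η ∪ X.W))

lemma cex_step (f : Finset (ℤ × ℤ) → ℝ) (X : DEnv) :
    cex f X = EX X.E (fun η => cex f (R.nenv X η)) := by
  have h := R.markov1 X (fun Z ζ => f (ζ ∪ Z.W))
  unfold cex
  refine Eq.trans ?_ h
  unfold EX
  exact Ex_congr fun η hη => by rw [nenv_union R hη]

/-- **Exact martingale property**: `cex f` is a martingale along the chain, conditionally on the
history. -/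
theorem mart {O : Type} (obs : DEnv → DEnv → O) (f : Finset (ℤ × ℤ) → ℝ) (j : ℕ) (X : DEnv)
    (Y : List O → DEnv → ℝ) :
    EX X.E (fun ω => Y (R.hist obs j X ω) (R.st j X ω) * cex f (R.st (j + 1) X ω)) =
      EX X.E (fun ω => Y (R.hist obs j X ω) (R.st j X ω) * cex f (R.st j X ω)) := by
  have h1 := R.markov obs j X (fun l Z η => Y l Z * cex f (R.nenv Z η))
  have h2 : (fun ω => Y (R.hist obs j X ω) (R.st j X ω) * cex f (R.st (j + 1) X ω)) =
      fun ω => Y (R.hist obs j X ω) (R.st j X ω) *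
        cex f (R.nenv (R.st j X ω) (R.cf j X ω)) := by
    funext ω; rw [R.st_last]
  rw [h2, h1]
  unfold EX
  refine Ex_congr fun ω _ => ?_
  rw [Ex_smul]
  congr 1
  exact (cex_step R f _).symm

end mart

/-! ### Window and observable -/

section window

variable {D : Set ℂ} {a b : ℂ} {A₁ A₂ : Set ℂ} {A : Approx D a b A₁ A₂} {r0 : ℝ}

/-- The closed cells of the barrier. -/
def Sbar (B : Base A r0) : Set ℂ := ⋃ M, ⋃ q ∈ B.Q M, cfat B.o q

/-- The unit vector of direction `k`. -/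
noncomputable def uv (k : ℤ) : ℂ := ⟨(H75.Perc.dir k).1, (H75.Perc.dir k).2⟩

/-- Window: a grid vertex `p` (level `k1`) inside a side of the barrier cell `q`; the side has
direction `k`, the cell is on the right, the half box on the left is in `D` and does not meet the
barrier. -/
structure Win (B : Base A r0) where
  /-- barrier index -/
  M0 : ℕ
  /-- barrier cell -/
  q : Cell
  hq : q ∈ B.Q M0
  /-- direction -/
  k : ℤ
  /-- level of the grid -/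
  k1 : ℕ
  hk1 : q.1 < k1
  /-- the grid vertex -/
  m : ℤ × ℤ
  /-- size -/
  l : ℝ
  l0 : 0 < l
  up : ∀ s t : ℝ, |s| < 2 * l → 0 < t → t < 2 * l →
    gpt B.o k1 m + (s + t * Complex.I) * uv k ∈ D \ Sbar B
  dn : ∀ s t : ℝ, |s| < 2 * l → 0 ≤ t → t < 2 * l →
    gpt B.o k1 m + (s - t * Complex.I) * uv k ∈ cfat B.o q

namespace Win

variable {B : Base A r0} (w : Win B)

/-- The point `b''`. -/
noncomputable def p : ℂ := gpt B.o w.k1 w.m

/-- The window is on the side of `a` of the barrier. -/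
def Side : Prop := w.p + (w.l / 2 : ℝ) * Complex.I * uv w.k ∈ Pool.Agent.H5.M7.D2 D (Sbar B) a b

/-- The vertex of the grid of level `K > k1` at the point `p + i 3^(-k1-1) uv k`. -/
def gv (K : ℕ) (i : ℤ) : ℤ × ℤ := (3 : ℤ) ^ (K - w.k1) • (w.m + i • H75.Perc.dir w.k)

/-- The point `p + i 3^(-k1-1) uv k`. -/
noncomputable def u (i : ℤ) : ℂ := gpt B.o w.k1 (w.m + i • H75.Perc.dir w.k)

/-- The lattice vertex near the point `u i` in the first row outside the barrier. -/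
noncomputable def x (n : ℕ) (i : ℤ) : ℤ × ℤ :=
  (LX (w.k1 + 1) B.o.re (A.δ n) (w.gv (w.k1 + 1) i).1,
    LX (w.k1 + 1) B.o.im (A.δ n) (w.gv (w.k1 + 1) i).2)

/-- The vertex of the barrier next to `x i`. -/
noncomputable def t (n : ℕ) (i : ℤ) : ℤ × ℤ := w.x n i + H75.Perc.dir (w.k - 1)

open Classical in
/-- Free labels leaving the barrier on the wired side of `b''` (label of `b''` included): the first
labels of the contour of the barrier from `β`. -/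
noncomputable def Tw (n : ℕ) : Finset (ℤ × ℤ) :=
  ((range (sInf {i | Pg.ringE (X0 A n) (B.N n) i = w.x n 0 + w.t n 0} + 1)).image
    (Pg.ringE (X0 A n) (B.N n))) ∩ (perp (B.N n) ∩ (X0 A n).E)

/-- The wired labels at the barrier. -/
noncomputable def Z (n : ℕ) : Finset (ℤ × ℤ) :=
  kap (B.N n) ∪ w.Tw n ∪ ((X0 A n).W ∩ star (B.N n))

/-- `x i` is connected to the wired boundary in the configuration `S` (= open and wired labels). -/
def ev (n : ℕ) (i : ℤ) (S : Finset (ℤ × ℤ)) : Prop :=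
  Co ((S \ star (B.N n)) ∪ w.Z n) (w.x n i) (w.t n i)

/-- **The observable.** -/
noncomputable def h (n : ℕ) (i : ℤ) (X : DEnv) : ℝ := Pr X.E (fun η => w.ev n i (η ∪ X.W))

lemma h_eq_cex (n : ℕ) (i : ℤ) (X : DEnv) : w.h n i X = cex (fun S => ind (w.ev n i S)) X :=
  Pr_eq_EX _ _

/-- **The observable is a martingale along the chain.** -/
theorem h_mart (n : ℕ) (i : ℤ) (k0 : ℕ) {O : Type} (obs : DEnv → DEnv → O) (j : ℕ)
    (Y : List O → DEnv → ℝ) :
    EX (X0 A n).E (fun ω => Y ((B.rules k0 n).hist obs j (X0 A n) ω) (B.X k0 n j ω) *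
        w.h n i (B.X k0 n (j + 1) ω)) =
      EX (X0 A n).E (fun ω => Y ((B.rules k0 n).hist obs j (X0 A n) ω) (B.X k0 n j ω) *
        w.h n i (B.X k0 n j ω)) := by
  simp only [h_eq_cex]
  exact mart (B.rules k0 n) obs _ j (X0 A n) Y

end Win

/-! ### Polygons -/

/-- Parameters of the polygons near `b`: barrier index `M`, box `BB` around `b`, point `z` in the
box and in a barrier cell. -/
structure Par (B : Base A r0) where
  /-- barrier index -/
  M : ℕ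
  /-- box around `b` -/
  BB : Cell
  /-- point of the box in a barrier cell -/
  z : ℂ
  hz : z ∈ fat B.o BB ∧ ∃ q ∈ B.Q M, z ∈ fat B.o q
  ball : Metric.ball b (B.r M) ⊆ fat B.o BB

/-- The unit cell of the grid of mesh `3^(-K-1)` containing the point `z`. -/
noncomputable def ucell (o : ℂ) (K : ℕ) (z : ℂ) : ℤ × ℤ :=
  (⌊(z.re - o.re) / mesh (K + 1)⌋, ⌊(z.im - o.im) / mesh (K + 1)⌋)

/-- The tip side of a state with exit edge at the vertex with unit box `x`, direction `d` to the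
outside of the target: two boxes of the notch, then the first free one. -/
def tside (x d : ℤ × ℤ) : (ℤ × ℤ) × ℤ :=
  (x - (2 : ℤ) • d, if d = (0, -1) then 0 else if d = (1, 0) then 1 else if d = (0, 1) then 2 else 3)

/-- The data at level `K` of the state after the step from `X` to `X'` (chain of level `k0`). -/
noncomputable def SDX (B : Base A r0) (P : Par B) (k0 K n : ℕ) (X X' : DEnv) : SD where
  K := K
  U := Uk D (A.δ n) B.o B.qb K X'.E
  C := B.Q P.M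
  B := P.BB
  b0 := ucell B.o K P.z
  s := tside (box (A.δ n) B.o K (tipv (B.F k0 n X.E) (lab X'.α)))
    (tipd (B.F k0 n X.E) (lab X'.α))

/-- The data of the state `j + 1`. -/
noncomputable def SDj (B : Base A r0) (P : Par B) (k0 K n j : ℕ) (ω : Finset (ℤ × ℤ)) : SD :=
  SDX B P k0 K n (B.X k0 n j ω) (B.X k0 n (j + 1) ω)

/-- The domain of the step data. -/
noncomputable def GX (B : Base A r0) (d : SD) : Set ℂ :=
  Pool.Agent.Q1.M4.Om d.R (gx d.K B.o.re) (gx d.K B.o.im)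

open Pool.Agent.Q1.M4 (nextSide tail PType) in
/-- `nb` is the index of the vertex `b''` on the boundary of the region (a flat vertex of the run of
the target). -/
structure IsB (B : Base A r0) (w : Win B) (d : SD) (nb : ℕ) : Prop where
  ok : d.Ok
  lo : d.n1 < nb
  hi : nb < d.n2
  n2 : d.n2 ≤ d.N
  tail : tail ((nextSide d.R)^[nb] d.s) = w.gv d.K 0
  dir : ((nextSide d.R)^[nb] d.s).2 % 4 = w.k % 4
  dir' : ((nextSide d.R)^[nb - 1] d.s).2 % 4 = w.k % 4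

/-- The type of the state: vertex `0` is `b''`, the vertex `m` is the tip, the free arc comes first. -/
noncomputable def IsB.T {B : Base A r0} {w : Win B} {d : SD} {nb : ℕ} (h : IsB B w d nb) :
    Pool.Agent.Q1.M4.PType :=
  Pg.mkType h.ok.good h.ok.side h.ok.mark.walk nb (by have := h.ok.mark.pos; have := h.lo; omega)
    (by have := h.hi; have := h.n2; omega)

/-! ### Statements -/

/-- No label at the lattice vertices within `ρ` of the barrier is explored. -/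
def FreshS (B : Base A r0) (n : ℕ) (ρ : ℝ) (X : DEnv) : Prop :=
  ∀ e ∈ (X0 A n).E, e ∉ X.E → ∀ z ∈ Sbar B, ρ ≤ dist (pt (A.δ n) (eu e)) z

/-- The first `j` steps of the path stay at distance `ρ` from the barrier. -/
def FarS (B : Base A r0) (n : ℕ) (ρ : ℝ) (k0 j : ℕ) (ω : Finset (ℤ × ℤ)) : Prop :=
  ∀ t ≤ B.T k0 n j ω, ∀ z ∈ Sbar B, ρ ≤ dist (pt (A.δ n) (vx ((X0 A n).cor ω t))) z

/-- The state `j` is admissible: the visited vertices are at distance `2 w.l` from the barrier, the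
tip is at distance `ρ` from the corners of the cells of level `k0`. -/
structure Adm {B : Base A r0} (w : Win B) (n : ℕ) (ρ : ℝ) (k0 j : ℕ) (ω : Finset (ℤ × ℤ)) :
    Prop where
  far : FarS B n (2 * w.l) k0 j ω
  good : B.Good k0 n ρ (B.X k0 n j ω)

/-- **[OBS]** The normalised observable is given by the conformal map of the polygon. -/
def StObs (B : Base A r0) (w : Win B) (pz : ℝ → ℝ) (C0 : ℝ) : Prop :=
  IsJordanDomain D → a ≠ b → IsArcs D a b A₁ A₂ → w.Side → ∀ k0, B.qb.1 ≤ k0 → w.q.1 ≤ k0 → ∀ ρ > 0, ∀ ε > 0, ∀ i : ℤ, 0 < i → i * mesh (w.k1 + 1) < w.l →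
  ∃ r > 0, ∀ P : Par B, cfat B.o P.BB ⊆ Metric.ball b r → w.M0 ≤ P.M →
  ∃ K1, ∀ K, K1 ≤ K → ∀ᶠ n in atTop, ∀ ω, ω ⊆ (X0 A n).E → ∀ j,
    Adm w n ρ k0 (j + 1) ω →
    ∃ nb, ∃ hb : IsB B w (SDj B P k0 K n j ω) nb, ∀ (ψ : ℂ → ℂ) (W v c : ℝ),
      Pool.Agent.H29.M7.Chart hb.T (gx K B.o.re) (gx K B.o.im) ψ W →
      Tendsto ψ (𝓝[GX B (SDj B P k0 K n j ω)] w.u i) (𝓝 (v : ℂ)) →
      Tendsto (fun z => (ψ z - v) / (z - w.u i)) (𝓝[GX B (SDj B P k0 K n j ω)] w.u i)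
        (𝓝 ((c : ℂ) / uv w.k)) →
      |w.h n i (B.X k0 n (j + 1) ω) / pz (A.δ n)⁻¹ - C0 * (c / (W - v)) ^ (1 / 3 : ℝ)| ≤ ε

/-- **[UNIF]** Uniform bound of the normalised observable. -/
def StUnif (B : Base A r0) (w : Win B) (pz : ℝ → ℝ) : Prop :=
  ∀ ρ > 0, ∀ i : ℤ, 0 < i → i * mesh (w.k1 + 1) < w.l → ∃ C, ∀ᶠ n in atTop,
    ∀ (k0 j : ℕ) (ω : Finset (ℤ × ℤ)), ω ⊆ (X0 A n).E → FreshS B n ρ (B.X k0 n j ω) →
      w.h n i (B.X k0 n j ω) / pz (A.δ n)⁻¹ ≤ C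

/-- **[JUMP]** Small steps change the observable little. -/
def StJump (B : Base A r0) (w : Win B) (pz : ℝ → ℝ) : Prop :=
  ∀ ρ > 0, ∀ ε > 0, ∀ i : ℤ, 0 < i → i * mesh (w.k1 + 1) < w.l → ∃ e0 > 0, ∀ᶠ n in atTop,
    ∀ (k0 j : ℕ) (ω : Finset (ℤ × ℤ)), ω ⊆ (X0 A n).E → FreshS B n ρ (B.X k0 n (j + 1) ω) →
      (∀ t, B.T k0 n j ω ≤ t → t ≤ B.T k0 n (j + 1) ω →
        dist (pt (A.δ n) (vx ((X0 A n).cor ω t)))
          (pt (A.δ n) (vx ((X0 A n).cor ω (B.T k0 n j ω)))) ≤ e0) →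
      |w.h n i (B.X k0 n (j + 1) ω) - w.h n i (B.X k0 n j ω)| / pz (A.δ n)⁻¹ ≤ ε

/-- The next step from `X` is larger than `e0`. -/
def Large (B : Base A r0) (k0 n : ℕ) (e0 : ℝ) (X : DEnv) (η : Finset (ℤ × ℤ)) : Prop :=
  ∃ t ≤ (B.rules k0 n).tm 1 X η,
    e0 < dist (pt (A.δ n) (vx (X.cor η t))) (pt (A.δ n) (vx X.α))

/-- **[BAD]** The observable after a large step. -/
def StBad (B : Base A r0) (w : Win B) (pz : ℝ → ℝ) : Prop :=
  ∀ ρ > 0, ∀ i : ℤ, 0 < i → i * mesh (w.k1 + 1) < w.l → ∃ C, ∃ e1 > 0, ∀ e0 > 0, e0 ≤ e1 →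
  ∀ᶠ n in atTop, ∀ (k0 j : ℕ) (ω : Finset (ℤ × ℤ)), ω ⊆ (X0 A n).E → FarS B n ρ k0 j ω →
    EX (B.X k0 n j ω).E (fun η => ind (Large B k0 n e0 (B.X k0 n j ω) η) *
      w.h n i ((B.rules k0 n).nenv (B.X k0 n j ω) η)) / pz (A.δ n)⁻¹ ≤
    C * Pr (B.X k0 n j ω).E (Large B k0 n e0 (B.X k0 n j ω))

/-! ### Geometry of the polygons -/

/-- The open half disc of radius `w.l` at `b''`, in the normalised coordinate `u`. -/
def nGX (B : Base A r0) (w : Win B) (d : SD) : Set ℂ := {u | w.p + uv w.k * u ∈ GX B d}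

/-- The component of `D` minus the barrier at the window. -/
def DD (B : Base A r0) (w : Win B) : Set ℂ :=
  connectedComponentIn (D \ Sbar B) (w.p + (w.l / 2 : ℝ) * Complex.I * uv w.k)

/-- **[GEO]** for fixed parameters `P`, `k0` and distance `ρ`, at all fine levels: the polygons of
the states whose explored labels stay at distance `ρ` from the barrier. -/
structure GeoAt (B : Base A r0) (w : Win B) (P : Par B) (k0 K n : ℕ) (ρ : ℝ)
    (ω : Finset (ℤ × ℤ)) (j : ℕ) : Prop where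
  /-- good type with mark `b''` -/
  nb : ∃ nb, IsB B w (SDj B P k0 K n j ω) nb
  /-- flat boundary near `b''` -/
  box : ∀ u : ℂ, ‖u‖ < w.l → (u ∈ nGX B w (SDj B P k0 K n j ω) ↔ 0 < u.im)
  sub : GX B (SDj B P k0 K n j ω) ⊆ D
  /-- the domains decrease -/
  anti : Adm w n ρ k0 (j + 2) ω →
    GX B (SDj B P k0 K n (j + 1) ω) ⊆ GX B (SDj B P k0 K n j ω)
  /-- visited vertices are outside -/
  excl : ∀ t, t ≤ B.T k0 n (j + 1) ω →
    pt (A.δ n) (vx ((X0 A n).cor ω t)) ∉ GX B (SDj B P k0 K n j ω)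
  /-- the mark is near the tip -/
  tip : dist (gpt B.o K (Pool.Agent.Q1.M4.tail (SDj B P k0 K n j ω).s))
    (pt (A.δ n) (vx (B.X k0 n (j + 1) ω).α)) ≤ 10 * mesh K
  /-- the mark is outside the window -/
  far : w.l ≤ dist (gpt B.o K (Pool.Agent.Q1.M4.tail (SDj B P k0 K n j ω).s)) w.p

/-- **[GEO]** -/
def StGeo (B : Base A r0) (w : Win B) : Prop :=
  IsJordanDomain D → a ≠ b → IsArcs D a b A₁ A₂ → w.Side → ∀ k0, B.qb.1 ≤ k0 → w.q.1 ≤ k0 → ∀ ρ > 0,
  ∃ r > 0, ∀ P : Par B, cfat B.o P.BB ⊆ Metric.ball b r → w.M0 ≤ P.M →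
  ∃ K1, ∀ K, K1 ≤ K → ∀ᶠ n in atTop, ∀ ω, ω ⊆ (X0 A n).E → ∀ j,
    Adm w n ρ k0 (j + 1) ω → GeoAt B w P k0 K n ρ ω j

/-- **[VIS]** Preconnected sets which meet a fixed path `P0` to the window and keep a distance from
the explored part, the barrier and the complement of `D` are contained in the polygon. -/
def StVis (B : Base A r0) (w : Win B) : Prop :=
  IsJordanDomain D → a ≠ b → IsArcs D a b A₁ A₂ → w.Side → ∀ k0, B.qb.1 ≤ k0 → w.q.1 ≤ k0 → ∀ ρ > 0, ∀ e > 0, ∀ P0 : Set ℂ, IsCompact P0 →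
    IsPreconnected P0 → P0 ⊆ D \ Sbar B → w.p + (w.l / 2 : ℝ) * Complex.I * uv w.k ∈ P0 →
  ∃ r > 0, ∀ P : Par B, cfat B.o P.BB ⊆ Metric.ball b r → w.M0 ≤ P.M →
  ∃ K1, ∀ K, K1 ≤ K → ∀ᶠ n in atTop, ∀ ω, ω ⊆ (X0 A n).E → ∀ j,
    Adm w n ρ k0 (j + 1) ω →
    (∀ t, t ≤ B.T k0 n (j + 1) ω → ∀ z ∈ P0, e ≤ dist (pt (A.δ n) (vx ((X0 A n).cor ω t))) z) →
    ∀ Pi : Set ℂ, IsPreconnected Pi → (Pi ∩ P0).Nonempty →
      (∀ z ∈ Pi, Metric.ball z e ⊆ D \ Sbar B ∧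
        ∀ t, t ≤ B.T k0 n (j + 1) ω → e ≤ dist (pt (A.δ n) (vx ((X0 A n).cor ω t))) z) →
      P0 ∪ Pi ⊆ GX B (SDj B P k0 K n j ω)

/-- **[TIP]** After the first step the tip is joined to `φ (i e)` near `a`. -/
def StTip (φ : ℂ → ℂ) (B : Base A r0) (w : Win B) : Prop :=
  IsJordanDomain D → a ≠ b → IsArcs D a b A₁ A₂ → w.Side → H82.Q1.IsChart D a b φ → ∀ r > 0, ∀ e : ℝ, 0 < e → (∀ z : ℂ, 0 < z.im → ‖z‖ ≤ e → φ z ∈ Metric.ball a r \ Metric.ball b r0) →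
  ∃ ρ1 > 0, ∀ k0, B.qb.1 ≤ k0 → w.q.1 ≤ k0 → ∀ ρ > 0,
  ∃ r' > 0, ∀ P : Par B, cfat B.o P.BB ⊆ Metric.ball b r' → w.M0 ≤ P.M →
  ∃ K1, ∀ K, K1 ≤ K → ∀ᶠ n in atTop, ∀ ω, ω ⊆ (X0 A n).E → Adm w n ρ k0 1 ω →
    (∀ t, t ≤ B.T k0 n 1 ω → dist (pt (A.δ n) (vx ((X0 A n).cor ω t))) a < ρ1) →
    ∃ Pc : Set ℂ, Pc ⊆ GX B (SDj B P k0 K n 0 ω) ∩ Metric.ball a r ∧ IsPreconnected Pc ∧
      φ (e * Complex.I) ∈ Pc ∧
      gpt B.o K (Pool.Agent.Q1.M4.tail (SDj B P k0 K n 0 ω).s) ∈ closure Pc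

/-- **[END]** The window is joined to `φ (i Y)` near `b`, off the barrier. -/
def IsEnd (φ : ℂ → ℂ) (B : Base A r0) (w : Win B) : Prop :=
  ∀ r > 0, ∀ Y : ℝ, 0 < Y → (∀ z : ℂ, 0 < z.im → Y ≤ ‖z‖ → φ z ∈ Metric.ball b r) →
    (∀ z : ℂ, 0 < z.im → ‖z‖ ≤ Y → φ z ∉ Metric.ball b r0) →
    ∃ Pi : Set ℂ, IsCompact Pi ∧ IsPreconnected Pi ∧ Pi ⊆ (D \ Sbar B) ∩ Metric.ball b r ∧
      φ (Y * Complex.I) ∈ Pi ∧ w.p + (w.l / 2 : ℝ) * Complex.I * uv w.k ∈ Pi

/-- **[WIN]** Windows exist. -/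
def StWin (φ : ℂ → ℂ) (A : Approx D a b A₁ A₂) : Prop :=
  IsJordanDomain D → a ≠ b → IsArcs D a b A₁ A₂ → H82.Q1.IsChart D a b φ → ∀ r0 > 0, ∀ B : Base A r0,
    ∀ l1 > 0, ∃ w : Win B, w.l ≤ l1 ∧ IsEnd φ B w ∧ w.Side

/-- **[PAR]** Parameters exist. -/
def StPar (B : Base A r0) : Prop :=
  ∀ r > 0, ∀ M0 : ℕ, ∃ P : Par B, cfat B.o P.BB ⊆ Metric.ball b r ∧ M0 ≤ P.M

/-! ### Gain -/

/-- The medium cell: open square of side `4/3 η` around the square of the cell. -/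
def medc (o : ℂ) (q : Cell) : Set ℂ :=
  {z | o.re + (q.2.1 - 1 / 6) * mesh q.1 < z.re ∧ z.re < o.re + (q.2.1 + 7 / 6) * mesh q.1 ∧
    o.im + (q.2.2 - 1 / 6) * mesh q.1 < z.im ∧ z.im < o.im + (q.2.2 + 7 / 6) * mesh q.1}

/-- The path meets between the times `s` and `t` a label at a vertex of the medium cell of a cell of
level `kS` which is visible at time `s`. -/
def Gain (B : Base A r0) (kS n : ℕ) (ω : Finset (ℤ × ℤ)) (s t : ℕ) : Prop :=
  ∃ q ∈ Uk D (A.δ n) B.o B.qb kS ((X0 A n).E \ Rules.metE (X0 A n) ω s),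
    ∃ v, pt (A.δ n) v ∈ medc B.o q ∧ ∃ i, s ≤ i ∧ i < t ∧ plab ((X0 A n).cor ω i) ∈ star1 v

/-- **[GAIN]** Macroscopic pieces before the barrier contain a gain. -/
def StGain (B : Base A r0) : Prop :=
  ∀ c > 0, ∀ θ > 0, ∀ k0' : ℕ, ∃ kS, k0' ≤ kS ∧ B.qb.1 ≤ kS ∧ ∀ᶠ n in atTop,
    Pr (X0 A n).E (fun ω => ∃ s t, s ≤ t ∧ t ≤ (X0 A n).len ω ∧
      c ≤ dist (pt (A.δ n) (vx ((X0 A n).cor ω s))) (pt (A.δ n) (vx ((X0 A n).cor ω t))) ∧
      (∀ i < t, plab ((X0 A n).cor ω i) ∉ star (B.N n)) ∧ ¬ Gain B kS n ω s t) ≤ θ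

end window

end Pool.Agent.H82.Q1.M7
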