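import Mathlib
import Pool.Agent.H76.M7.Core
import Pool.Agent.H76.M7.Jump
import Pool.Agent.H53.Q1.J20.Free
import Pool.Agent.Q1.M3.FreeEv
import Pool.Agent.H83.M7.Inst

set_option autoImplicit false
open Finset Filter Topology

/-! # M7: explored labels are far from the barrier and from the window -/

namespace Pool.Agent.H82.Q1.M7

open Pool.Agent.H75.Perc Pool.Agent.H75.TwoArm Pool.Agent.H75.Four Pool.Agent.H69.Q1
open Pool.Agent.H81.Q1 (pt DDomain Approx IsJordanDomain IsArcs)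
open Pool.Agent.Q1.M3
open Pool.Agent.H76.M7 (Wd WB isCompact_WB WB_sub mem_WB bar_near pt_sc sc tc)
open Pool.Agent.H53.Q1 (far_fresh dist_ends eu_end)

variable {D : Set ℂ} {a b : ℂ} {A₁ A₂ : Set ℂ} {A : Approx D a b A₁ A₂} {r0 : ℝ}

lemma isCompact_cfat (o : ℂ) (q : Cell) : IsCompact (cfat o q) := by
  have h : cfat o q = Set.Icc (o.re + (q.2.1 - 1 / 3 : ℝ) * mesh q.1)
      (o.re + (q.2.1 + 4 / 3 : ℝ) * mesh q.1) ×ℂ Set.Icc (o.im + (q.2.2 - 1 / 3 : ℝ) * mesh q.1)
      (o.im + (q.2.2 + 4 / 3 : ℝ) * mesh q.1) := by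
    ext z
    unfold cfat
    rw [Complex.mem_reProdIm]
    simp only [Set.mem_ofPred_eq, Set.mem_Icc]
    tauto
  rw [h]
  exact isCompact_Icc.reProdIm isCompact_Icc

lemma wp_Sbar {B : Base A r0} (w : Win B) : w.p ∈ Sbar B := by
  have h1 := w.dn 0 0 (by rw [abs_zero]; have := w.l0; linarith) le_rfl (by have := w.l0; linarith)
  simp only [Complex.ofReal_zero, zero_mul, sub_zero, add_zero] at h1
  unfold Sbar
  simp only [Set.mem_iUnion]
  exact ⟨w.M0, w.q, w.hq, h1⟩

/-- **[DEAD_FAR]** -/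
theorem dead_far (hJ : IsJordanDomain D) (hA : IsArcs D a b A₁ A₂) {B : Base A r0}
    (w : Win B) {k0 : ℕ} {ρ : ℝ} {i : ℤ} (hi : 0 < i) {c0 : ℝ} (hc : 0 < c0)
    (hc0 : i * mesh (w.k1 + 1) + 2 * c0 ≤ w.l) {rb : ℝ} (hrb : 0 < rb) :
    ∃ η > 0, ∀ᶠ n in atTop, ∀ ω, ω ⊆ (X0 A n).E → ∀ j, Adm w n ρ k0 (j + 1) ω → ∀ v : ℤ × ℤ,
      ¬ star1 v ⊆ (B.X k0 n (j + 1) ω).E → rb ≤ dist (pt (A.δ n) v) b →
      (∀ u ∈ B.N n, η ≤ dist (pt (A.δ n) u) (pt (A.δ n) v)) ∧
      (∀ u, Wd w n i c0 u → η ≤ dist (pt (A.δ n) u) (pt (A.δ n) v)) := by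
  have hDo : IsOpen D := hJ.1
  have hA1f : A₁ ⊆ frontier D := fun x hx => hA.union ▸ Or.inl hx
  have hA1n : A₁.Nonempty := ⟨a, (hA.inter ▸ Or.inl rfl : a ∈ A₁ ∩ A₂).1⟩
  have hl := w.l0
  have hmp := mesh_pos (w.k1 + 1)
  have hi1 : (1 : ℝ) ≤ i := by exact_mod_cast hi
  have him : 0 < i * mesh (w.k1 + 1) := by positivity
  -- compact sets
  obtain ⟨M, hM⟩ := (B.rlim.eventually_lt_const (show (0 : ℝ) < rb / 4 by positivity)).exists
  set KB : Set ℂ := ⋃ q ∈ B.Q M, cfat B.o q with hKB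
  have hKBc : IsCompact KB := (B.Q M).isCompact_biUnion fun q _ => isCompact_cfat B.o q
  have hKBD : KB ⊆ D := Set.iUnion₂_subset fun q hq => (B.subQ M q hq).trans Set.inter_subset_left
  set KW : Set ℂ := WB w (i * mesh (w.k1 + 1) + c0) with hKW
  have hKWc : IsCompact KW := isCompact_WB w _
  have hKWD : KW ⊆ D := WB_sub w (by linarith)
  obtain ⟨s, hs, hth⟩ := (hKBc.union hKWc).exists_thickening_subset_open hDo
    (Set.union_subset hKBD hKWD)
  have hKc : IsCompact (Metric.cthickening (s / 2) (KB ∪ KW)) := (hKBc.union hKWc).cthickening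
  have hKD : Metric.cthickening (s / 2) (KB ∪ KW) ⊆ D :=
    (Metric.cthickening_subset_thickening' hs (by linarith) _).trans hth
  have hfar : ∀ (n : ℕ) (v : ℤ × ℤ), pt (A.δ n) v ∉ Metric.cthickening (s / 2) (KB ∪ KW) →
      ∀ z ∈ KB ∪ KW, s / 2 ≤ dist z (pt (A.δ n) v) := by
    intro n v hv z hz
    by_contra hcon
    refine hv (Metric.mem_cthickening_of_dist_le _ z _ _ hz ?_)
    rw [dist_comm]
    exact (not_le.1 hcon).le
  refine ⟨min (s / 2) (min (rb / 2) (w.l / 4)), lt_min (by positivity)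
    (lt_min (by positivity) (by positivity)), ?_⟩
  have e1 : ∀ᶠ n in atTop, A.δ n < w.l / 8 := A.lim.eventually_lt_const (by positivity)
  filter_upwards [B.hN M, free_ev_compact hDo hA1f hA1n A hKc hKD, e1,
    bar_near (B := B) (show 0 < w.l / 4 by positivity),
    far_fresh B (show 3 / 2 * w.l < 2 * w.l by linarith)] with n g1 g2 g3 g4 g5
  intro ω hω j hadm v hv hvb
  have hF := g5 k0 (j + 1) ω hω hadm.far
  obtain ⟨N', h6, h7⟩ := g1
  by_cases hst : star1 v ⊆ (X0 A n).E
  · -- the label is explored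
    have h1 : ∃ e ∈ star1 v, e ∉ (B.X k0 n (j + 1) ω).E := by
      by_contra hcon
      push Not at hcon
      exact hv hcon
    obtain ⟨e, he, hne⟩ := h1
    have h2 : ∀ z ∈ Sbar B, 3 / 2 * w.l - w.l / 8 ≤ dist (pt (A.δ n) v) z := by
      intro z hz
      have h3 := hF e (hst he) hne z hz
      have h4 := dist_ends (A.pos n) he (eu_end he)
      have h5 := dist_triangle_left (pt (A.δ n) (eu e)) z (pt (A.δ n) v)
      linarith
    constructor
    · intro u hu
      obtain ⟨z, hz, h3⟩ := g4 u hu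
      have h4 := h2 z hz
      have h5 := dist_triangle_left (pt (A.δ n) v) z (pt (A.δ n) u)
      have h8 : min (s / 2) (min (rb / 2) (w.l / 4)) ≤ w.l / 4 :=
        (min_le_right _ _).trans (min_le_right _ _)
      linarith
    · intro u hu
      have h4 := h2 w.p (wp_Sbar w)
      have h3 : dist (pt (A.δ n) u) w.p ≤ w.l := by
        rw [Complex.dist_eq, pt_sc w n u, add_sub_cancel_left, norm_mul,
          Pool.Agent.H83.M7.norm_uv, mul_one]
        have h5 : ‖((sc w n u : ℝ) : ℂ) + (tc w n u : ℝ) * Complex.I‖ ≤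
            |sc w n u| + |tc w n u| := by
          refine (norm_add_le _ _).trans (le_of_eq ?_)
          rw [norm_mul, Complex.norm_I, mul_one, Complex.norm_real, Complex.norm_real,
            Real.norm_eq_abs, Real.norm_eq_abs]
        have h8 := hu.1
        have h9 := hu.2
        have h10 := abs_sub_abs_le_abs_sub (sc w n u) (i * mesh (w.k1 + 1))
        rw [abs_of_pos him] at h10
        linarith
      have h5 := dist_triangle_left (pt (A.δ n) v) w.p (pt (A.δ n) u)
      have h8 : min (s / 2) (min (rb / 2) (w.l / 4)) ≤ w.l / 4 :=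
        (min_le_right _ _).trans (min_le_right _ _)
      linarith
  · -- the vertex is near the complement
    have hv' : pt (A.δ n) v ∉ Metric.cthickening (s / 2) (KB ∪ KW) := fun h1 => hst (g2 v h1)
    have h1 := hfar n v hv'
    have h8 : min (s / 2) (min (rb / 2) (w.l / 4)) ≤ s / 2 := min_le_left _ _
    constructor
    · intro u hu
      rw [h6, mem_union] at hu
      rcases hu with hu | hu
      · obtain ⟨q, hq, hq'⟩ := mem_Vn.1 hu
        rw [mem_verts (A.pos n)] at hq'
        refine h8.trans (h1 _ (Or.inl ?_))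
        rw [hKB]
        exact Set.mem_iUnion₂.2 ⟨q, hq, fat_sub_cfat _ _ hq'⟩
      · have h2 := Metric.mem_ball.1 (h7 u hu)
        have h3 := dist_triangle_left (pt (A.δ n) v) b (pt (A.δ n) u)
        have h9 : min (s / 2) (min (rb / 2) (w.l / 4)) ≤ rb / 2 :=
          (min_le_right _ _).trans (min_le_left _ _)
        linarith
    · intro u hu
      refine h8.trans (h1 _ (Or.inr ?_))
      refine mem_WB w ?_ ?_
      · have h10 := abs_sub_abs_le_abs_sub (sc w n u) (i * mesh (w.k1 + 1))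
        rw [abs_of_pos him] at h10
        have := hu.1
        linarith
      · have := hu.2
        linarith

end Pool.Agent.H82.Q1.M7
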