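import Mathlib
import Pool.Agent.H82.Q1.M7.Iface
import Pool.Agent.H96.M7.Near
import Pool.Agent.H37.Levy.Drive
import Pool.Agent.H4.Q1.M7.Omega
import Pool.Agent.H11.M7.Modulus

set_option autoImplicit false
open Finset Filter Topology MeasureTheory ProbabilityTheory

/-! # J24: the data of one configuration, and the statement which connects the two halves

* `CData` : a discrete Loewner chain of the exploration path with accuracy `ε`;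
* `Qd A φ ε n` : nearly Brownian array (driving function) which is, outside an event of probability
  `ε`, the driving function of a chain with `CData`. -/

namespace Pool.Agent.H82.Q1.M7

open Pool.Agent.H75.Perc Pool.Agent.H75.TwoArm Pool.Agent.H75.Four Pool.Agent.H69.Q1
open Pool.Agent.H81.Q1 (pt DDomain Approx IsJordanDomain IsArcs Curve polyline)
open Pool.Agent.Q1.M3
open Pool.Agent.H4.Q1.M7 (Om PO)
open Pool.Agent.H11.M7 (gp)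
open H37.Levy (Arr eps)

variable {D : Set ℂ} {a b : ℂ} {A₁ A₂ : Set ℂ}

/-- **The chain of one configuration**, with accuracy `ε`: capacity times `t j`, driving values
`V j`, domains `G j`, maps `Z j : G j → ℍ`, indices `Tx j` of the tips on the exploration path. -/
structure CData (A : Approx D a b A₁ A₂) (φ : ℂ → ℂ) (ε : ℝ) (n : ℕ) (ω : Finset (ℤ × ℤ)) (J : ℕ)
    (t V μ : ℕ → ℝ) (G : ℕ → Set ℂ) (Z : ℕ → ℂ → ℂ) (Tx : ℕ → ℕ) : Prop where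
  chain : Pool.Agent.H96.M7.MChain J t V μ G Z
  sub : ∀ j ≤ J, G j ⊆ D
  t0 : t 0 = 0
  V0 : V 0 = 0
  init : ∀ z : ℂ, ε ≤ z.im → ‖z‖ ≤ ε⁻¹ → φ z ∈ G 0 ∧ ‖Z 0 (φ z) - z‖ ≤ ε
  mesh : ∀ j < J, t (j + 1) - t j ≤ ε
  mom : ∑ j ∈ Finset.range J, μ j ≤ ε
  mono : ∀ j < J, Tx j < Tx (j + 1)
  pos : 0 < Tx 0
  len : Tx J ≤ (X0 A n).len ω
  out : ∀ j ≤ J, ∀ u ≤ Tx j, gp A n ω u ∉ G j
  /-- visibility: preconnected sets which contain `φ (i y)` and keep the distance `ε` from the path,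
  if the path also keeps the distance `ε` from `φ (i s)`, `s ≥ y` -/
  vis : ∀ j ≤ J, ∀ y : ℝ, 0 < y → y ≤ ε⁻¹ → ∀ Q : Set ℂ, IsPreconnected Q →
    φ (y * Complex.I) ∈ Q → (∀ z ∈ Q, Metric.ball z ε ⊆ D ∧ ε ≤ dist z b) →
    (∀ u ≤ Tx j, (∀ z ∈ Q, ε ≤ dist (gp A n ω u) z) ∧
      ∀ s : ℝ, y ≤ s → ε ≤ dist (gp A n ω u) (φ (s * Complex.I))) → Q ⊆ G j
  step : ∀ j < J, ∀ u, Tx j ≤ u → u ≤ Tx (j + 1) → dist (gp A n ω u) (gp A n ω (Tx j)) ≤ ε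
  first : ∀ u ≤ Tx 0, dist (gp A n ω u) a ≤ ε
  fin : ε⁻¹ ≤ t J ∨ ε⁻¹ ≤ |V J| ∨ dist (gp A n ω (Tx J)) b ≤ ε

/-- **The intermediate statement of J24.** -/
def Qd (A : Approx D a b A₁ A₂) (φ : ℂ → ℂ) (ε : ℝ) (n : ℕ) : Prop :=
  ∃ (w t : ℕ → Om (X0 A n).E → ℝ)
    (F : Filtration ℕ (inferInstance : MeasurableSpace (Om (X0 A n).E)))
    (T0 M0 δ : ℝ) (e1 e2 : ℕ → ℝ) (N : ℕ),
    Arr w t F (PO (X0 A n).E) 6 T0 M0 δ e1 e2 N ∧ 0 < δ ∧ δ ≤ ε ∧ ε⁻¹ ≤ T0 ∧ ε⁻¹ ≤ M0 ∧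
    eps e1 e2 N ≤ ε ∧
    (PO (X0 A n).E).real {ω | ¬ ∃ J ≤ N, ∃ (μ : ℕ → ℝ) (G : ℕ → Set ℂ) (Z : ℕ → ℂ → ℂ)
      (Tx : ℕ → ℕ), CData A φ ε n ω.1 J (fun j => t j ω) (fun j => w j ω) μ G Z Tx} ≤ ε

end Pool.Agent.H82.Q1.M7
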