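import Mathlib
import Pool.Agent.H82.Q1.M7.Data
import Pool.Agent.H5.M7.Ray

set_option autoImplicit false
open Set Filter Topology Metric

/-! # J24, first half: choice of radii, sets for the visibility -/

namespace Pool.Agent.H82.Q1.M7

open Pool.Agent.H82.Q1 (HH cHH IsChart)
open Pool.Agent.H5.M7 (chart_mem chart_b chart_a cont_ray chart_ab)

variable {D : Set ℂ} {a b : ℂ} {φ : ℂ → ℂ}

/-- Choice of the radii. -/
lemma exists_radii (h : IsChart D a b φ) (Y0 : ℝ) {r : ℝ} (hr : 0 < r) :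
    ∃ Y : ℝ, 0 < Y ∧ Y0 ≤ Y ∧ (∀ z : ℂ, 0 < z.im → Y ≤ ‖z‖ → φ z ∈ ball b r) ∧
      ∃ r0 : ℝ, 0 < r0 ∧ r0 ≤ r ∧ ∀ z : ℂ, 0 ≤ z.im → ‖z‖ ≤ Y → φ z ∉ ball b (2 * r0) := by
  obtain ⟨R, hR⟩ := Pool.Agent.H96.M7.chart_far h hr
  set Y := max (max (R + 1) Y0) 1 with hY
  have hY1 : 1 ≤ Y := le_max_right _ _
  have hYR : R + 1 ≤ Y := (le_max_left _ _).trans (le_max_left _ _)
  refine ⟨Y, by linarith, (le_max_right _ _).trans (le_max_left _ _), ?_, ?_⟩
  · intro z hz hzY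
    exact hR z hz.le (by linarith)
  have hK : IsCompact (cHH ∩ closedBall (0 : ℂ) Y) :=
    (isCompact_closedBall _ _).inter_left Pool.Agent.H96.M7.cHH_closed
  have hK' : IsCompact (φ '' (cHH ∩ closedBall (0 : ℂ) Y)) :=
    hK.image_of_continuousOn (h.cont.mono inter_subset_left)
  have hb : b ∉ φ '' (cHH ∩ closedBall (0 : ℂ) Y) := fun hb => h.ne (image_mono inter_subset_left hb)
  have hne : (φ '' (cHH ∩ closedBall (0 : ℂ) Y)).Nonempty := by
    refine ⟨φ 0, 0, ⟨?_, ?_⟩, rfl⟩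
    · change (0 : ℝ) ≤ (0 : ℂ).im; simp
    · rw [mem_closedBall, dist_self]; linarith
  have hd : 0 < infDist b (φ '' (cHH ∩ closedBall (0 : ℂ) Y)) :=
    (hK'.isClosed.notMem_iff_infDist_pos hne).1 hb
  set d := infDist b (φ '' (cHH ∩ closedBall (0 : ℂ) Y)) with hdd
  refine ⟨min r (d / 2), lt_min hr (by linarith), min_le_left _ _, fun z hz hzY hb' => ?_⟩
  have h1 : d ≤ dist b (φ z) := infDist_le_dist_of_mem ⟨z, ⟨hz, by
    rw [mem_closedBall, dist_zero_right]; exact hzY⟩, rfl⟩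
  have h2 : min r (d / 2) ≤ d / 2 := min_le_right _ _
  rw [mem_ball, dist_comm] at hb'
  linarith

/-- The sets for the visibility. -/
lemma vis_sets (h : IsChart D a b φ) (hD : IsOpen D) {ε Y r0 : ℝ} (hε : 0 < ε)
    (hr0 : 0 < r0) (hr0' : 2 * r0 ≤ ε)
    (h2 : ∀ z : ℂ, 0 ≤ z.im → ‖z‖ ≤ Y → φ z ∉ ball b (2 * r0)) {S : Set ℂ}
    (hS : S ⊆ ball b r0) :
    ∃ e > 0, e ≤ ε ∧ ∀ (y : ℝ) (Q : Set ℂ), 0 < y → y ≤ Y → IsPreconnected Q →
      φ (y * Complex.I) ∈ Q → (∀ z ∈ Q, ball z ε ⊆ D ∧ ε ≤ dist z b) →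
      ∃ Pi : Set ℂ, Q ⊆ Pi ∧ IsPreconnected Pi ∧ φ (Y * Complex.I) ∈ Pi ∧
        (∀ z ∈ Pi, ball z e ⊆ D \ S) ∧
        ∀ p : ℂ, (∀ z ∈ Q, ε ≤ dist p z) → (∀ s : ℝ, y ≤ s → ε ≤ dist p (φ (s * Complex.I))) →
          ∀ z ∈ Pi, e ≤ dist p z := by
  -- small heights are excluded
  obtain ⟨y0, hy0, hy0'⟩ : ∃ y0 > 0, ∀ y : ℝ, 0 < y → y < y0 → dist (φ (y * Complex.I)) a < ε := by
    have h3 : ContinuousWithinAt (fun t : ℝ => φ (t * Complex.I)) (Ici 0) 0 :=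
      cont_ray h (by simp) 0 (by simp)
    have h4 := (Metric.continuousWithinAt_iff.1 h3) ε hε
    obtain ⟨y0, hy0, h5⟩ := h4
    refine ⟨y0, hy0, fun y hy hyy => ?_⟩
    have h6 := h5 (x := y) hy.le (by rw [Real.dist_eq, sub_zero, abs_of_pos hy]; exact hyy)
    simp only [Complex.ofReal_zero, zero_mul, h.zero] at h6
    exact h6
  have him : ∀ s : ℝ, ((s : ℂ) * Complex.I).im = s := fun s => by simp
  have hcont : ContinuousOn (fun s : ℝ => φ (s * Complex.I)) (Icc y0 Y) :=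
    (cont_ray h (z := Complex.I) (by simp)).mono fun s hs => hy0.le.trans hs.1
  have hKc : IsCompact ((fun s : ℝ => φ (s * Complex.I)) '' Icc y0 Y) :=
    isCompact_Icc.image_of_continuousOn hcont
  have hKD : (fun s : ℝ => φ (s * Complex.I)) '' Icc y0 Y ⊆ D := by
    rintro _ ⟨s, hs, rfl⟩
    exact chart_mem h (by rw [him]; exact hy0.trans_le hs.1)
  obtain ⟨e1, he1, hth⟩ := hKc.exists_thickening_subset_open hD hKD
  have hballK : ∀ z ∈ (fun s : ℝ => φ (s * Complex.I)) '' Icc y0 Y, ball z e1 ⊆ D := by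
    intro z hz w hw
    exact hth (mem_thickening_iff.2 ⟨z, hz, hw⟩)
  refine ⟨min (min ε e1) r0, lt_min (lt_min hε he1) hr0,
    (min_le_left _ _).trans (min_le_left _ _), ?_⟩
  intro y Q hy hyY hQ hyQ hQ1
  have hey : y0 ≤ y := by
    by_contra hcon
    push Not at hcon
    have h3 := hy0' y hy hcon
    have h4 := (hQ1 _ hyQ).1 (show a ∈ ball (φ (y * Complex.I)) ε by
      rw [mem_ball, dist_comm]; exact h3)
    exact chart_a h h4
  set Γ := (fun s : ℝ => φ (s * Complex.I)) '' Icc y Y with hΓ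
  have hΓK : Γ ⊆ (fun s : ℝ => φ (s * Complex.I)) '' Icc y0 Y := image_mono (Icc_subset_Icc_left hey)
  have hΓp : IsPreconnected Γ :=
    isPreconnected_Icc.image _ (hcont.mono (Icc_subset_Icc_left hey))
  have h0 : ∀ z ∈ Γ, 2 * r0 ≤ dist z b := by
    rintro _ ⟨s, hs, rfl⟩
    have hs0 : 0 ≤ s := (hy0.le.trans hey).trans hs.1
    have h3 := h2 (s * Complex.I) (by rw [him]; exact hs0) (by
      rw [norm_mul, Complex.norm_I, mul_one, Complex.norm_real, Real.norm_eq_abs,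
        abs_of_nonneg hs0]
      exact hs.2)
    rw [mem_ball, not_lt] at h3
    exact h3
  have hS' : ∀ z : ℂ, 2 * r0 ≤ dist z b → ∀ w ∈ ball z (min (min ε e1) r0), w ∉ S := by
    intro z hz w hw hwS
    have h3 := mem_ball.1 (hS hwS)
    have h4 : dist w z < r0 := (mem_ball.1 hw).trans_le (min_le_right _ _)
    have h5 := dist_triangle_left z b w
    linarith
  refine ⟨Q ∪ Γ, subset_union_left, ?_, Or.inr ⟨Y, ⟨hyY, le_rfl⟩, rfl⟩, ?_, ?_⟩
  · exact hQ.union (φ (y * Complex.I)) hyQ ⟨y, ⟨le_rfl, hyY⟩, rfl⟩ hΓp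
  · rintro z (hz | hz) w hw
    · refine ⟨(hQ1 z hz).1 (ball_subset_ball ((min_le_left _ _).trans (min_le_left _ _)) hw),
        hS' z (hr0'.trans (hQ1 z hz).2) w hw⟩
    · refine ⟨hballK z (hΓK hz) (ball_subset_ball ((min_le_left _ _).trans (min_le_right _ _)) hw),
        hS' z (h0 z hz) w hw⟩
  · rintro p hp1 hp2 z (hz | ⟨s, hs, rfl⟩)
    · exact ((min_le_left _ _).trans (min_le_left _ _)).trans (hp1 z hz)
    · exact ((min_le_left _ _).trans (min_le_left _ _)).trans (hp2 s hs.1)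

end Pool.Agent.H82.Q1.M7
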