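import Mathlib
import Pool.Agent.H82.Q1.M7.Sets

set_option autoImplicit false
open Set Filter Topology Metric

/-! # J24, first half: the first map is close to the inverse of the chart

* `StKC` : the sequence form (helper54, J17);
* `Cond`, `exists_cond` : the form with finitely many conditions. -/

namespace Pool.Agent.H82.Q1.M7

open Pool.Agent.H82.Q1 (HH cHH IsChart)
open Pool.Agent.H5.M7 (chart_mem chart_b chart_a cont_ray chart_ab)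
open Pool.Agent.H83.Lo (UH)

/-- **[KC]** Convergence of the maps of the first domains (sequence form). -/
def StKC (D : Set ℂ) (a b : ℂ) (φ : ℂ → ℂ) : Prop :=
  ∀ (G : ℕ → Set ℂ) (ψ : ℕ → ℂ → ℂ) (W : ℕ → ℝ),
    (∀ m, IsOpen (G m)) → (∀ m, G m ⊆ D) → (∀ m, DifferentiableOn ℂ (ψ m) (G m)) →
    (∀ m, BijOn (ψ m) (G m) UH) →
    (∀ K : Set ℂ, IsCompact K → K ⊆ D → ∀ᶠ m in atTop, K ⊆ G m) →
    (∀ r : ℝ, 0 < r → ∃ e : ℝ, 0 < e ∧ ∀ᶠ m in atTop, ∃ Pc : Set ℂ, Pc ⊆ G m ∩ ball a r ∧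
      IsPreconnected Pc ∧ φ (e * Complex.I) ∈ Pc ∧ (W m : ℂ) ∈ closure (ψ m '' Pc)) →
    (∀ r : ℝ, 0 < r → ∃ Y : ℝ, 0 < Y ∧ ∀ᶠ m in atTop, ∃ Pb : Set ℂ, Pb ⊆ G m ∩ ball b r ∧
      IsPreconnected Pb ∧ φ (Y * Complex.I) ∈ Pb ∧ ¬ Bornology.IsBounded (ψ m '' Pb)) →
    ∀ K : Set ℂ, IsCompact K → K ⊆ UH → ∀ ε : ℝ, 0 < ε → ∀ᶠ m in atTop, ∀ z ∈ K,
      ‖((‖ψ m (φ Complex.I) - W m‖⁻¹ : ℝ) : ℂ) * (ψ m (φ z) - W m) - z‖ ≤ ε

variable {D : Set ℂ} {a b : ℂ} {φ : ℂ → ℂ}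

/-- heights near `a` -/
lemma exists_low (h : IsChart D a b φ) (i : ℕ) : ∃ e : ℝ, 0 < e ∧
    ∀ z : ℂ, 0 < z.im → ‖z‖ ≤ e → φ z ∈ ball a (1 / ((i : ℝ) + 1)) := by
  have h1 : ContinuousWithinAt φ cHH 0 := h.cont 0 (by change (0 : ℝ) ≤ (0 : ℂ).im; simp)
  obtain ⟨e, he, h2⟩ := (Metric.continuousWithinAt_iff.1 h1) (1 / ((i : ℝ) + 1)) (by positivity)
  refine ⟨e / 2, by linarith, fun z hz hze => ?_⟩
  have h3 := h2 (x := z) hz.le (by rw [dist_zero_right]; linarith)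
  rw [h.zero] at h3
  exact h3

/-- heights near `b` -/
lemma exists_high (h : IsChart D a b φ) (i : ℕ) : ∃ Y : ℝ, 0 < Y ∧
    ∀ z : ℂ, 0 < z.im → Y ≤ ‖z‖ → φ z ∈ ball b (1 / ((i : ℝ) + 1)) := by
  obtain ⟨Y, hY, -, h1, -⟩ := exists_radii h 0 (r := 1 / ((i : ℝ) + 1)) (by positivity)
  exact ⟨Y, hY, h1⟩

/-- the chosen heights -/
noncomputable def lo (h : IsChart D a b φ) (i : ℕ) : ℝ := (exists_low h i).choose
noncomputable def hi (h : IsChart D a b φ) (i : ℕ) : ℝ := (exists_high h i).choose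

/-- The first `m` conditions. -/
structure Cond (h : IsChart D a b φ) (m : ℕ) (G : Set ℂ) (ψ : ℂ → ℂ) (W : ℝ) : Prop where
  op : IsOpen G
  sub : G ⊆ D
  diff : DifferentiableOn ℂ ψ G
  bij : BijOn ψ G UH
  comp : φ '' {z | 1 / ((m : ℝ) + 1) ≤ z.im ∧ ‖z‖ ≤ m + 1} ⊆ G
  low : ∀ i ≤ m, ∃ Pc : Set ℂ, Pc ⊆ G ∩ ball a (1 / ((i : ℝ) + 1)) ∧ IsPreconnected Pc ∧
    φ (lo h i * Complex.I) ∈ Pc ∧ (W : ℂ) ∈ closure (ψ '' Pc)
  high : ∀ i ≤ m, ∃ Pb : Set ℂ, Pb ⊆ G ∩ ball b (1 / ((i : ℝ) + 1)) ∧ IsPreconnected Pb ∧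
    φ (hi h i * Complex.I) ∈ Pb ∧ ¬ Bornology.IsBounded (ψ '' Pb)

lemma one_div_small {r : ℝ} (hr : 0 < r) : ∃ i : ℕ, 1 / ((i : ℝ) + 1) < r :=
  exists_nat_one_div_lt hr

/-- **Finitely many conditions are enough.** -/
theorem exists_cond (h : IsChart D a b φ) (hKC : StKC D a b φ) {ε : ℝ} (hε : 0 < ε) :
    ∃ m : ℕ, ∀ (G : Set ℂ) (ψ : ℂ → ℂ) (W : ℝ), Cond h m G ψ W →
      ∀ z : ℂ, ε ≤ z.im → ‖z‖ ≤ ε⁻¹ → φ z ∈ G ∧
        ‖((‖ψ (φ Complex.I) - W‖⁻¹ : ℝ) : ℂ) * (ψ (φ z) - W) - z‖ ≤ ε := by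
  by_contra hcon
  push Not at hcon
  choose G ψ W hc z hz1 hz2 hz3 using hcon
  have hlow : ∀ i, 0 < lo h i ∧ ∀ z : ℂ, 0 < z.im → ‖z‖ ≤ lo h i →
      φ z ∈ ball a (1 / ((i : ℝ) + 1)) := fun i => (exists_low h i).choose_spec
  have hhigh : ∀ i, 0 < hi h i ∧ ∀ z : ℂ, 0 < z.im → hi h i ≤ ‖z‖ →
      φ z ∈ ball b (1 / ((i : ℝ) + 1)) := fun i => (exists_high h i).choose_spec
  have hcomp : ∀ K : Set ℂ, IsCompact K → K ⊆ D → ∀ᶠ m in atTop, K ⊆ G m := by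
    intro K hK hKD
    obtain ⟨c, hc0, hc1⟩ := Pool.Agent.H96.M7.psi_compact h hK hKD
    obtain ⟨i, hi⟩ := one_div_small hc0
    filter_upwards [eventually_ge_atTop i] with m hm p hp
    have h1 := hc1 p hp
    have h2 : p ∈ φ '' {z | 1 / ((m : ℝ) + 1) ≤ z.im ∧ ‖z‖ ≤ m + 1} := by
      refine ⟨Pool.Agent.H96.M7.psi φ p, ⟨?_, ?_⟩,
        Pool.Agent.H96.M7.psi_right (Pool.Agent.H96.M7.chart_sub h (hKD hp))⟩
      · refine le_trans ?_ h1.1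
        refine le_trans ?_ hi.le
        exact one_div_le_one_div_of_le (by positivity) (by
          have : (i : ℝ) ≤ m := by exact_mod_cast hm
          linarith)
      · refine h1.2.trans ?_
        have h3 : c⁻¹ ≤ (1 / ((i : ℝ) + 1))⁻¹ := inv_anti₀ (by positivity) hi.le
        rw [one_div, inv_inv] at h3
        have : (i : ℝ) ≤ m := by exact_mod_cast hm
        linarith
    exact (hc m).comp h2
  have hK : IsCompact {z : ℂ | ε ≤ z.im ∧ ‖z‖ ≤ ε⁻¹} := by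
    have h1 : {z : ℂ | ε ≤ z.im ∧ ‖z‖ ≤ ε⁻¹} = closedBall (0 : ℂ) ε⁻¹ ∩ {z | ε ≤ z.im} := by
      ext z
      simp only [mem_setOf_eq, mem_inter_iff, mem_closedBall, dist_zero_right]
      tauto
    rw [h1]
    exact (isCompact_closedBall _ _).inter_right (isClosed_le continuous_const Complex.continuous_im)
  have hKU : {z : ℂ | ε ≤ z.im ∧ ‖z‖ ≤ ε⁻¹} ⊆ UH := fun z hz => hε.trans_le hz.1
  have hfin := hKC G ψ W (fun m => (hc m).op) (fun m => (hc m).sub) (fun m => (hc m).diff)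
    (fun m => (hc m).bij) hcomp ?_ ?_ _ hK hKU ε hε
  · have hin : ∀ᶠ m in atTop, φ '' {z : ℂ | ε ≤ z.im ∧ ‖z‖ ≤ ε⁻¹} ⊆ G m := by
      refine hcomp _ (hK.image_of_continuousOn (h.cont.mono fun z hz => ?_)) ?_
      · exact (hε.le.trans hz.1 : (0 : ℝ) ≤ z.im)
      · rintro _ ⟨z, hz, rfl⟩
        exact chart_mem h (hε.trans_le hz.1)
    obtain ⟨m, hm1, hm2⟩ := (hfin.and hin).exists
    have h4 := hz3 m (hm2 ⟨z m, ⟨hz1 m, hz2 m⟩, rfl⟩)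
    exact absurd (hm1 (z m) ⟨hz1 m, hz2 m⟩) (not_le.2 h4)
  · intro r hr
    obtain ⟨i, hi⟩ := one_div_small hr
    refine ⟨lo h i, (hlow i).1, ?_⟩
    filter_upwards [eventually_ge_atTop i] with m hm
    obtain ⟨Pc, h1, h2, h3, h4⟩ := (hc m).low i hm
    exact ⟨Pc, h1.trans (inter_subset_inter_right _ (ball_subset_ball hi.le)), h2, h3, h4⟩
  · intro r hr
    obtain ⟨i, hi⟩ := one_div_small hr
    refine ⟨Pool.Agent.H82.Q1.M7.hi h i, (hhigh i).1, ?_⟩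
    filter_upwards [eventually_ge_atTop i] with m hm
    obtain ⟨Pc, h1, h2, h3, h4⟩ := (hc m).high i hm
    exact ⟨Pc, h1.trans (inter_subset_inter_right _ (ball_subset_ball hi.le)), h2, h3, h4⟩

end Pool.Agent.H82.Q1.M7
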