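import Mathlib
import Pool.Agent.H37.M7.Coarse2

set_option autoImplicit false
open Set Filter Topology MeasureTheory ProbabilityTheory

/-! # J24, first half: the coarse chain of one configuration -/

namespace Pool.Agent.H82.Q1.M7

open Pool.Agent.H66.M7
open H37.Levy (Lg)
open H37.M7

universe u

section path

variable {Ω : Type u} {A : ℕ → Ω → ℂ → ℂ} {W : ℕ → Ω → ℝ} {al : Ω → ℝ} {g b : ℕ → Set Ω}
  {T0 M0 δ : ℝ} {J : ℕ} {R : ℕ → ℕ → Set Ω} {k j : ℕ} {ω : Ω}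

/-- The conditions which end a coarse step. -/
def Cnd (A : ℕ → Ω → ℂ → ℂ) (W : ℕ → Ω → ℝ) (al : Ω → ℝ) (δ : ℝ) (R : ℕ → ℕ → Set Ω) (i j : ℕ) :
    Set Ω :=
  {ω | δ ≤ |dr W al j ω - dr W al i ω| ∨ δ ≤ cp A al j ω - cp A al i ω ∨ ω ∈ R i j}

lemma not_Cnd {i : ℕ} : ω ∉ Cnd A W al δ R i j ↔
    |dr W al j ω - dr W al i ω| < δ ∧ cp A al j ω - cp A al i ω < δ ∧ ω ∉ R i j := by
  unfold Cnd
  rw [Set.mem_ofPred_eq, not_or, not_or, not_le, not_le]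

lemma mem_Cnd {i : ℕ} : ω ∈ Cnd A W al δ R i j ↔
    (δ ≤ |dr W al j ω - dr W al i ω| ∨ δ ≤ cp A al j ω - cp A al i ω) ∨ ω ∈ R i j := by
  unfold Cnd
  rw [Set.mem_ofPred_eq, or_assoc]

lemma dr_cs (C : ℕ → ℕ → Set Ω) (k : ℕ) (ω : Ω) :
    dr (cs J b C W) al k ω = dr W al (sg J b C k ω) ω := rfl

lemma cp_cs (C : ℕ → ℕ → Set Ω) (k : ℕ) (ω : Ω) :
    cp (cs J b C A) al k ω = cp A al (sg J b C k ω) ω := rfl

/-- coarse set `On` -/
abbrev cOn (J : ℕ) (b : ℕ → Set Ω) (A : ℕ → Ω → ℂ → ℂ) (W : ℕ → Ω → ℝ) (al : Ω → ℝ) (δ : ℝ)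
    (R : ℕ → ℕ → Set Ω) (T0 M0 : ℝ) (k : ℕ) : Set Ω :=
  On (cs J b (Cnd A W al δ R) A) (cs J b (Cnd A W al δ R) W) al
    (cb J b (Cnd A W al δ R)) T0 M0 k

/-- coarse set `Stp` -/
abbrev cStp (J : ℕ) (g b : ℕ → Set Ω) (A : ℕ → Ω → ℂ → ℂ) (W : ℕ → Ω → ℝ) (al : Ω → ℝ) (δ : ℝ)
    (R : ℕ → ℕ → Set Ω) (T0 M0 : ℝ) (k : ℕ) : Set Ω :=
  Stp (cs J b (Cnd A W al δ R) A) (cs J b (Cnd A W al δ R) W) al
    (cg J b (Cnd A W al δ R) g) (cb J b (Cnd A W al δ R)) T0 M0 k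

/-- coarse driving function -/
noncomputable abbrev cws (J : ℕ) (g b : ℕ → Set Ω) (A : ℕ → Ω → ℂ → ℂ) (W : ℕ → Ω → ℝ)
    (al : Ω → ℝ) (δ : ℝ) (R : ℕ → ℕ → Set Ω) (T0 M0 : ℝ) : ℕ → Ω → ℝ :=
  ws (cs J b (Cnd A W al δ R) A) (cs J b (Cnd A W al δ R) W) al
    (cg J b (Cnd A W al δ R) g) (cb J b (Cnd A W al δ R)) T0 M0

/-- coarse capacity -/
noncomputable abbrev cts (J : ℕ) (g b : ℕ → Set Ω) (A : ℕ → Ω → ℂ → ℂ) (W : ℕ → Ω → ℝ)
    (al : Ω → ℝ) (δ : ℝ) (R : ℕ → ℕ → Set Ω) (T0 M0 : ℝ) : ℕ → Ω → ℝ :=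
  ts (cs J b (Cnd A W al δ R) A) (cs J b (Cnd A W al δ R) W) al
    (cg J b (Cnd A W al δ R) g) (cb J b (Cnd A W al δ R)) T0 M0

lemma cbg (C : ℕ → ℕ → Set Ω) (hbg : ∀ j, b j ⊆ g j) (k : ℕ) : cb J b C k ⊆ cg J b C g k :=
  fun _ h => hbg _ h.2

/-- The micro chain is on between coarse indices. -/
lemma micro_on (hδ1 : δ ≤ 1) (h : ω ∈ cOn J b A W al δ R T0 M0 k) :
    ∀ i < sg J b (Cnd A W al δ R) (k + 1) ω, ω ∈ On A W al b (T0 + 1) (M0 + 1) i := by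
  set C := Cnd A W al δ R with hC
  have key : ∀ k, ω ∈ cOn J b A W al δ R T0 M0 k → ∀ i < sg J b C (k + 1) ω,
      ω ∈ b i ∧ |dr W al i ω| ≤ M0 + 1 ∧ cp A al i ω ≤ T0 + 1 := by
    intro k
    induction k with
    | zero =>
      intro h i hi
      obtain ⟨h1, h2, h3⟩ := h 0 le_rfl
      obtain ⟨h4, h5⟩ := between h1 (Nat.zero_le i) hi
      refine ⟨h4, ?_⟩
      rw [dr_cs, sg_zero] at h2
      rw [cp_cs, sg_zero] at h3
      rcases Nat.eq_zero_or_pos i with h6 | h6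
      · rw [h6]
        constructor <;> linarith
      · obtain ⟨h8, h9, -⟩ := not_Cnd.1 (h5 h6)
        rw [sg_zero] at h8 h9
        have h10 := abs_sub_abs_le_abs_sub (dr W al i ω) (dr W al 0 ω)
        constructor <;> linarith
    | succ k ih =>
      intro h i hi
      rcases lt_or_ge i (sg J b C (k + 1) ω) with h0 | h0
      · exact ih (On_anti (Nat.le_succ k) h) i h0
      obtain ⟨h1, h2, h3⟩ := h (k + 1) le_rfl
      obtain ⟨h4, h5⟩ := between h1 h0 hi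
      refine ⟨h4, ?_⟩
      rw [dr_cs] at h2
      rw [cp_cs] at h3
      rcases h0.eq_or_lt with h6 | h6
      · rw [← h6]
        constructor <;> linarith
      · obtain ⟨h8, h9, -⟩ := not_Cnd.1 (h5 h6)
        have h10 := abs_sub_abs_le_abs_sub (dr W al i ω) (dr W al (sg J b C (k + 1) ω) ω)
        constructor <;> linarith
  intro i hi m hm
  exact key k h m (hm.trans_lt hi)

/-- All micro steps of a coarse step are made. -/
lemma micro_stp (hbg : ∀ j, b j ⊆ g j) (hδ1 : δ ≤ 1) (h : ω ∈ cStp J g b A W al δ R T0 M0 k) :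
    ∀ i < sg J b (Cnd A W al δ R) (k + 1) ω, ω ∈ Stp A W al g b (T0 + 1) (M0 + 1) i := by
  intro i hi
  refine ⟨micro_on hδ1 h.1 i hi, ?_⟩
  rcases Nat.lt_or_ge (i + 1) (sg J b (Cnd A W al δ R) (k + 1) ω) with h1 | h1
  · exact hbg _ (micro_on hδ1 h.1 (i + 1) h1 (i + 1) le_rfl).1
  · have h2 : i + 1 = sg J b (Cnd A W al δ R) (k + 1) ω := by omega
    rw [h2]
    exact h.2

/-- Coarse steps are small. -/
lemma coarse_small (hbg : ∀ j, b j ⊆ g j) (hδ0 : 0 ≤ δ) (hδ1 : δ ≤ 1)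
    (hsm : ∀ j, ω ∉ Lg (ws A W al g b (T0 + 1) (M0 + 1)) (ts A W al g b (T0 + 1) (M0 + 1)) δ j)
    (h : ω ∈ cStp J g b A W al δ R T0 M0 k) :
    |dr W al (sg J b (Cnd A W al δ R) (k + 1) ω) ω -
      dr W al (sg J b (Cnd A W al δ R) k ω) ω| ≤ 2 * δ ∧
    cp A al (sg J b (Cnd A W al δ R) (k + 1) ω) ω -
      cp A al (sg J b (Cnd A W al δ R) k ω) ω ≤ 2 * δ := by
  set C := Cnd A W al δ R with hC
  have hcb : ω ∈ cb J b C k := On_b h.1
  have h1 := sg_lt hcb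
  obtain ⟨m, hm⟩ : ∃ m, sg J b C (k + 1) ω = m + 1 := ⟨sg J b C (k + 1) ω - 1, by omega⟩
  have h2 := micro_stp hbg hδ1 h
  rw [← hC, hm] at h2
  obtain ⟨e1, e2⟩ := ws_eq fun i hi => h2 i hi
  obtain ⟨e3, e4⟩ := ws_eq fun i (hi : i < m) => h2 i (by omega)
  have h3 := hsm m
  unfold Lg at h3
  rw [Set.mem_ofPred_eq, not_or, not_lt, not_lt, e1, e2, e3, e4] at h3
  have h4 : |dr W al m ω - dr W al (sg J b C k ω) ω| ≤ δ ∧
      cp A al m ω - cp A al (sg J b C k ω) ω ≤ δ := by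
    have h5 : sg J b C k ω ≤ m := by omega
    rcases h5.eq_or_lt with h6 | h6
    · rw [h6, sub_self, abs_zero, sub_self]
      exact ⟨hδ0, hδ0⟩
    · obtain ⟨h8, h9, -⟩ := not_Cnd.1 ((between hcb h5 (by omega)).2 h6)
      exact ⟨h8.le, h9.le⟩
  rw [hm]
  have h8 := abs_sub_le (dr W al (m + 1) ω) (dr W al m ω) (dr W al (sg J b C k ω) ω)
  constructor
  · linarith [h3.1, h4.1]
  · linarith [h3.2, h4.2]

/-- The coarse array has no large steps. -/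
lemma coarse_Lg (hbg : ∀ j, b j ⊆ g j) (hδ0 : 0 ≤ δ) (hδ1 : δ ≤ 1)
    (hsm : ∀ j, ω ∉ Lg (ws A W al g b (T0 + 1) (M0 + 1)) (ts A W al g b (T0 + 1) (M0 + 1)) δ j)
    (k : ℕ) : ω ∉ Lg (cws J g b A W al δ R T0 M0) (cts J g b A W al δ R T0 M0) (2 * δ) k := by
  set C := Cnd A W al δ R with hC
  intro hL
  unfold Lg at hL
  rw [Set.mem_ofPred_eq] at hL
  unfold cws cts at hL
  rw [ws_succ, ts_succ] at hL
  by_cases h : ω ∈ cStp J g b A W al δ R T0 M0 k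
  · rw [Set.indicator_of_mem h, Set.indicator_of_mem h] at hL
    obtain ⟨h1, h2⟩ := coarse_small hbg hδ0 hδ1 hsm h
    have e1 : al ω * (cs J b C W (k + 1) ω - cs J b C W k ω) =
        dr W al (sg J b C (k + 1) ω) ω - dr W al (sg J b C k ω) ω := by
      unfold dr cs
      ring
    have e2 : al ω ^ 2 * (rc (cs J b C A k ω) 1 - rc (cs J b C A (k + 1) ω) 1) / 2 =
        cp A al (sg J b C (k + 1) ω) ω - cp A al (sg J b C k ω) ω := by
      unfold cp cs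
      ring
    rw [← hC, e1, e2] at hL
    rcases hL with h3 | h3
    · exact absurd h1 (not_le.2 h3)
    · exact absurd h2 (not_le.2 h3)
  · rw [Set.indicator_of_notMem h, Set.indicator_of_notMem h, abs_zero] at hL
    rcases hL with h3 | h3 <;> linarith

open Classical in
/-- **The end of the coarse chain.** -/
theorem coarse_end (hbg : ∀ j, b j ⊆ g j) (hT0 : 0 ≤ T0) (hM0 : 0 ≤ M0) (h0 : ω ∈ b 0)
    (h1 : ∀ j, ω ∈ b j → ω ∈ g (j + 1)) (h2 : ω ∉ b J) {N1 N2 : ℕ}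
    (h3 : ((Finset.range (N1 + N2)).filter fun k =>
      δ ≤ |cws J g b A W al δ R T0 M0 (k + 1) ω - cws J g b A W al δ R T0 M0 k ω| ∨
      δ ≤ cts J g b A W al δ R T0 M0 (k + 1) ω - cts J g b A W al δ R T0 M0 k ω).card < N1)
    (h4 : ((Finset.range (N1 + N2)).filter fun k =>
      ω ∈ R (sg J b (Cnd A W al δ R) k ω) (sg J b (Cnd A W al δ R) (k + 1) ω)).card < N2) :
    ∃ m ≤ N1 + N2, 0 < m ∧ (∀ k < m, ω ∈ cStp J g b A W al δ R T0 M0 k) ∧
      (ω ∉ b (sg J b (Cnd A W al δ R) m ω) ∨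
        M0 < |dr W al (sg J b (Cnd A W al δ R) m ω) ω| ∨
        T0 < cp A al (sg J b (Cnd A W al δ R) m ω) ω) := by
  set C := Cnd A W al δ R with hC
  have hcbg := cbg (J := J) (g := g) C hbg
  have hex : ∃ m, m ≤ N1 + N2 ∧ ω ∉ cOn J b A W al δ R T0 M0 m := by
    refine ⟨N1 + N2, le_rfl, fun hN => ?_⟩
    have hS : ∀ k < N1 + N2, ω ∈ cStp J g b A W al δ R T0 M0 k := fun k hk =>
      On_sub_Stp hcbg hk hN
    have hsub : Finset.range (N1 + N2) ⊆ ((Finset.range (N1 + N2)).filter fun k =>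
        δ ≤ |cws J g b A W al δ R T0 M0 (k + 1) ω - cws J g b A W al δ R T0 M0 k ω| ∨
        δ ≤ cts J g b A W al δ R T0 M0 (k + 1) ω - cts J g b A W al δ R T0 M0 k ω) ∪
        ((Finset.range (N1 + N2)).filter fun k => ω ∈ R (sg J b C k ω) (sg J b C (k + 1) ω)) := by
      intro k hk
      have hk' := Finset.mem_range.1 hk
      have hcb : ω ∈ cb J b C k := On_b (hS k hk').1
      have hcb' : ω ∈ cb J b C (k + 1) := On_b (On_anti hk' hN)
      rcases why hcb with h5 | h5 | h5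
      · exact absurd hcb'.1 (not_lt.2 h5)
      · exact absurd hcb'.2 h5
      · rw [mem_Cnd] at h5
        rw [Finset.mem_union, Finset.mem_filter, Finset.mem_filter]
        rcases h5 with h5 | h5
        · left
          refine ⟨hk, ?_⟩
          have e1 : cws J g b A W al δ R T0 M0 (k + 1) ω - cws J g b A W al δ R T0 M0 k ω =
              dr W al (sg J b C (k + 1) ω) ω - dr W al (sg J b C k ω) ω := by
            unfold cws
            rw [ws_succ, Set.indicator_of_mem (hS k hk')]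
            unfold dr cs
            ring
          have e2 : cts J g b A W al δ R T0 M0 (k + 1) ω - cts J g b A W al δ R T0 M0 k ω =
              cp A al (sg J b C (k + 1) ω) ω - cp A al (sg J b C k ω) ω := by
            unfold cts
            rw [ts_succ, Set.indicator_of_mem (hS k hk')]
            unfold cp cs
            ring
          rw [e1, e2]
          exact h5
        · right
          exact ⟨hk, h5⟩
    have h5 := (Finset.card_le_card hsub).trans (Finset.card_union_le _ _)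
    rw [Finset.card_range] at h5
    omega
  obtain ⟨hm, hmO⟩ := Nat.find_spec hex
  set m := Nat.find hex with hmdef
  have hbefore : ∀ k < m, ω ∈ cOn J b A W al δ R T0 M0 k := by
    intro k hk
    by_contra h5
    exact Nat.find_min hex hk ⟨(hk.le.trans hm), h5⟩
  have hJ : 0 < J := by
    rcases Nat.eq_zero_or_pos J with h5 | h5
    · rw [h5] at h2
      exact absurd h0 h2
    · exact h5
  have hm0 : 0 < m := by
    rcases Nat.eq_zero_or_pos m with h5 | h5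
    · exfalso
      apply hmO
      rw [h5]
      intro i hi
      have hi0 : i = 0 := by omega
      rw [hi0]
      refine ⟨⟨hJ, h0⟩, ?_, ?_⟩
      · rw [dr_cs, sg_zero]
        unfold dr
        rw [sub_self, mul_zero, abs_zero]
        exact hM0
      · rw [cp_cs, sg_zero]
        unfold cp
        rw [sub_self, mul_zero, zero_div]
        exact hT0
    · exact h5
  refine ⟨m, hm, hm0, fun k hk => ⟨hbefore k hk, ?_⟩, ?_⟩
  · have hcb : ω ∈ cb J b C k := On_b (hbefore k hk)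
    have h5 := sg_lt hcb
    have h6 := before hcb (sg J b C (k + 1) ω - 1) (by omega)
    have h7 := h1 _ h6
    change ω ∈ g (sg J b C (k + 1) ω)
    rwa [Nat.sub_add_cancel (by omega)] at h7
  · obtain ⟨m', hm'⟩ : ∃ m', m = m' + 1 := ⟨m - 1, by omega⟩
    have h5 := hbefore m' (by omega)
    rw [hm'] at hmO ⊢
    unfold cOn at hmO h5
    rw [On_succ] at hmO
    by_contra h6
    rw [not_or, not_or, not_not, not_lt, not_lt] at h6
    refine hmO ⟨h5, ⟨?_, h6.1⟩, ?_, ?_⟩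
    · refine lt_of_le_of_ne sg_le fun h7 => h2 ?_
      have h8 := h6.1
      rw [hC] at h8
      rw [← h7]
      exact h8
    · rw [dr_cs]; exact h6.2.1
    · rw [cp_cs]; exact h6.2.2

/-- coarse second moments -/
noncomputable abbrev cqs (J : ℕ) (g b : ℕ → Set Ω) (A : ℕ → Ω → ℂ → ℂ) (W : ℕ → Ω → ℝ)
    (al : Ω → ℝ) (δ : ℝ) (R : ℕ → ℕ → Set Ω) (T0 M0 : ℝ) : ℕ → Ω → ℝ :=
  qs (cs J b (Cnd A W al δ R) A) (cs J b (Cnd A W al δ R) W) al
    (cg J b (Cnd A W al δ R) g) (cb J b (Cnd A W al δ R)) T0 M0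

/-- A run of the coarse chain: `m` steps with indices `σ`. -/
structure CRun (g b : ℕ → Set Ω) (A : ℕ → Ω → ℂ → ℂ) (W : ℕ → Ω → ℝ) (al : Ω → ℝ) (δ : ℝ)
    (R : ℕ → ℕ → Set Ω) (T0 M0 : ℝ) (w' t' q' : ℕ → Ω → ℝ) (ω : Ω) (m : ℕ) (σ : ℕ → ℕ) :
    Prop where
  zero : σ 0 = 0
  lt : ∀ k < m, σ k < σ (k + 1)
  good : ∀ k ≤ m, ω ∈ g (σ k)
  on : ∀ k < m, ∀ i, σ k ≤ i → i < σ (k + 1) → ω ∈ b i
  btw : ∀ k < m, ∀ i, σ k < i → i < σ (k + 1) → ω ∉ R (σ k) i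
  valw : ∀ k ≤ m, w' k ω = dr W al (σ k) ω
  valt : ∀ k ≤ m, t' k ω = cp A al (σ k) ω
  valq : ∀ k < m, q' k ω = al ω ^ 4 * (rc (A (σ k) ω) 3 - rc (A (σ (k + 1)) ω) 3 -
    rc (A (σ (k + 1)) ω) 1 * (rc (A (σ k) ω) 1 - rc (A (σ (k + 1)) ω) 1) -
    2 * W (σ k) ω * (rc (A (σ (k + 1)) ω) 2 - rc (A (σ k) ω) 2) +
    W (σ k) ω ^ 2 * (rc (A (σ k) ω) 1 - rc (A (σ (k + 1)) ω) 1))
  smallt : ∀ k < m, cp A al (σ (k + 1)) ω - cp A al (σ k) ω ≤ 2 * δ
  fin : ω ∉ b (σ m) ∨ M0 < |dr W al (σ m) ω| ∨ T0 < cp A al (σ m) ω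

open Classical in
/-- **The run exists.** -/
theorem exists_run (hbg : ∀ j, b j ⊆ g j) (hT0 : 0 ≤ T0) (hM0 : 0 ≤ M0) (hδ0 : 0 ≤ δ)
    (hδ1 : δ ≤ 1)
    (hsm : ∀ j, ω ∉ Lg (ws A W al g b (T0 + 1) (M0 + 1)) (ts A W al g b (T0 + 1) (M0 + 1)) δ j)
    (h0 : ω ∈ b 0) (h1 : ∀ j, ω ∈ b j → ω ∈ g (j + 1)) (h2 : ω ∉ b J) {N1 N2 : ℕ}
    (h3 : ((Finset.range (N1 + N2)).filter fun k =>
      δ ≤ |cws J g b A W al δ R T0 M0 (k + 1) ω - cws J g b A W al δ R T0 M0 k ω| ∨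
      δ ≤ cts J g b A W al δ R T0 M0 (k + 1) ω - cts J g b A W al δ R T0 M0 k ω).card < N1)
    (h4 : ((Finset.range (N1 + N2)).filter fun k =>
      ω ∈ R (sg J b (Cnd A W al δ R) k ω) (sg J b (Cnd A W al δ R) (k + 1) ω)).card < N2) :
    ∃ m ≤ N1 + N2, CRun g b A W al δ R T0 M0 (cws J g b A W al δ R T0 M0)
      (cts J g b A W al δ R T0 M0) (cqs J g b A W al δ R T0 M0) ω m
      (fun k => sg J b (Cnd A W al δ R) k ω) := by
  obtain ⟨m, hm, -, hst, hend⟩ := coarse_end hbg hT0 hM0 h0 h1 h2 h3 h4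
  refine ⟨m, hm, ?_⟩
  have hcb : ∀ k < m, ω ∈ cb J b (Cnd A W al δ R) k := fun k hk => On_b (hst k hk).1
  refine ⟨rfl, fun k hk => sg_lt (hcb k hk), ?_, fun k hk i hi hi' =>
    (between (hcb k hk) hi hi').1, ?_, ?_, ?_, ?_, ?_, hend⟩
  · intro k hk
    cases k with
    | zero => exact hbg 0 h0
    | succ k => exact (hst k (by omega)).2
  · intro k hk i hi hi'
    exact (not_Cnd.1 ((between (hcb k hk) hi.le hi').2 hi)).2.2
  · intro k hk
    exact (ws_eq fun i hi => hst i (hi.trans_le hk)).1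
  · intro k hk
    exact (ws_eq fun i hi => hst i (hi.trans_le hk)).2
  · intro k hk
    unfold cqs qs
    rw [Set.indicator_of_mem (hst k hk)]
    unfold m2 a3 a2 a1 cs
    ring
  · intro k hk
    exact (coarse_small hbg hδ0 hδ1 hsm (hst k hk)).2

end path

end Pool.Agent.H82.Q1.M7
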