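import Mathlib
import Pool.Agent.H96.M7.Harnack

set_option autoImplicit false
open Set Filter Topology Metric

/-! # Harnack inequality in a connected open set -/

namespace Pool.Agent.H82.Q1.M7

/-- **Harnack inequality in a connected open set.** -/
theorem harnack_set {U : Set ℂ} (hU : IsOpen U) (hc : IsPreconnected U) {p q : ℂ} (hp : p ∈ U)
    (hq : q ∈ U) : ∃ c : ℝ, 0 < c ∧ ∀ f : ℂ → ℂ, DifferentiableOn ℂ f U →
      (∀ z ∈ U, 0 < (f z).im) → c * (f p).im ≤ (f q).im := by
  refine hc.induction₂' (fun p q => ∃ c : ℝ, 0 < c ∧ ∀ f : ℂ → ℂ, DifferentiableOn ℂ f U →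
      (∀ z ∈ U, 0 < (f z).im) → c * (f p).im ≤ (f q).im) ?_ ?_ hp hq
  · intro x hx
    obtain ⟨d, hd, hdU⟩ := Metric.isOpen_iff.1 hU x hx
    have h1 : ∀ᶠ y in 𝓝[U] x, dist y x < d / 4 :=
      nhdsWithin_le_nhds (Metric.ball_mem_nhds x (by linarith))
    filter_upwards [h1] with y hy
    have hyx : ‖y - x‖ < d / 4 := by rw [← dist_eq_norm]; exact hy
    refine ⟨⟨1 / 3, by norm_num, fun f hf hm => ?_⟩, ⟨1 / 3, by norm_num, fun f hf hm => ?_⟩⟩
    · have h2 := Pool.Agent.H96.M7.harnack hd (hf.mono hdU) (fun z hz => hm z (hdU hz))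
        (q := y) (by linarith)
      linarith
    · have hsub : ball y (d / 2) ⊆ U := by
        refine subset_trans ?_ hdU
        intro z hz
        rw [mem_ball] at *
        have := dist_triangle z y x
        linarith
      have h2 := Pool.Agent.H96.M7.harnack (half_pos hd) (hf.mono hsub)
        (fun z hz => hm z (hsub hz)) (q := x) (by rw [norm_sub_rev]; linarith)
      linarith
  · rintro x y z - - - ⟨c1, hc1, h1⟩ ⟨c2, hc2, h2⟩
    refine ⟨c2 * c1, by positivity, fun f hf hm => ?_⟩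
    have h3 := h1 f hf hm
    have h4 := h2 f hf hm
    have h5 := mul_le_mul_of_nonneg_left h3 hc2.le
    linarith

end Pool.Agent.H82.Q1.M7
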