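import Mathlib
import Pool.Agent.H82.Q1.M7.HSet
import Pool.Agent.H82.Q1.M7.Init
import Pool.Agent.H83.M7.Inst
import Pool.Agent.H5.M7.BaseS

set_option autoImplicit false
open Set Filter Topology Metric

/-! # J24, first half: lower bound of the scale -/

namespace Pool.Agent.H82.Q1.M7

open Pool.Agent.H81.Q1 (pt DDomain Approx IsJordanDomain IsArcs)
open Pool.Agent.Q1.M3
open Pool.Agent.Q1.M3.Pg (SD)
open Pool.Agent.H82.Q1 (HH cHH IsChart)
open Pool.Agent.H83.Lo (UH Psi)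
open Pool.Agent.H83.M7 (HasPsi psiX AX zX WX tipX psiX_spec uv_ne norm_uv)

variable {D : Set ℂ} {a b : ℂ} {A₁ A₂ : Set ℂ} {A : Approx D a b A₁ A₂} {r0 : ℝ}
  {B : Base A r0} {w : Win B} {d : SD}

lemma mem_GX {z : ℂ} : z ∈ GX B d ↔ (z - w.p) / uv w.k ∈ nGX B w d := by
  have h1 : w.p + uv w.k * ((z - w.p) / uv w.k) = z := by
    rw [mul_div_cancel₀ _ (uv_ne _)]; ring
  unfold nGX
  rw [Set.mem_ofPred_eq, h1]

lemma zX_diff (h : HasPsi B w d) : DifferentiableOn ℂ (zX B w d) (GX B d) := by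
  have h1 := (psiX_spec h).diff
  refine h1.comp (f := fun z => (z - w.p) / uv w.k) ?_ ?_
  · exact (differentiableOn_id.sub_const _).div_const _
  · intro z hz
    exact mem_GX.1 hz

lemma zX_bij (h : HasPsi B w d) : BijOn (zX B w d) (GX B d) UH := by
  have h1 := (psiX_spec h).bij
  have h2 : BijOn (fun z => (z - w.p) / uv w.k) (GX B d) (nGX B w d) := by
    refine ⟨fun z hz => mem_GX.1 hz, fun z _ z' _ hzz => ?_, fun u hu => ?_⟩
    · have h3 : (z - w.p) / uv w.k = (z' - w.p) / uv w.k := hzz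
      rw [div_left_inj' (uv_ne _)] at h3
      exact sub_left_inj.1 h3
    · refine ⟨w.p + uv w.k * u, hu, ?_⟩
      simp only [add_sub_cancel_left]
      exact mul_div_cancel_left₀ _ (uv_ne _)
  exact h1.comp h2

lemma GX_open (h : HasPsi B w d) : IsOpen (GX B d) := by
  have h1 := (psiX_spec h).isOpen
  have h2 : GX B d = (fun z => (z - w.p) / uv w.k) ⁻¹' nGX B w d := by
    ext z
    exact mem_GX
  rw [h2]
  exact h1.preimage (by fun_prop)

/-- the value at height `l / 20` -/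
lemma low_val (h : HasPsi B w d) :
    w.p + uv w.k * ((w.l / 20 : ℝ) * Complex.I) ∈ GX B d ∧
    10 / w.l ≤ (zX B w d (w.p + uv w.k * ((w.l / 20 : ℝ) * Complex.I))).im := by
  have hl := w.l0
  set u : ℂ := ((w.l / 20 : ℝ) : ℂ) * Complex.I with hu
  have hS := psiX_spec h
  have hn : ‖u‖ = w.l / 20 := by
    rw [hu, norm_mul, Complex.norm_I, mul_one, Complex.norm_real, Real.norm_eq_abs,
      abs_of_pos (by positivity)]
  have hb : u ∈ ball (0 : ℂ) w.l := by rw [mem_ball_zero_iff, hn]; linarith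
  have him : u.im = w.l / 20 := by simp [hu]
  have hU : u ∈ UH := by
    change 0 < u.im
    rw [him]; positivity
  constructor
  · have h1 := (hS.box u hb).2 hU
    exact h1
  · have e1 : zX B w d (w.p + uv w.k * u) = psiX B w d u := by
      unfold zX
      rw [add_sub_cancel_left, mul_div_cancel_left₀ _ (uv_ne _)]
    rw [e1, hS.eq u hb hU, Complex.add_im]
    have h2 := hS.bound u hb
    have h3 := (abs_le.1 ((Complex.abs_im_le_norm (AX B w d u)).trans h2)).1
    have h4 : (-u⁻¹).im = 20 / w.l := by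
      have h6 : -u⁻¹ = ((20 / w.l : ℝ) : ℂ) * Complex.I := by
        rw [hu, mul_inv, Complex.inv_I, mul_neg, neg_neg, ← Complex.ofReal_inv, inv_div]
      rw [h6]
      simp
    rw [h4]
    have h5 : 20 / w.l = 10 / w.l + 10 / w.l := by ring
    linarith

/-- the segment of the window -/
lemma seg_up (w : Win B) {t : ℝ} (h0 : 0 < t) (h1 : t ≤ w.l / 2) :
    w.p + (t : ℝ) * Complex.I * uv w.k ∈ D \ Sbar B := by
  have hl := w.l0
  have h := w.up 0 t (by rw [abs_zero]; linarith) h0 (by linarith)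
  have e : gpt B.o w.k1 w.m + (((0 : ℝ) : ℂ) + t * Complex.I) * uv w.k =
      w.p + (t : ℝ) * Complex.I * uv w.k := by
    unfold Win.p
    rw [Complex.ofReal_zero, zero_add]
  rw [e] at h
  exact h

lemma preconn_thickening {s : Set ℂ} (hs : IsPreconnected s) (δ : ℝ) :
    IsPreconnected (thickening δ s) := by
  have h1 : (fun p : ℂ × ℂ => p.1 + p.2) '' (s ×ˢ ball (0 : ℂ) δ) = thickening δ s := by
    ext z
    rw [mem_thickening_iff]
    constructor
    · rintro ⟨⟨x, y⟩, ⟨hx, hy⟩, rfl⟩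
      exact ⟨x, hx, by rw [dist_eq_norm, add_sub_cancel_left]; exact mem_ball_zero_iff.1 hy⟩
    · rintro ⟨x, hx, h2⟩
      refine ⟨(x, z - x), ⟨hx, ?_⟩, by simp⟩
      rw [mem_ball_zero_iff, ← dist_eq_norm]
      exact h2
  rw [← h1]
  exact (hs.prod (convex_ball _ _).isPreconnected).image _ (by fun_prop)

/-- The windows `w` and `w'` differ only in the level of the grid. -/
structure Same (w w' : Win B) : Prop where
  p : w'.p = w.p
  l : w'.l = w.l
  k : w'.k = w.k
  q : w'.q = w.q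
  M0 : w'.M0 = w.M0

/-- **Upper bound of the scale factor.** -/
theorem exists_alpha (hD : IsOpen D) (hb : b ∉ D) (w : Win B) {Γ : Set ℂ}
    (hΓ : IsCompact Γ) (hΓp : IsPreconnected Γ) (hΓD : Γ ⊆ D \ Sbar B) {q : ℂ} (hφ : q ∈ Γ)
    (hw : w.p + (w.l / 2 : ℝ) * Complex.I * uv w.k ∈ Γ) :
    ∃ U : Set ℂ, IsPreconnected U ∧ Γ ⊆ U ∧ ∃ e > 0, (∀ z ∈ U, ball z e ⊆ D \ Sbar B) ∧
      (∀ z ∈ U, ∃ z' ∈ Γ ∪ {z | ∃ t : ℝ, 0 < t ∧ t ≤ w.l / 2 ∧
        z = w.p + (t : ℝ) * Complex.I * uv w.k}, dist z z' < e) ∧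
      ∃ al0 : ℝ, 0 < al0 ∧ ∀ w' : Win B, Same w w' → ∀ d : SD, HasPsi B w' d → U ⊆ GX B d →
        ∀ W : ℝ, ‖zX B w' d q - W‖⁻¹ ≤ al0 := by
  have hl := w.l0
  set S : Set ℂ := (fun t : ℝ => w.p + (t : ℝ) * Complex.I * uv w.k) '' Icc (w.l / 20) (w.l / 2)
    with hS
  have hcont : Continuous (fun t : ℝ => w.p + (t : ℝ) * Complex.I * uv w.k) := by fun_prop
  have hSc : IsCompact S := isCompact_Icc.image hcont
  have hSp : IsPreconnected S := isPreconnected_Icc.image _ hcont.continuousOn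
  set T : Set ℂ := Γ ∪ S with hT
  have hTc : IsCompact T := hΓ.union hSc
  have hTp : IsPreconnected T :=
    hΓp.union _ hw ⟨w.l / 2, ⟨by linarith, le_rfl⟩, rfl⟩ hSp
  have hopen : IsOpen (D \ Sbar B) := by
    have h1 : D \ Sbar B = D ∩ (insert b (Pool.Agent.H5.M7.SS B))ᶜ := by
      ext z
      simp only [mem_diff, mem_inter_iff, mem_compl_iff, mem_insert_iff, not_or]
      constructor
      · rintro ⟨h1, h2⟩
        exact ⟨h1, fun h3 => hb (h3 ▸ h1), h2⟩
      · rintro ⟨h1, -, h2⟩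
        exact ⟨h1, h2⟩
    rw [h1]
    exact hD.inter (Pool.Agent.H5.M7.SS_compact B).isClosed.isOpen_compl
  have hTD : T ⊆ D \ Sbar B := by
    rintro z (hz | ⟨t, ht, rfl⟩)
    · exact hΓD hz
    · exact seg_up w (by linarith [ht.1]) ht.2
  obtain ⟨e1, he1, hth⟩ := hTc.exists_thickening_subset_open hopen hTD
  set e : ℝ := e1 / 2 with he
  have he0 : 0 < e := by positivity
  set U : Set ℂ := thickening e T with hU
  have hUo : IsOpen U := isOpen_thickening
  have hUp : IsPreconnected U := preconn_thickening hTp e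
  have hTU : T ⊆ U := self_subset_thickening he0 T
  set q0 : ℂ := w.p + uv w.k * ((w.l / 20 : ℝ) * Complex.I) with hq0
  have hq0T : q0 ∈ T := Or.inr ⟨w.l / 20, ⟨le_rfl, by linarith⟩, by rw [hq0]; ring⟩
  obtain ⟨c, hc, hH⟩ := harnack_set hUo hUp (hTU hq0T) (hTU (Or.inl hφ))
  refine ⟨U, hUp, subset_union_left.trans hTU, e, he0, ?_, ?_, (c * (10 / w.l))⁻¹, by positivity,
    ?_⟩
  · intro z hz x hx
    obtain ⟨y, hy, hzy⟩ := mem_thickening_iff.1 hz
    refine hth (mem_thickening_iff.2 ⟨y, hy, ?_⟩)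
    have h1 := dist_triangle x z y
    have h2 := mem_ball.1 hx
    rw [he] at h2 hzy
    linarith
  · intro z hz
    obtain ⟨y, hy, hzy⟩ := mem_thickening_iff.1 hz
    refine ⟨y, ?_, hzy⟩
    rcases hy with hy | ⟨t, ht, rfl⟩
    · exact Or.inl hy
    · exact Or.inr ⟨t, by linarith [ht.1], ht.2, rfl⟩
  · intro w' hw' d hd hUd W
    have h1 := hH (zX B w' d) ((zX_diff hd).mono hUd) (fun z hz => (zX_bij hd).mapsTo (hUd hz))
    have h2 := (low_val hd).2
    rw [hw'.p, hw'.l, hw'.k, ← hq0] at h2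
    have h3 : c * (10 / w.l) ≤ (zX B w' d q).im :=
      (mul_le_mul_of_nonneg_left h2 hc.le).trans h1
    have h4 : (zX B w' d q).im ≤ ‖zX B w' d q - W‖ := by
      have h5 := Complex.abs_im_le_norm (zX B w' d q - W)
      rw [Complex.sub_im, Complex.ofReal_im, sub_zero] at h5
      exact (le_abs_self _).trans h5
    exact inv_anti₀ (by positivity) (h3.trans h4)

end Pool.Agent.H82.Q1.M7
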