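import Mathlib
import Pool.Agent.H82.Q1.M7.Alpha

set_option autoImplicit false
open Set Filter Topology Metric

/-! # J24, first half: the deterministic facts for fixed parameters -/

namespace Pool.Agent.H82.Q1.M7

open Pool.Agent.H75.Perc Pool.Agent.H75.TwoArm Pool.Agent.H75.Four Pool.Agent.H69.Q1
open Pool.Agent.H81.Q1 (pt DDomain Approx IsJordanDomain IsArcs)
open Pool.Agent.Q1.M3
open Pool.Agent.Q1.M3.Pg (SD)
open Pool.Agent.H82.Q1 (HH cHH IsChart)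
open Pool.Agent.H83.Lo (UH Psi)
open Pool.Agent.H11.M7 (gp)
open Pool.Agent.H83.M7 (HasPsi psiX AX zX WX tipX psiX_spec uv_ne norm_uv)
open Pool.Agent.H5.M7 (chart_mem chart_b chart_a cont_ray chart_ab)

variable {D : Set ℂ} {a b : ℂ} {A₁ A₂ : Set ℂ} {A : Approx D a b A₁ A₂} {r0 : ℝ}
  {φ : ℂ → ℂ}

/-- The facts for fixed parameters. -/
structure Facts (φ : ℂ → ℂ) (ε κ Y r1 ρ1 al0 : ℝ) (B : Base A r0) (w : Win B) (P : Par B)
    (k0 K n : ℕ) (ρ : ℝ) : Prop where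
  geo : ∀ ω, ω ⊆ (X0 A n).E → ∀ j, Adm w n ρ k0 (j + 1) ω → GeoAt B w P k0 K n ρ ω j
  vis : ∀ ω, ω ⊆ (X0 A n).E → ∀ j, Adm w n ρ k0 (j + 1) ω →
    (∀ t ≤ B.T k0 n (j + 1) ω, r1 ≤ dist (gp A n ω t) b) →
    ∀ (y : ℝ) (Q : Set ℂ), 0 < y → y ≤ Y → IsPreconnected Q → φ (y * Complex.I) ∈ Q →
    (∀ z ∈ Q, ball z κ ⊆ D ∧ κ ≤ dist z b) →
    (∀ u ≤ B.T k0 n (j + 1) ω, (∀ z ∈ Q, κ ≤ dist (gp A n ω u) z) ∧
      ∀ s : ℝ, y ≤ s → κ ≤ dist (gp A n ω u) (φ (s * Complex.I))) →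
    Q ⊆ GX B (SDj B P k0 K n j ω)
  al : ∀ ω, ω ⊆ (X0 A n).E → Adm w n ρ k0 1 ω →
    (∀ t ≤ B.T k0 n 1 ω, dist (gp A n ω t) a < ρ1) →
    ‖zX B w (SDj B P k0 K n 0 ω) (φ Complex.I) - WX B w (SDj B P k0 K n 0 ω)‖⁻¹ ≤ al0
  init : ∀ ω, ω ⊆ (X0 A n).E → Adm w n ρ k0 1 ω →
    (∀ t ≤ B.T k0 n 1 ω, dist (gp A n ω t) a < ρ1) →
    ∀ z : ℂ, ε ≤ z.im → ‖z‖ ≤ ε⁻¹ → φ z ∈ GX B (SDj B P k0 K n 0 ω) ∧
      ‖((‖zX B w (SDj B P k0 K n 0 ω) (φ Complex.I) - WX B w (SDj B P k0 K n 0 ω)‖⁻¹ : ℝ) : ℂ) *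
        (zX B w (SDj B P k0 K n 0 ω) (φ z) - WX B w (SDj B P k0 K n 0 ω)) - z‖ ≤ ε

lemma exists_min (f : ℕ → ℝ) (hf : ∀ i, 0 < f i) (m : ℕ) : ∃ c > 0, ∀ i ≤ m, c ≤ f i := by
  induction m with
  | zero => exact ⟨f 0, hf 0, fun i hi => by rw [Nat.le_zero.1 hi]⟩
  | succ m ih =>
    obtain ⟨c, hc, h⟩ := ih
    refine ⟨min c (f (m + 1)), lt_min hc (hf _), fun i hi => ?_⟩
    rcases Nat.lt_or_ge i (m + 1) with h1 | h1
    · exact (min_le_left _ _).trans (h i (by omega))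
    · rw [show i = m + 1 by omega]; exact min_le_right _ _

lemma exists_maxN (f : ℕ → ℕ) (m : ℕ) : ∃ c, ∀ i ≤ m, f i ≤ c :=
  ⟨(Finset.range (m + 1)).sup f, fun i hi =>
    Finset.le_sup (f := f) (Finset.mem_range.2 (by omega))⟩

lemma exists_maxR (f : ℕ → ℝ) (m : ℕ) : ∃ c, ∀ i ≤ m, f i ≤ c := by
  induction m with
  | zero => exact ⟨f 0, fun i hi => by rw [Nat.le_zero.1 hi]⟩
  | succ m ih =>
    obtain ⟨c, h⟩ := ih
    refine ⟨max c (f (m + 1)), fun i hi => ?_⟩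
    rcases Nat.lt_or_ge i (m + 1) with h1 | h1
    · exact (h i (by omega)).trans (le_max_left _ _)
    · rw [show i = m + 1 by omega]; exact le_max_right _ _

lemma eventually_le {m : ℕ} {p : ℕ → ℕ → Prop} (h : ∀ i ≤ m, ∀ᶠ n in atTop, p i n) :
    ∀ᶠ n in atTop, ∀ i ≤ m, p i n := by
  have h1 : ∀ᶠ n in atTop, ∀ i ∈ Finset.range (m + 1), p i n :=
    (Finset.eventually_all _).2 fun i hi => h i (by
      have := Finset.mem_range.1 hi; omega)
  filter_upwards [h1] with n hn i hi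
  exact hn i (Finset.mem_range.2 (by omega))

/-- the ray -/
lemma ray_compact (h : IsChart D a b φ) {s0 Y : ℝ} (hs0 : 0 ≤ s0) :
    IsCompact ((fun s : ℝ => φ (s * Complex.I)) '' Icc s0 Y) ∧
    IsPreconnected ((fun s : ℝ => φ (s * Complex.I)) '' Icc s0 Y) := by
  have hcont : ContinuousOn (fun s : ℝ => φ (s * Complex.I)) (Icc s0 Y) :=
    (cont_ray h (z := Complex.I) (by simp)).mono fun s hs => hs0.trans hs.1
  exact ⟨isCompact_Icc.image_of_continuousOn hcont, isPreconnected_Icc.image _ hcont⟩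

lemma im_mul_I (s : ℝ) : ((s : ℂ) * Complex.I).im = s := by simp

lemma norm_mul_I {s : ℝ} (hs : 0 ≤ s) : ‖(s : ℂ) * Complex.I‖ = s := by
  rw [norm_mul, Complex.norm_I, mul_one, Complex.norm_real, Real.norm_eq_abs, abs_of_nonneg hs]

/-- margins of a compact part of `D` -/
lemma margin (h : IsChart D a b φ) (hD : IsOpen D) {K : Set ℂ} (hK : IsCompact K) (hKD : K ⊆ D) :
    ∃ c > 0, ∀ z ∈ K, ball z c ⊆ D ∧ c ≤ dist z b ∧ 2 * c ≤ dist z a := by
  obtain ⟨c, hc, hth⟩ := hK.exists_thickening_subset_open hD hKD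
  have hball : ∀ z ∈ K, ball z c ⊆ D := fun z hz x hx =>
    hth (mem_thickening_iff.2 ⟨z, hz, hx⟩)
  refine ⟨c / 2, by linarith, fun z hz => ⟨?_, ?_, ?_⟩⟩
  · exact (ball_subset_ball (by linarith)).trans (hball z hz)
  · by_contra hcon
    push Not at hcon
    exact chart_b h (hball z hz (by rw [mem_ball, dist_comm]; linarith))
  · by_contra hcon
    push Not at hcon
    exact chart_a h (hball z hz (by rw [mem_ball, dist_comm]; linarith))

section unb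

variable {B : Base A r0} {w : Win B} {d : SD}

/-- the map is unbounded near `b''` -/
lemma unbounded_near (hp : HasPsi B w d) {S : Set ℂ}
    (hS : ∀ t : ℝ, 0 < t → t ≤ w.l / 2 → w.p + (t : ℝ) * Complex.I * uv w.k ∈ S) :
    ¬ Bornology.IsBounded (zX B w d '' S) := by
  intro hb
  have hl := w.l0
  obtain ⟨R, hR⟩ := hb.exists_norm_le
  set t : ℝ := min (w.l / 2) (1 / (|R| + 10 / w.l + 1)) with ht
  have hden : 0 < |R| + 10 / w.l + 1 := by positivity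
  have ht0 : 0 < t := lt_min (by linarith) (by positivity)
  have ht1 : t ≤ w.l / 2 := min_le_left _ _
  have ht2 : t ≤ 1 / (|R| + 10 / w.l + 1) := min_le_right _ _
  have h1 := hR _ ⟨_, hS t ht0 ht1, rfl⟩
  set u : ℂ := (t : ℂ) * Complex.I with hu
  have hn : ‖u‖ = t := norm_mul_I ht0.le
  have hub : u ∈ ball (0 : ℂ) w.l := by rw [mem_ball_zero_iff, hn]; linarith
  have hU : u ∈ UH := by
    change 0 < u.im
    rw [hu, im_mul_I]; exact ht0
  have hSp := psiX_spec hp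
  have e1 : zX B w d (w.p + (t : ℝ) * Complex.I * uv w.k) = psiX B w d u := by
    unfold zX
    rw [add_sub_cancel_left, mul_div_cancel_right₀ _ (uv_ne _)]
  rw [e1, hSp.eq u hub hU] at h1
  have h2 := hSp.bound u hub
  have h3 : ‖-u⁻¹‖ = t⁻¹ := by rw [norm_neg, norm_inv, hn]
  have h4 : t⁻¹ ≤ ‖-u⁻¹ + AX B w d u‖ + ‖AX B w d u‖ := by
    rw [← h3]
    have := norm_sub_le (-u⁻¹ + AX B w d u) (AX B w d u)
    rwa [add_sub_cancel_right] at this
  have h5 : |R| + 10 / w.l + 1 ≤ t⁻¹ := by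
    have := inv_anti₀ ht0 ht2
    rwa [one_div, inv_inv] at this
  have h6 := le_abs_self R
  linarith

end unb

/-- **The deterministic facts.** -/
theorem exists_facts (hJ : IsJordanDomain D) (hA : IsArcs D a b A₁ A₂) (h : IsChart D a b φ)
    (A : Approx D a b A₁ A₂) (hKC : StKC D a b φ) (hNB : StNB A) (hWin : StWin φ A)
    (hGeo : ∀ r0 > 0, ∀ (B : Base A r0) (w : Win B), StGeo B w)
    (hVis : ∀ r0 > 0, ∀ (B : Base A r0) (w : Win B), StVis B w)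
    (hTip : ∀ r0 > 0, ∀ (B : Base A r0) (w : Win B), StTip φ B w) {ε r1 : ℝ} (hε : 0 < ε)
    (hr1 : 0 < r1) (hr1' : r1 ≤ dist a b / 4) :
    ∃ κ Y : ℝ, 0 < κ ∧ κ ≤ ε ∧ ε⁻¹ ≤ Y ∧ ∃ r0 : ℝ, 0 < r0 ∧ r0 ≤ r1 / 2 ∧
      ∃ (B : Base A r0) (w : Win B) (al0 : ℝ), w.Side ∧ 4 * w.l ≤ r1 ∧ 0 < al0 ∧
      ∀ w' : Win B, Same w w' → ∃ ρ1 > 0, ρ1 ≤ ε ∧
      ∀ k0, B.qb.1 ≤ k0 → w'.q.1 ≤ k0 → ∀ ρ > 0, ∃ r > 0, ∀ P : Par B,
        cfat B.o P.BB ⊆ ball b r → w'.M0 ≤ P.M →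
        ∃ K1, ∀ K, K1 ≤ K → ∀ᶠ n in atTop, Facts φ ε κ Y r1 ρ1 al0 B w' P k0 K n ρ := by
  have hab : a ≠ b := chart_ab h
  have hdab : 0 < dist a b := dist_pos.2 hab
  have hD : IsOpen D := hJ.1
  obtain ⟨m, hm⟩ := exists_cond h hKC hε
  have hlow : ∀ i, 0 < lo h i ∧ ∀ z : ℂ, 0 < z.im → ‖z‖ ≤ lo h i →
      φ z ∈ ball a (1 / ((i : ℝ) + 1)) := fun i => (exists_low h i).choose_spec
  have hhigh : ∀ i, 0 < hi h i ∧ ∀ z : ℂ, 0 < z.im → hi h i ≤ ‖z‖ →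
      φ z ∈ ball b (1 / ((i : ℝ) + 1)) := fun i => (exists_high h i).choose_spec
  obtain ⟨Yh, hYh⟩ := exists_maxR (hi h) m
  obtain ⟨Yl, hYl⟩ := exists_maxR (lo h) m
  obtain ⟨s0, hs0, hs0'⟩ := exists_min (hi h) (fun i => (hhigh i).1) m
  -- radii
  set rP : ℝ := min (r1 / 2) (1 / ((m : ℝ) + 1)) with hrP
  have hrP0 : 0 < rP := lt_min (by linarith) (by positivity)
  obtain ⟨Y, hY0, hY1, hYb, r0', hr0', hr0P, hYr0⟩ :=
    exists_radii h (max (max ε⁻¹ 1) (max Yh Yl)) hrP0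
  have hYε : ε⁻¹ ≤ Y := (le_max_left _ _).trans ((le_max_left _ _).trans hY1)
  have hY11 : 1 ≤ Y := (le_max_right _ _).trans ((le_max_left _ _).trans hY1)
  have hYhi : ∀ i ≤ m, hi h i ≤ Y := fun i hi' =>
    (hYh i hi').trans ((le_max_left _ _).trans ((le_max_right _ _).trans hY1))
  have hYlo : ∀ i ≤ m, lo h i ≤ Y := fun i hi' =>
    (hYl i hi').trans ((le_max_right _ _).trans ((le_max_right _ _).trans hY1))
  -- margins
  set Km : Set ℂ := φ '' {z | 1 / ((m : ℝ) + 1) ≤ z.im ∧ ‖z‖ ≤ m + 1} with hKm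
  have hKmpre : IsCompact {z : ℂ | 1 / ((m : ℝ) + 1) ≤ z.im ∧ ‖z‖ ≤ m + 1} ∧
      IsPreconnected {z : ℂ | 1 / ((m : ℝ) + 1) ≤ z.im ∧ ‖z‖ ≤ m + 1} := by
    have h1 : {z : ℂ | 1 / ((m : ℝ) + 1) ≤ z.im ∧ ‖z‖ ≤ m + 1} =
        closedBall (0 : ℂ) (m + 1) ∩ {z | 1 / ((m : ℝ) + 1) ≤ z.im} := by
      ext z
      simp only [mem_ofPred_eq, mem_inter_iff, mem_closedBall, dist_zero_right]
      tauto
    rw [h1]
    constructor
    · exact (isCompact_closedBall _ _).inter_right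
        (isClosed_le continuous_const Complex.continuous_im)
    · refine ((convex_closedBall _ _).inter ?_).isPreconnected
      exact convex_halfSpace_im_ge _
  have hKmc : IsCompact Km := hKmpre.1.image_of_continuousOn (h.cont.mono fun z hz => by
    have : (0 : ℝ) < 1 / ((m : ℝ) + 1) := by positivity
    exact (this.le.trans hz.1 : (0 : ℝ) ≤ z.im))
  have hKmp : IsPreconnected Km := hKmpre.2.image _ (h.cont.mono fun z hz => by
    have : (0 : ℝ) < 1 / ((m : ℝ) + 1) := by positivity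
    exact (this.le.trans hz.1 : (0 : ℝ) ≤ z.im))
  have hKmD : Km ⊆ D := by
    rintro _ ⟨z, hz, rfl⟩
    have : (0 : ℝ) < 1 / ((m : ℝ) + 1) := by positivity
    exact chart_mem h (this.trans_le hz.1)
  set s1 : ℝ := min s0 1 with hs1
  have hs10 : 0 < s1 := lt_min hs0 one_pos
  set Ra : Set ℂ := (fun s : ℝ => φ (s * Complex.I)) '' Icc s1 Y with hRa
  obtain ⟨hRac, -⟩ := ray_compact h (s0 := s1) (Y := Y) hs10.le
  have hRaD : Ra ⊆ D := by
    rintro _ ⟨s, hs, rfl⟩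
    exact chart_mem h (by rw [im_mul_I]; exact hs10.trans_le hs.1)
  obtain ⟨c1, hc1, hm1⟩ := margin h hD hKmc hKmD
  obtain ⟨c2, hc2, hm2⟩ := margin h hD hRac hRaD
  set κ : ℝ := min (min ε (dist a b / 8)) (min c1 c2) with hκ
  have hκ0 : 0 < κ := lt_min (lt_min hε (by linarith)) (lt_min hc1 hc2)
  have hκε : κ ≤ ε := (min_le_left _ _).trans (min_le_left _ _)
  have hκab : κ ≤ dist a b / 8 := (min_le_left _ _).trans (min_le_right _ _)
  have hκ1 : κ ≤ c1 := (min_le_right _ _).trans (min_le_left _ _)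
  have hκ2 : κ ≤ c2 := (min_le_right _ _).trans (min_le_right _ _)
  -- rays are far from `a`
  have hfar : ∀ s : ℝ, s1 ≤ s → 2 * κ ≤ dist (φ (s * Complex.I)) a := by
    intro s hs
    rcases le_or_gt s Y with h1 | h1
    · have := (hm2 _ ⟨s, ⟨hs, h1⟩, rfl⟩).2.2
      linarith
    · have hs' : 0 < s := hs10.trans_le hs
      have h2 := mem_ball.1 (hYb (s * Complex.I) (by rw [im_mul_I]; exact hs')
        (by rw [norm_mul_I hs'.le]; exact h1.le))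
      have h3 := dist_triangle_left a b (φ (s * Complex.I))
      have h4 : rP ≤ r1 / 2 := min_le_left _ _
      linarith
  -- barrier
  set r0 : ℝ := min r0' (κ / 2) with hr0d
  have hr0 : 0 < r0 := lt_min hr0' (by linarith)
  have hr0κ : 2 * r0 ≤ κ := by
    have : r0 ≤ κ / 2 := min_le_right _ _
    linarith
  have hr0r : r0 ≤ r0' := min_le_left _ _
  have hYr : ∀ z : ℂ, 0 ≤ z.im → ‖z‖ ≤ Y → φ z ∉ ball b (2 * r0) := fun z hz hzY hb =>
    hYr0 z hz hzY (ball_subset_ball (by linarith) hb)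
  obtain ⟨B⟩ := hNB r0 hr0
  obtain ⟨w, hwl, hEnd, hSide⟩ := hWin hJ hab hA h r0 hr0 B (r1 / 4) (by linarith)
  obtain ⟨Pi, hPc, hPp, hPs, hPY, hPw⟩ := hEnd rP hrP0 Y hY0 hYb
    (fun z hz hzY hb => hYr z hz.le hzY (ball_subset_ball (by linarith) hb))
  -- the set for the scale
  set Γ : Set ℂ := Pi ∪ (fun s : ℝ => φ (s * Complex.I)) '' Icc 1 Y with hΓ
  obtain ⟨hRc, hRp⟩ := ray_compact h (s0 := 1) (Y := Y) zero_le_one
  have hΓc : IsCompact Γ := hPc.union hRc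
  have hΓp : IsPreconnected Γ := hPp.union _ hPY ⟨Y, ⟨hY11, le_rfl⟩, rfl⟩ hRp
  have hSb : Sbar B ⊆ ball b r0 := by
    intro z hz
    exact ((Pool.Agent.H5.M7.SS_sub B) (show z ∈ Pool.Agent.H5.M7.SS B from hz)).2
  have hΓD : Γ ⊆ D \ Sbar B := by
    rintro z (hz | ⟨s, hs, rfl⟩)
    · exact (hPs hz).1
    · have hs' : (0 : ℝ) < s := one_pos.trans_le hs.1
      refine ⟨chart_mem h (by rw [im_mul_I]; exact hs'), fun hS => ?_⟩
      refine hYr (s * Complex.I) (by rw [im_mul_I]; exact hs'.le)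
        (by rw [norm_mul_I hs'.le]; exact hs.2) ?_
      exact ball_subset_ball (by linarith) (hSb hS)
  have hΓI : φ Complex.I ∈ Γ := Or.inr ⟨1, ⟨le_rfl, hY11⟩, by simp⟩
  obtain ⟨U, hUp, hΓU, e, he, hUe, -, al0, hal0, hal⟩ :=
    exists_alpha hD (chart_b h) w hΓc hΓp hΓD hΓI (Or.inl hPw)
  obtain ⟨ev, hev, hevκ, hvs⟩ := vis_sets h hD hκ0 hr0 hr0κ hYr hSb
  refine ⟨κ, Y, hκ0, hκε, hYε, r0, hr0, ?_, B, w, al0, hSide, by linarith, hal0, ?_⟩
  · have : rP ≤ r1 / 2 := min_le_left _ _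
    linarith
  intro w' hw'
  have hPw' : w'.p + (w'.l / 2 : ℝ) * Complex.I * uv w'.k ∈ Pi := by
    rw [hw'.p, hw'.l, hw'.k]; exact hPw
  have hSide' : w'.Side := by
    unfold Win.Side
    rw [hw'.p, hw'.l, hw'.k]; exact hSide
  -- tips
  have htip := fun i : ℕ => fun hi' : i ≤ m => hTip r0 hr0 B w' hJ hab hA hSide' h
    (1 / ((i : ℝ) + 1)) (by positivity) (lo h i) (hlow i).1 (fun z hz hze =>
      ⟨(hlow i).2 z hz hze, fun hb => hYr z hz.le (hze.trans (hYlo i hi'))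
        (ball_subset_ball (by linarith) hb)⟩)
  have htip' : ∀ i : ℕ, ∃ ρ1 > 0, i ≤ m → ∀ k0, B.qb.1 ≤ k0 → w'.q.1 ≤ k0 → ∀ ρ > 0,
      ∃ r' > 0, ∀ P : Par B, cfat B.o P.BB ⊆ Metric.ball b r' → w'.M0 ≤ P.M →
      ∃ K1, ∀ K, K1 ≤ K → ∀ᶠ n in atTop, ∀ ω, ω ⊆ (X0 A n).E → Adm w' n ρ k0 1 ω →
      (∀ t, t ≤ B.T k0 n 1 ω → dist (pt (A.δ n) (vx ((X0 A n).cor ω t))) a < ρ1) →
      ∃ Pc : Set ℂ, Pc ⊆ GX B (SDj B P k0 K n 0 ω) ∩ Metric.ball a (1 / ((i : ℝ) + 1)) ∧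
        IsPreconnected Pc ∧ φ (lo h i * Complex.I) ∈ Pc ∧
        gpt B.o K (Pool.Agent.Q1.M4.tail (SDj B P k0 K n 0 ω).s) ∈ closure Pc := by
    intro i
    by_cases hi' : i ≤ m
    · obtain ⟨ρ1, h1, h2⟩ := htip i hi'
      exact ⟨ρ1, h1, fun _ => h2⟩
    · exact ⟨1, one_pos, fun h1 => absurd h1 hi'⟩
  choose ρt hρt htip2 using htip'
  obtain ⟨ρ2, hρ2, hρ2'⟩ := exists_min ρt hρt m
  set ρ1 : ℝ := min ρ2 (min κ (e / 2)) with hρ1
  have hρ10 : 0 < ρ1 := lt_min hρ2 (lt_min hκ0 (by linarith))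
  have hρ1t : ∀ i ≤ m, ρ1 ≤ ρt i := fun i hi' => (min_le_left _ _).trans (hρ2' i hi')
  have hρ1κ : ρ1 ≤ κ := (min_le_right _ _).trans (min_le_left _ _)
  have hρ1e : ρ1 ≤ e / 2 := (min_le_right _ _).trans (min_le_right _ _)
  refine ⟨ρ1, hρ10, hρ1κ.trans hκε, ?_⟩
  intro k0 hk0 hwk ρ hρ
  set e2 : ℝ := min (min ev (e / 2)) (r1 / 2) with he2
  have he20 : 0 < e2 := lt_min (lt_min hev (by linarith)) (by linarith)
  obtain ⟨ra, hra, hgeo⟩ := hGeo r0 hr0 B w' hJ hab hA hSide' k0 hk0 hwk ρ hρ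
  obtain ⟨rb, hrb, hvis⟩ := hVis r0 hr0 B w' hJ hab hA hSide' k0 hk0 hwk ρ hρ e2 he20 Pi hPc hPp
    (fun z hz => (hPs hz).1) hPw'
  have htip3 : ∀ i : ℕ, ∃ r' > 0, i ≤ m → ∀ P : Par B, cfat B.o P.BB ⊆ Metric.ball b r' →
      w'.M0 ≤ P.M →
      ∃ K1, ∀ K, K1 ≤ K → ∀ᶠ n in atTop, ∀ ω, ω ⊆ (X0 A n).E → Adm w' n ρ k0 1 ω →
      (∀ t, t ≤ B.T k0 n 1 ω → dist (pt (A.δ n) (vx ((X0 A n).cor ω t))) a < ρt i) →
      ∃ Pc : Set ℂ, Pc ⊆ GX B (SDj B P k0 K n 0 ω) ∩ Metric.ball a (1 / ((i : ℝ) + 1)) ∧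
        IsPreconnected Pc ∧ φ (lo h i * Complex.I) ∈ Pc ∧
        gpt B.o K (Pool.Agent.Q1.M4.tail (SDj B P k0 K n 0 ω).s) ∈ closure Pc := by
    intro i
    by_cases hi' : i ≤ m
    · obtain ⟨r', h1, h2⟩ := htip2 i hi' k0 hk0 hwk ρ hρ
      exact ⟨r', h1, fun _ => h2⟩
    · exact ⟨1, one_pos, fun h1 => absurd h1 hi'⟩
  choose rt hrt htip4 using htip3
  obtain ⟨rc, hrc, hrc'⟩ := exists_min rt hrt m
  refine ⟨min (min ra rb) rc, lt_min (lt_min hra hrb) hrc, fun P hP hM => ?_⟩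
  obtain ⟨Ka, hKa⟩ := hgeo P (hP.trans (ball_subset_ball
    ((min_le_left _ _).trans (min_le_left _ _)))) hM
  obtain ⟨Kb, hKb⟩ := hvis P (hP.trans (ball_subset_ball
    ((min_le_left _ _).trans (min_le_right _ _)))) hM
  have htip5 : ∀ i : ℕ, ∃ K1, i ≤ m → ∀ K, K1 ≤ K → ∀ᶠ n in atTop, ∀ ω, ω ⊆ (X0 A n).E →
      Adm w' n ρ k0 1 ω →
      (∀ t, t ≤ B.T k0 n 1 ω → dist (pt (A.δ n) (vx ((X0 A n).cor ω t))) a < ρt i) →
      ∃ Pc : Set ℂ, Pc ⊆ GX B (SDj B P k0 K n 0 ω) ∩ Metric.ball a (1 / ((i : ℝ) + 1)) ∧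
        IsPreconnected Pc ∧ φ (lo h i * Complex.I) ∈ Pc ∧
        gpt B.o K (Pool.Agent.Q1.M4.tail (SDj B P k0 K n 0 ω).s) ∈ closure Pc := by
    intro i
    by_cases hi' : i ≤ m
    · obtain ⟨K1, h1⟩ := htip4 i hi' P (hP.trans (ball_subset_ball
        ((min_le_right _ _).trans (hrc' i hi')))) hM
      exact ⟨K1, fun _ => h1⟩
    · exact ⟨0, fun h1 => absurd h1 hi'⟩
  choose Kt hKt using htip5
  obtain ⟨Kc, hKc⟩ := exists_maxN Kt m
  refine ⟨max (max Ka Kb) (max Kc w'.k1), fun K hK => ?_⟩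
  have hKa' : Ka ≤ K := (le_max_left _ _).trans ((le_max_left _ _).trans hK)
  have hKb' : Kb ≤ K := (le_max_right _ _).trans ((le_max_left _ _).trans hK)
  have hKc' : Kc ≤ K := (le_max_left _ _).trans ((le_max_right _ _).trans hK)
  have hKw : w'.k1 ≤ K := (le_max_right _ _).trans ((le_max_right _ _).trans hK)
  have hev3 := eventually_le (m := m) (fun i hi' => hKt i hi' K ((hKc i hi').trans hKc'))
  filter_upwards [hKa K hKa', hKb K hKb', hev3] with n hn1 hn2 hn3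
  -- visibility
  have hvisn : ∀ ω, ω ⊆ (X0 A n).E → ∀ j, Adm w' n ρ k0 (j + 1) ω →
      (∀ t ≤ B.T k0 n (j + 1) ω, r1 ≤ dist (gp A n ω t) b) →
      ∀ Q : Set ℂ, IsPreconnected Q → (Q ∩ Pi).Nonempty →
      (∀ z ∈ Q, ball z e2 ⊆ D \ Sbar B ∧
        ∀ t, t ≤ B.T k0 n (j + 1) ω → e2 ≤ dist (gp A n ω t) z) →
      Pi ∪ Q ⊆ GX B (SDj B P k0 K n j ω) := by
    intro ω hω j hadm hfb Q hQ hQP hQ2
    refine hn2 ω hω j hadm ?_ Q hQ hQP hQ2
    intro t ht z hz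
    have h1 := hfb t ht
    have h2 := mem_ball.1 (hPs hz).2
    have h3 : rP ≤ r1 / 2 := min_le_left _ _
    have h4 : e2 ≤ r1 / 2 := min_le_right _ _
    have h5 := dist_triangle (gp A n ω t) z b
    change e2 ≤ dist (gp A n ω t) z
    linarith
  have hvisκ : ∀ ω, ω ⊆ (X0 A n).E → ∀ j, Adm w' n ρ k0 (j + 1) ω →
      (∀ t ≤ B.T k0 n (j + 1) ω, r1 ≤ dist (gp A n ω t) b) →
      ∀ (y : ℝ) (Q : Set ℂ), 0 < y → y ≤ Y → IsPreconnected Q → φ (y * Complex.I) ∈ Q →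
      (∀ z ∈ Q, ball z κ ⊆ D ∧ κ ≤ dist z b) →
      (∀ u ≤ B.T k0 n (j + 1) ω, (∀ z ∈ Q, κ ≤ dist (gp A n ω u) z) ∧
        ∀ s : ℝ, y ≤ s → κ ≤ dist (gp A n ω u) (φ (s * Complex.I))) →
      Pi ∪ Q ⊆ GX B (SDj B P k0 K n j ω) := by
    intro ω hω j hadm hfb y Q hy hyY hQ hyQ hQ1 hQ2
    obtain ⟨Q', hQQ', hQ'p, hQ'Y, hQ'D, hQ'e⟩ := hvs y Q hy hyY hQ hyQ hQ1
    have h1 := hvisn ω hω j hadm hfb Q' hQ'p ⟨_, hQ'Y, hPY⟩ (fun z hz => ⟨?_, fun t ht => ?_⟩)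
    · exact (union_subset_union_right _ hQQ').trans h1
    · exact (ball_subset_ball ((min_le_left _ _).trans (min_le_left _ _))).trans (hQ'D z hz)
    · exact ((min_le_left _ _).trans (min_le_left _ _)).trans
        (hQ'e (gp A n ω t) (hQ2 t ht).1 (hQ2 t ht).2 z hz)
  -- the first step
  have hfirst : ∀ ω, (∀ t ≤ B.T k0 n 1 ω, dist (gp A n ω t) a < ρ1) →
      ∀ t ≤ B.T k0 n 1 ω, r1 ≤ dist (gp A n ω t) b := by
    intro ω h1 t ht
    have h2 := h1 t ht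
    have h3 := dist_triangle_left a b (gp A n ω t)
    linarith
  refine ⟨hn1, fun ω hω j hadm hfb y Q hy hyY hQ hyQ hQ1 hQ2 =>
    subset_union_right.trans (hvisκ ω hω j hadm hfb y Q hy hyY hQ hyQ hQ1 hQ2), ?_, ?_⟩
  · intro ω hω hadm hfa
    obtain ⟨nb, hb⟩ := (hn1 ω hω 0 hadm).nb
    have hp : HasPsi B w' (SDj B P k0 K n 0 ω) :=
      Pool.Agent.H83.M7.hasPsi hb hKw (hn1 ω hω 0 hadm).box
    refine hal w' hw' _ hp (subset_union_right.trans (hvisn ω hω 0 hadm (hfirst ω hfa) U hUp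
      ⟨_, hΓU (Or.inl hPY), hPY⟩ (fun z hz => ⟨?_, fun t ht => ?_⟩))) _
    · exact (ball_subset_ball (((min_le_left _ _).trans (min_le_right _ _)).trans
        (by linarith))).trans (hUe z hz)
    · have h1 : e ≤ dist z a := by
        by_contra hcon
        push Not at hcon
        exact chart_a h ((hUe z hz) (show a ∈ ball z e by
          rw [mem_ball, dist_comm]; exact hcon)).1
      have h2 := hfa t ht
      have h3 := dist_triangle_right z a (gp A n ω t)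
      have h4 : e2 ≤ e / 2 := (min_le_left _ _).trans (min_le_right _ _)
      rw [dist_comm z (gp A n ω t), dist_comm a (gp A n ω t)] at h3
      linarith
  · intro ω hω hadm hfa
    obtain ⟨nb, hb⟩ := (hn1 ω hω 0 hadm).nb
    have hG := hn1 ω hω 0 hadm
    have hp : HasPsi B w' (SDj B P k0 K n 0 ω) :=
      Pool.Agent.H83.M7.hasPsi hb hKw hG.box
    set d := SDj B P k0 K n 0 ω with hd
    refine hm (GX B d) (zX B w' d) (WX B w' d) ⟨GX_open hp, hG.sub, zX_diff hp, zX_bij hp, ?_, ?_, ?_⟩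
    · -- compact part
      refine subset_union_right.trans (hvisκ ω hω 0 hadm (hfirst ω hfa) 1 Km one_pos hY11 hKmp
        ⟨((1 : ℝ) : ℂ) * Complex.I, ⟨?_, ?_⟩, rfl⟩ (fun z hz => ?_) (fun u hu => ⟨fun z hz => ?_,
          fun s hs => ?_⟩))
      · rw [im_mul_I, div_le_one (by positivity)]
        have : (0 : ℝ) ≤ m := Nat.cast_nonneg m
        linarith
      · rw [norm_mul_I zero_le_one]
        have : (0 : ℝ) ≤ m := Nat.cast_nonneg m
        linarith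
      · exact ⟨(ball_subset_ball hκ1).trans (hm1 z hz).1, hκ1.trans (hm1 z hz).2.1⟩
      · have h1 := (hm1 z hz).2.2
        have h2 := hfa u hu
        have h3 := dist_triangle_right z a (gp A n ω u)
        rw [dist_comm z (gp A n ω u), dist_comm a (gp A n ω u)] at h3
        linarith
      · have h1 := hfar s ((min_le_right _ _).trans hs)
        have h2 := hfa u hu
        have h3 := dist_triangle_right (φ (s * Complex.I)) a (gp A n ω u)
        rw [dist_comm _ (gp A n ω u), dist_comm a (gp A n ω u)] at h3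
        linarith
    · -- tips
      intro i hi'
      obtain ⟨Pc, h1, h2, h3, h4⟩ := hn3 i hi' ω hω hadm
        (fun t ht => (hfa t ht).trans_le (hρ1t i hi'))
      refine ⟨Pc, h1, h2, h3, ?_⟩
      have h5 := Pool.Agent.H83.M7.tip_val hb hKw hp
      have h6 : Tendsto (zX B w' d) (𝓝[Pc] tipX B d) (𝓝 (WX B w' d : ℂ)) :=
        h5.mono_left (nhdsWithin_mono _ (h1.trans inter_subset_left))
      have h7 : (𝓝[Pc] tipX B d).NeBot := mem_closure_iff_nhdsWithin_neBot.1 h4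
      refine mem_closure_of_tendsto h6 ?_
      filter_upwards [self_mem_nhdsWithin] with z hz
      exact ⟨z, hz, rfl⟩
    · -- near `b`
      intro i hi'
      have hseg : ∀ t : ℝ, 0 < t → t ≤ w'.l / 2 →
          w'.p + (t : ℝ) * Complex.I * uv w'.k ∈ GX B d := by
        intro t ht0 ht1
        rw [mem_GX, add_sub_cancel_left, mul_div_cancel_right₀ _ (uv_ne _)]
        have hl := w'.l0
        refine (hG.box _ ?_).2 ?_
        · rw [norm_mul_I ht0.le]; linarith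
        · rw [im_mul_I]; exact ht0
      have hcont : Continuous (fun t : ℝ => w'.p + (t : ℝ) * Complex.I * uv w'.k) := by fun_prop
      set Sg : Set ℂ := (fun t : ℝ => w'.p + (t : ℝ) * Complex.I * uv w'.k) '' Ioc 0 (w'.l / 2)
        with hSg
      have hSgp : IsPreconnected Sg := isPreconnected_Ioc.image _ hcont.continuousOn
      have hwS : w'.p + (w'.l / 2 : ℝ) * Complex.I * uv w'.k ∈ Sg :=
        ⟨w'.l / 2, ⟨by linarith [w'.l0], le_rfl⟩, rfl⟩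
      obtain ⟨-, hRip⟩ := ray_compact h (s0 := hi h i) (Y := Y) (hhigh i).1.le
      set Ri : Set ℂ := (fun s : ℝ => φ (s * Complex.I)) '' Icc (hi h i) Y with hRi
      have hsi : s1 ≤ hi h i := (min_le_left _ _).trans (hs0' i hi')
      have hvi := hvisκ ω hω 0 hadm (hfirst ω hfa) (hi h i) Ri (hhigh i).1 (hYhi i hi') hRip
        ⟨hi h i, ⟨le_rfl, hYhi i hi'⟩, rfl⟩ (by
          rintro _ ⟨s, hs, rfl⟩
          have h1 := hm2 _ ⟨s, ⟨hsi.trans hs.1, hs.2⟩, rfl⟩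
          exact ⟨(ball_subset_ball hκ2).trans h1.1, hκ2.trans h1.2.1⟩) (by
          intro u hu
          have h0 : ∀ s : ℝ, s1 ≤ s → κ ≤ dist (gp A n ω u) (φ (s * Complex.I)) := by
            intro s hs
            have h1 := hfar s hs
            have h2 := hfa u hu
            have h3 := dist_triangle_right (φ (s * Complex.I)) a (gp A n ω u)
            rw [dist_comm _ (gp A n ω u), dist_comm a (gp A n ω u)] at h3
            linarith
          refine ⟨?_, fun s hs => h0 s (hsi.trans hs)⟩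
          rintro _ ⟨s, hs, rfl⟩
          exact h0 s (hsi.trans hs.1))
      have hrPm : rP ≤ 1 / ((i : ℝ) + 1) := by
        refine (min_le_right _ _).trans ?_
        exact one_div_le_one_div_of_le (by positivity) (by
          have : (i : ℝ) ≤ m := by exact_mod_cast hi'
          linarith)
      have hwp : w'.p ∈ ball b rP := by
        have h1 := w'.dn 0 0 (by rw [abs_zero]; linarith [w'.l0]) le_rfl (by linarith [w'.l0])
        simp only [Complex.ofReal_zero, zero_mul, sub_zero, add_zero] at h1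
        have h2 := (B.subQ _ _ w'.hq h1).2
        exact ball_subset_ball (hr0r.trans hr0P) h2
      refine ⟨(Pi ∪ Ri) ∪ Sg, ?_, ?_, Or.inl (Or.inr ⟨hi h i, ⟨le_rfl, hYhi i hi'⟩, rfl⟩),
        unbounded_near hp (fun t ht0 ht1 => Or.inr ⟨t, ⟨ht0, ht1⟩, rfl⟩)⟩
      · rintro z ((hz | hz) | ⟨t, ht, rfl⟩)
        · exact ⟨hvi (Or.inl hz), ball_subset_ball hrPm (hPs hz).2⟩
        · refine ⟨hvi (Or.inr hz), ?_⟩
          obtain ⟨s, hs, rfl⟩ := hz
          have hs' : 0 < s := (hhigh i).1.trans_le hs.1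
          exact (hhigh i).2 _ (by rw [im_mul_I]; exact hs') (by rw [norm_mul_I hs'.le]; exact hs.1)
        · refine ⟨hseg t ht.1 ht.2, ?_⟩
          have hl := w'.l0
          have h1 := (convex_ball b rP) hwp (hPs hPw').2 (a := 1 - 2 * t / w'.l)
            (b := 2 * t / w'.l) (by
              rw [sub_nonneg, div_le_one hl]; linarith [ht.2]) (by
              have := ht.1; positivity) (by ring)
          have h2 : (1 - 2 * t / w'.l : ℝ) • w'.p +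
              (2 * t / w'.l : ℝ) • (w'.p + (w'.l / 2 : ℝ) * Complex.I * uv w'.k) =
              w'.p + (t : ℝ) * Complex.I * uv w'.k := by
            rw [Complex.real_smul, Complex.real_smul]
            push_cast
            have hl' : (w'.l : ℂ) ≠ 0 := by exact_mod_cast hl.ne'
            field_simp
            ring
          rw [h2] at h1
          exact ball_subset_ball hrPm h1
      · have h1 : IsPreconnected (Pi ∪ Ri) :=
          hPp.union (φ (Y * Complex.I)) hPY ⟨Y, ⟨hYhi i hi', le_rfl⟩, rfl⟩ hRip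
        exact h1.union _ (Or.inl hPw') hwS hSgp

end Pool.Agent.H82.Q1.M7
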