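import Mathlib
import Pool.Agent.H82.Q1.M7.Facts

set_option autoImplicit false
open Set Filter Topology Metric

/-! # J24, first half: windows with a finer grid -/

namespace Pool.Agent.H82.Q1.M7

open Pool.Agent.H81.Q1 (pt DDomain Approx IsJordanDomain IsArcs)
open Pool.Agent.Q1.M3
open Pool.Agent.H83.M7 (mesh_mul)

variable {D : Set ℂ} {a b : ℂ} {A₁ A₂ : Set ℂ} {A : Approx D a b A₁ A₂} {r0 : ℝ}
  {B : Base A r0}

lemma gpt_refine (o : ℂ) {k k' : ℕ} (h : k ≤ k') (m : ℤ × ℤ) :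
    gpt o k' ((3 : ℤ) ^ (k' - k) • m) = gpt o k m := by
  unfold gpt
  have h := mesh_mul h
  apply Complex.ext
  · simp only [Prod.smul_fst, smul_eq_mul]
    rw [← h]
    push_cast
    ring
  · simp only [Prod.smul_snd, smul_eq_mul]
    rw [← h]
    push_cast
    ring

/-- The window with a finer grid. -/
noncomputable def Win.refine (w : Win B) (k' : ℕ) (h : w.k1 ≤ k') : Win B where
  M0 := w.M0
  q := w.q
  hq := w.hq
  k := w.k
  k1 := k'
  hk1 := w.hk1.trans_le h
  m := (3 : ℤ) ^ (k' - w.k1) • w.m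
  l := w.l
  l0 := w.l0
  up := fun s t hs ht ht' => by
    rw [gpt_refine B.o h]
    exact w.up s t hs ht ht'
  dn := fun s t hs ht ht' => by
    rw [gpt_refine B.o h]
    exact w.dn s t hs ht ht'

lemma Win.refine_same (w : Win B) (k' : ℕ) (h : w.k1 ≤ k') : Same w (w.refine k' h) :=
  ⟨gpt_refine B.o h w.m, rfl, rfl, rfl, rfl⟩

@[simp] lemma Win.refine_k1 (w : Win B) (k' : ℕ) (h : w.k1 ≤ k') : (w.refine k' h).k1 = k' := rfl

end Pool.Agent.H82.Q1.M7
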