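import Mathlib
import Pool.Agent.H82.Q1.M7.Refine
import Pool.Agent.H66.M7.First
import Pool.Agent.H4.Q1.M7.Micro3

set_option autoImplicit false
open Set Filter Topology Metric

/-! # J24, first half: the data of one configuration -/

namespace Pool.Agent.H82.Q1.M7

open Pool.Agent.H75.Perc Pool.Agent.H75.TwoArm Pool.Agent.H75.Four Pool.Agent.H69.Q1
open Pool.Agent.H81.Q1 (pt DDomain Approx IsJordanDomain IsArcs)
open Pool.Agent.Q1.M3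
open Pool.Agent.Q1.M3.Pg (SD)
open Pool.Agent.H82.Q1 (HH cHH IsChart)
open Pool.Agent.H83.Lo (UH Psi)
open Pool.Agent.H11.M7 (gp)
open Pool.Agent.H4.Q1.M7 (Om PO gS MicroAt T_mono)
open Pool.Agent.H66.M7 (rc F1 not_fin)
open Pool.Agent.H83.M7 (HasPsi psiX AX zX WX tipX psiX_spec uv_ne norm_uv mchainX sa1 sa2 sa3)

variable {D : Set ℂ} {a b : ℂ} {A₁ A₂ : Set ℂ} {A : Approx D a b A₁ A₂} {r0 : ℝ}
  {φ : ℂ → ℂ}

/-- The scale factor. -/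
noncomputable def alX (φ : ℂ → ℂ) (B : Base A r0) (w : Win B) (d : SD) : ℝ :=
  ‖zX B w d (φ Complex.I) - WX B w d‖⁻¹

/-- Capacity time of the state with data `d'`, first data `d`. -/
noncomputable def tX (φ : ℂ → ℂ) (B : Base A r0) (w : Win B) (d d' : SD) : ℝ :=
  alX φ B w d ^ 2 * (rc (AX B w d) 1 - rc (AX B w d') 1) / 2

/-- Driving value. -/
noncomputable def VX (φ : ℂ → ℂ) (B : Base A r0) (w : Win B) (d d' : SD) : ℝ :=
  alX φ B w d * (WX B w d' - WX B w d)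

/-- Second moment of the step from `d'` to `d''`. -/
noncomputable def μX (φ : ℂ → ℂ) (B : Base A r0) (w : Win B) (d d' d'' : SD) : ℝ :=
  alX φ B w d ^ 4 * (sa3 (AX B w d') (AX B w d'') - 2 * WX B w d' * sa2 (AX B w d') (AX B w d'') +
    WX B w d' ^ 2 * sa1 (AX B w d') (AX B w d''))

/-- **The data of one configuration.** -/
theorem cdata_of {B : Base A r0} {w : Win B} {P : Par B} {k0 K n : ℕ} {ρ ε κ Y r1 r2 ρ1 al0 : ℝ}
    {pz : ℝ → ℝ} {C0 : ℝ} {q : ℤ} {e0 C ε' : ℝ} (hDb : Bornology.IsBounded D)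
    (hF : Facts φ ε κ Y r1 ρ1 al0 B w P k0 K n ρ)
    (hM : MicroAt B w P k0 K n pz C0 q r1 r2 ρ e0 C ε')
    (hReg : B.Reg k0 k0 n) (hN : ∀ v ∈ B.N n, pt (A.δ n) v ∈ Metric.ball b r0)
    (hr : r0 + A.δ n ≤ r1) (hε : 0 < ε) (hε1 : ε ≤ 1) (hκ : κ ≤ ε)
    (hY : ε⁻¹ ≤ Y) (hρ1 : ρ1 ≤ ε) {F0 : Set (Om (X0 A n).E)} (ω : Om (X0 A n).E)
    (hω0 : ω ∈ F1 B k0 n ρ1) {J : ℕ} {σ : ℕ → ℕ} (hσ0 : σ 0 = 0) (hσ : ∀ k < J, σ k < σ (k + 1))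
    (hg : ∀ k ≤ J, ω ∈ gS B k0 n F0 r1 ρ e0 (σ k))
    (hb : ∀ k < J, ∀ i, σ k ≤ i → i < σ (k + 1) → ω ∈ gS B k0 n F0 r2 ρ e0 i)
    (mesh : ∀ k < J, tX φ B w (SDj B P k0 K n 0 ω.1) (SDj B P k0 K n (σ (k + 1)) ω.1) -
      tX φ B w (SDj B P k0 K n 0 ω.1) (SDj B P k0 K n (σ k) ω.1) ≤ ε)
    (mom : ∑ k ∈ Finset.range J, μX φ B w (SDj B P k0 K n 0 ω.1) (SDj B P k0 K n (σ k) ω.1)
      (SDj B P k0 K n (σ (k + 1)) ω.1) ≤ ε)
    (step : ∀ k < J, ∀ u, B.T k0 n (σ k + 1) ω.1 ≤ u → u ≤ B.T k0 n (σ (k + 1) + 1) ω.1 →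
      dist (gp A n ω.1 u) (gp A n ω.1 (B.T k0 n (σ k + 1) ω.1)) ≤ ε)
    (fin : ε⁻¹ ≤ tX φ B w (SDj B P k0 K n 0 ω.1) (SDj B P k0 K n (σ J) ω.1) ∨
      ε⁻¹ ≤ |VX φ B w (SDj B P k0 K n 0 ω.1) (SDj B P k0 K n (σ J) ω.1)| ∨
      dist (gp A n ω.1 (B.T k0 n (σ J + 1) ω.1)) b ≤ ε) :
    CData A φ ε n ω.1 J
      (fun k => tX φ B w (SDj B P k0 K n 0 ω.1) (SDj B P k0 K n (σ k) ω.1))
      (fun k => VX φ B w (SDj B P k0 K n 0 ω.1) (SDj B P k0 K n (σ k) ω.1))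
      (fun k => μX φ B w (SDj B P k0 K n 0 ω.1) (SDj B P k0 K n (σ k) ω.1)
        (SDj B P k0 K n (σ (k + 1)) ω.1))
      (fun k => GX B (SDj B P k0 K n (σ k) ω.1))
      (fun k z => alX φ B w (SDj B P k0 K n 0 ω.1) *
        (zX B w (SDj B P k0 K n (σ k) ω.1) z - WX B w (SDj B P k0 K n 0 ω.1)))
      (fun k => B.T k0 n (σ k + 1) ω.1) := by
  have hω := ω.sub
  have hgeo : ∀ k ≤ J, Adm w n ρ k0 (σ k + 1) ω.1 ∧ GeoAt B w P k0 K n ρ ω.1 (σ k) ∧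
      HasPsi B w (SDj B P k0 K n (σ k) ω.1) := fun k hk => hM.geo F0 (σ k) ω (hg k hk)
  have hfar : ∀ k ≤ J, ∀ t ≤ B.T k0 n (σ k + 1) ω.1, r1 ≤ dist (gp A n ω.1 t) b :=
    fun k hk => (hg k hk).2.1
  have hnf : ∀ k ≤ J, ¬ B.Fin n (B.X k0 n (σ k + 1) ω.1) := fun k hk =>
    not_fin hN hr hω (hfar k hk _ le_rfl)
  have hadm0 : Adm w n ρ k0 1 ω.1 := by
    have := (hgeo 0 (Nat.zero_le J)).1
    rwa [hσ0] at this
  have hinit := hF.init ω.1 hω hadm0 hω0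
  have hI := hinit Complex.I (by simpa using hε1) (by
    rw [Complex.norm_I]; exact (one_le_inv₀ hε).2 hε1)
  have hψ0 := (hgeo 0 (Nat.zero_le J)).2.2
  rw [hσ0] at hψ0
  have hα : 0 < alX φ B w (SDj B P k0 K n 0 ω.1) := by
    unfold alX
    refine inv_pos.2 (norm_pos_iff.2 fun h0 => ?_)
    have h1 := (zX_bij hψ0).mapsTo hI.1
    rw [sub_eq_zero] at h0
    rw [h0] at h1
    have h2 : (0 : ℝ) < ((WX B w (SDj B P k0 K n 0 ω.1) : ℝ) : ℂ).im := h1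
    rw [Complex.ofReal_im] at h2
    exact lt_irrefl _ h2
  have hchain := mchainX (B := B) (w := w) (J := J) (dd := fun k => SDj B P k0 K n (σ k) ω.1)
    (fun k hk => (hgeo k hk).2.2)
    (fun k hk => hM.anti F0 (σ k) (σ (k + 1)) (hσ k hk).le ω (hb k hk) (hg (k + 1) hk)) hα
    (WX B w (SDj B P k0 K n 0 ω.1))
  simp only [hσ0] at hchain
  refine ⟨hchain, fun k hk => (hgeo k hk).2.1.sub, ?_, ?_, ?_, mesh, mom, ?_, ?_, ?_, ?_, ?_, step,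
    ?_, fin⟩
  · simp only [hσ0]
    unfold tX
    rw [sub_self, mul_zero, zero_div]
  · simp only [hσ0]
    unfold VX
    rw [sub_self, mul_zero]
  · intro z hz1 hz2
    simp only [hσ0]
    exact hinit z hz1 hz2
  · intro k hk
    exact (B.T_lt hDb hReg hω (hnf k hk.le)).trans_le (T_mono (by have := hσ k hk; omega))
  · simp only [hσ0]
    exact lt_of_le_of_lt (Nat.zero_le _) (B.T_lt hDb hReg hω (j := 0) hReg.nfin)
  · exact B.T_le_len hω _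
  · intro k hk u hu
    exact (hgeo k hk).2.1.excl u hu
  · intro k hk y hy hyε Q hQ hyQ hQ1 hQ2
    refine hF.vis ω.1 hω (σ k) (hgeo k hk).1 (hfar k hk) y Q hy (hyε.trans hY) hQ hyQ ?_ ?_
    · intro z hz
      exact ⟨(ball_subset_ball hκ).trans (hQ1 z hz).1, hκ.trans (hQ1 z hz).2⟩
    · intro u hu
      exact ⟨fun z hz => hκ.trans ((hQ2 u hu).1 z hz), fun s hs => hκ.trans ((hQ2 u hu).2 s hs)⟩
  · intro u hu
    simp only [hσ0] at hu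
    exact (hω0 u hu).le.trans hρ1

end Pool.Agent.H82.Q1.M7
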