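import Mathlib
import Pool.Agent.H37.Levy.Array12

set_option autoImplicit false
open MeasureTheory ProbabilityTheory Filter

/-! # Arrays without large steps; number of steps which are not small -/

namespace Pool.Agent.H82.Q1.M7

open H37.Levy

variable {Ω : Type*} {m0 : MeasurableSpace Ω} {P : Measure Ω} [IsProbabilityMeasure P]
  {w t : ℕ → Ω → ℝ} {G : Filtration ℕ m0} {c T0 M0 C δ : ℝ} {a b : ℕ → ℝ} {J : ℕ}

omit [IsProbabilityMeasure P] in
/-- A raw array without large steps is an array. -/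
theorem arr_of_raw (h : Raw w t G P c T0 M0 C a b J) (hδ : 0 ≤ δ) (hδ1 : δ ≤ 1)
    (hL : ∀ j < J, ∀ ω, ω ∉ Lg w t δ j) : Arr w t G P c T0 M0 δ a b J := by
  have hSm : ∀ j ≤ J, ∀ ω, ω ∈ Sm w t δ j := fun j hj ω i hi => hL i (hi.trans_le hj) ω
  have hL' : ∀ j < J, ∀ ω, |w (j + 1) ω - w j ω| ≤ δ ∧ t (j + 1) ω - t j ω ≤ δ := by
    intro j hj ω
    have h1 := hL j hj ω
    unfold Lg at h1
    simp only [Set.mem_ofPred_eq, not_or, not_lt] at h1
    exact h1
  refine
    { c0 := h.c0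
      T00 := h.T00
      M00 := h.M00
      δ0 := hδ
      δ1 := hδ1
      mw := h.mw
      mt := h.mt
      w0 := h.w0
      t0 := h.t0
      bw := fun j hj ω => ?_
      bt := fun j hj ω => ?_
      dw := fun j hj ω => (hL' j hj ω).1
      dt0 := h.dt0
      dt := fun j hj ω => (hL' j hj ω).2
      e1 := h.e1
      e2 := h.e2 }
  · have h1 := (h.bw_trn hδ hδ1 hj ω).1
    rwa [trn_of_Sm (hSm j hj ω)] at h1
  · have h1 := (h.bw_trn hδ hδ1 hj ω).2
    rwa [trn_of_Sm (hSm j hj ω)] at h1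

omit [IsProbabilityMeasure P] in
lemma int_bd [IsFiniteMeasure P] {f : Ω → ℝ} {j : ℕ} (hf : StronglyMeasurable[G j] f) {B : ℝ}
    (hB : ∀ ω, |f ω| ≤ B) : Integrable f P :=
  Integrable.of_bound (hf.mono (G.le j)).aestronglyMeasurable B (Eventually.of_forall hB)

/-- **Sum of the squares.** -/
theorem sum_sq (h : Arr w t G P c T0 M0 δ a b J) :
    ∫ ω, ∑ j ∈ Finset.range J, ((w (j + 1) ω - w j ω) ^ 2 + (t (j + 1) ω - t j ω)) ∂P ≤
      (c + 1) * (T0 + 1) + ∑ j ∈ Finset.range J, b j := by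
  have hw : ∀ j ≤ J, Integrable (w j) P := fun j hj => int_bd (h.mw j) (h.bw j hj)
  have ht0 : ∀ j ≤ J, ∀ ω, 0 ≤ t j ω := by
    intro j
    induction j with
    | zero => intro _ ω; rw [h.t0]
    | succ j ih =>
      intro hj ω
      have h1 := ih (by omega) ω
      have h2 := h.dt0 j hj ω
      linarith
  have ht : ∀ j ≤ J, Integrable (t j) P := fun j hj => int_bd (h.mt j) (B := T0 + 1) fun ω => by
    rw [abs_of_nonneg (ht0 j hj ω)]
    exact h.bt j hj ω
  have hsq : ∀ j < J, Integrable (fun ω => (w (j + 1) ω - w j ω) ^ 2) P := by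
    intro j hj
    refine int_bd (j := j + 1) (B := δ ^ 2)
      (((h.mw (j + 1)).sub ((h.mw j).mono (G.mono (Nat.le_succ j)))).pow 2) fun ω => ?_
    rw [abs_of_nonneg (sq_nonneg _), ← sq_abs]
    exact pow_le_pow_left₀ (abs_nonneg _) (h.dw j hj ω) 2
  have hdt : ∀ j < J, Integrable (fun ω => t (j + 1) ω - t j ω) P := fun j hj =>
    (ht (j + 1) hj).sub (ht j hj.le)
  have hint : ∀ j ∈ Finset.range J,
      Integrable (fun ω => (w (j + 1) ω - w j ω) ^ 2 + (t (j + 1) ω - t j ω)) P := fun j hj =>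
    (hsq j (Finset.mem_range.1 hj)).add (hdt j (Finset.mem_range.1 hj))
  rw [integral_finsetSum _ hint]
  have h1 : ∀ j ∈ Finset.range J,
      ∫ ω, ((w (j + 1) ω - w j ω) ^ 2 + (t (j + 1) ω - t j ω)) ∂P ≤
        (c + 1) * (∫ ω, t (j + 1) ω ∂P - ∫ ω, t j ω ∂P) + b j := by
    intro j hj
    have hj' := Finset.mem_range.1 hj
    have h2 := h.e2 j hj' (fun _ => 1) stronglyMeasurable_const (fun _ => by simp)
    simp only [one_mul] at h2
    rw [integral_sub (hsq j hj') ((hdt j hj').const_mul c), integral_const_mul,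
      integral_sub (ht (j + 1) hj') (ht j hj'.le)] at h2
    rw [integral_add (hsq j hj') (hdt j hj'), integral_sub (ht (j + 1) hj') (ht j hj'.le)]
    have h3 := (abs_le.1 h2).2
    linarith
  refine (Finset.sum_le_sum h1).trans ?_
  rw [Finset.sum_add_distrib, ← Finset.mul_sum, Finset.sum_range_sub (fun j => ∫ ω, t j ω ∂P)]
  have h4 : ∫ ω, t J ω ∂P ≤ T0 + 1 := by
    have h5 : ∫ ω, t J ω ∂P ≤ ∫ _, (T0 + 1) ∂P :=
      integral_mono (ht J le_rfl) (integrable_const _) fun ω => h.bt J le_rfl ω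
    simpa using h5
  have h6 : ∫ ω, t 0 ω ∂P = 0 := by
    have : (fun ω => t 0 ω) = fun _ => (0 : ℝ) := funext h.t0
    rw [this]; simp
  have hc : 0 ≤ c + 1 := by linarith [h.c0]
  have h7 : (c + 1) * (∫ ω, t J ω ∂P - ∫ ω, t 0 ω ∂P) ≤ (c + 1) * (T0 + 1) :=
    mul_le_mul_of_nonneg_left (by linarith) hc
  linarith

open Classical in
/-- **Number of steps which are not small.** -/
theorem count_steps (h : Arr w t G P c T0 M0 δ a b J) {d : ℝ} (hd : 0 < d) (hd1 : d ≤ 1) {N : ℕ}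
    (hN : 0 < N) :
    P.real {ω | N ≤ ((Finset.range J).filter fun j =>
      d ≤ |w (j + 1) ω - w j ω| ∨ d ≤ t (j + 1) ω - t j ω).card} ≤
      ((c + 1) * (T0 + 1) + ∑ j ∈ Finset.range J, b j) / (d ^ 2 * N) := by
  set F : Ω → ℝ := fun ω => ∑ j ∈ Finset.range J,
    ((w (j + 1) ω - w j ω) ^ 2 + (t (j + 1) ω - t j ω)) with hF
  have hF0 : ∀ ω, 0 ≤ F ω := fun ω => Finset.sum_nonneg fun j hj =>
    add_nonneg (sq_nonneg _) (h.dt0 j (Finset.mem_range.1 hj) ω)
  have hFm : Integrable F P := by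
    refine Integrable.of_bound (C := ∑ j ∈ Finset.range J, (δ ^ 2 + δ)) ?_
      (Eventually.of_forall fun ω => ?_)
    · refine StronglyMeasurable.aestronglyMeasurable ?_
      refine Finset.stronglyMeasurable_fun_sum _ fun j _ => ?_
      exact (((h.mw _).mono (G.le _)).sub ((h.mw _).mono (G.le _))).pow 2 |>.add
        (((h.mt _).mono (G.le _)).sub ((h.mt _).mono (G.le _)))
    · rw [Real.norm_eq_abs, abs_of_nonneg (hF0 ω)]
      refine Finset.sum_le_sum fun j hj => ?_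
      have hj' := Finset.mem_range.1 hj
      have h1 := h.dw j hj' ω
      have h2 := h.dt j hj' ω
      have h3 : (w (j + 1) ω - w j ω) ^ 2 ≤ δ ^ 2 := by
        rw [← sq_abs]
        exact pow_le_pow_left₀ (abs_nonneg _) h1 2
      linarith
  have hsub : {ω | N ≤ ((Finset.range J).filter fun j =>
      d ≤ |w (j + 1) ω - w j ω| ∨ d ≤ t (j + 1) ω - t j ω).card} ⊆ {ω | d ^ 2 * N ≤ F ω} := by
    intro ω hω
    have h1 : ∑ j ∈ (Finset.range J).filter (fun j =>
        d ≤ |w (j + 1) ω - w j ω| ∨ d ≤ t (j + 1) ω - t j ω), d ^ 2 ≤ F ω := by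
      rw [hF]
      refine (Finset.sum_le_sum (g := fun j => (w (j + 1) ω - w j ω) ^ 2 +
        (t (j + 1) ω - t j ω)) fun j hj => ?_).trans
        (Finset.sum_le_sum_of_subset_of_nonneg (Finset.filter_subset _ _) fun j hj _ =>
          add_nonneg (sq_nonneg _) (h.dt0 j (Finset.mem_range.1 hj) ω))
      obtain ⟨hj1, hj2⟩ := Finset.mem_filter.1 hj
      have hj1' := Finset.mem_range.1 hj1
      have hdt := h.dt0 j hj1' ω
      rcases hj2 with h2 | h2
      · have h3 : d ^ 2 ≤ (w (j + 1) ω - w j ω) ^ 2 := by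
          rw [← sq_abs (w (j + 1) ω - w j ω)]
          exact pow_le_pow_left₀ hd.le h2 2
        linarith
      · have h3 : d ^ 2 ≤ d := by nlinarith
        have h4 := sq_nonneg (w (j + 1) ω - w j ω)
        linarith
    rw [Finset.sum_const, nsmul_eq_mul] at h1
    have h2 : (N : ℝ) ≤ (((Finset.range J).filter fun j =>
      d ≤ |w (j + 1) ω - w j ω| ∨ d ≤ t (j + 1) ω - t j ω).card : ℝ) := by exact_mod_cast hω
    have h3 : d ^ 2 * N ≤ (((Finset.range J).filter fun j =>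
      d ≤ |w (j + 1) ω - w j ω| ∨ d ≤ t (j + 1) ω - t j ω).card : ℝ) * d ^ 2 := by
      rw [mul_comm]
      exact mul_le_mul_of_nonneg_right h2 (by positivity)
    exact h3.trans h1
  have hpos : 0 < d ^ 2 * (N : ℝ) := by
    have : (0 : ℝ) < N := by exact_mod_cast hN
    positivity
  have h1 := mul_meas_ge_le_integral_of_nonneg (μ := P) (Eventually.of_forall hF0) hFm
    (d ^ 2 * N)
  have h2 : P.real {ω | d ^ 2 * N ≤ F ω} * (d ^ 2 * N) ≤ ∫ ω, F ω ∂P := by
    rw [mul_comm]; exact h1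
  have h3 := sum_sq h
  rw [le_div_iff₀ hpos]
  refine (mul_le_mul_of_nonneg_right (measureReal_mono hsub) hpos.le).trans (h2.trans h3)

end Pool.Agent.H82.Q1.M7
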