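import Mathlib
import Pool.Agent.H82.Q1.M7.Cd
import Pool.Agent.H82.Q1.M7.Cnt

set_option autoImplicit false
open Set Filter Topology Metric MeasureTheory ProbabilityTheory

/-! # J24, first half: monotonicity -/

namespace Pool.Agent.H82.Q1.M7

open Pool.Agent.H75.Perc Pool.Agent.H75.TwoArm Pool.Agent.H75.Four Pool.Agent.H69.Q1
open Pool.Agent.H81.Q1 (pt DDomain Approx IsJordanDomain IsArcs)
open Pool.Agent.Q1.M3
open Pool.Agent.H4.Q1.M7 (Om PO gS MicroAt)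
open Pool.Agent.H11.M7 (gp)
open Pool.Agent.H66.M7 (Chn)

variable {D : Set ℂ} {a b : ℂ} {A₁ A₂ : Set ℂ} {A : Approx D a b A₁ A₂} {φ : ℂ → ℂ}

/-- Monotonicity in the accuracy. -/
theorem CData.weak {ε ε' : ℝ} {n : ℕ} {ω : Finset (ℤ × ℤ)} {J : ℕ} {t V μ : ℕ → ℝ}
    {G : ℕ → Set ℂ} {Z : ℕ → ℂ → ℂ} {Tx : ℕ → ℕ} (h : CData A φ ε n ω J t V μ G Z Tx)
    (hε : 0 < ε) (hε' : ε ≤ ε') : CData A φ ε' n ω J t V μ G Z Tx where
  chain := h.chain
  sub := h.sub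
  t0 := h.t0
  V0 := h.V0
  init := fun z hz hz' => by
    obtain ⟨h1, h2⟩ := h.init z (hε'.trans hz) (hz'.trans (inv_anti₀ hε hε'))
    exact ⟨h1, h2.trans hε'⟩
  mesh := fun j hj => (h.mesh j hj).trans hε'
  mom := h.mom.trans hε'
  mono := h.mono
  pos := h.pos
  len := h.len
  out := h.out
  vis := fun j hj y hy hy' Q hQ hyQ hQ1 hQ2 =>
    h.vis j hj y hy (hy'.trans (inv_anti₀ hε hε')) Q hQ hyQ
      (fun z hz => ⟨(ball_subset_ball hε').trans (hQ1 z hz).1, hε'.trans (hQ1 z hz).2⟩)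
      (fun u hu => ⟨fun z hz => hε'.trans ((hQ2 u hu).1 z hz),
        fun s hs => hε'.trans ((hQ2 u hu).2 s hs)⟩)
  step := fun j hj u hu hu' => (h.step j hj u hu hu').trans hε'
  first := fun u hu => (h.first u hu).trans hε'
  fin := by
    have h1 := inv_anti₀ hε hε'
    rcases h.fin with h2 | h2 | h2
    · exact Or.inl (h1.trans h2)
    · exact Or.inr (Or.inl (h1.trans h2))
    · exact Or.inr (Or.inr (h2.trans hε'))

/-- Change of the values after the end of the chain. -/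
theorem CData.congr {ε : ℝ} {n : ℕ} {ω : Finset (ℤ × ℤ)} {J : ℕ} {t t' V V' μ : ℕ → ℝ}
    {G : ℕ → Set ℂ} {Z : ℕ → ℂ → ℂ} {Tx : ℕ → ℕ} (h : CData A φ ε n ω J t V μ G Z Tx)
    (ht : ∀ j ≤ J, t' j = t j) (hV : ∀ j ≤ J, V' j = V j) :
    CData A φ ε n ω J t' V' μ G Z Tx where
  chain :=
    { diff := h.chain.diff
      bij := h.chain.bij
      anti := h.chain.anti
      quot := fun j hj => by
        have h1 := h.chain.quot j hj
        rwa [ht j hj.le, ht (j + 1) hj, hV j hj.le] }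
  sub := h.sub
  t0 := by rw [ht 0 (Nat.zero_le _)]; exact h.t0
  V0 := by rw [hV 0 (Nat.zero_le _)]; exact h.V0
  init := h.init
  mesh := fun j hj => by rw [ht j hj.le, ht (j + 1) hj]; exact h.mesh j hj
  mom := h.mom
  mono := h.mono
  pos := h.pos
  len := h.len
  out := h.out
  vis := h.vis
  step := h.step
  first := h.first
  fin := by rw [ht J le_rfl, hV J le_rfl]; exact h.fin

/-- Monotonicity in the accuracy. -/
theorem Qd.mono {ε ε' : ℝ} {n : ℕ} (h : Qd A φ ε n) (hε : 0 < ε) (hε' : ε ≤ ε') :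
    Qd A φ ε' n := by
  obtain ⟨w, t, F, T0, M0, δ, e1, e2, N, h1, h2, h3, h4, h5, h6, h7⟩ := h
  have h0 := inv_anti₀ hε hε'
  refine ⟨w, t, F, T0, M0, δ, e1, e2, N, h1, h2, h3.trans hε', h0.trans h4, h0.trans h5,
    h6.trans hε', (measureReal_mono ?_).trans (h7.trans hε')⟩
  intro ω hω hcon
  obtain ⟨J, hJ, μ, G, Z, Tx, h8⟩ := hcon
  exact hω ⟨J, hJ, μ, G, Z, Tx, h8.weak hε hε'⟩

theorem chn_mono {Ω : Type*} {m0 : MeasurableSpace Ω} {P : Measure Ω} {G : Filtration ℕ m0}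
    {l a0 M al0 s ε ε' : ℝ} {q : ℕ → ℝ} {J : ℕ} {A : ℕ → Ω → ℂ → ℂ} {W : ℕ → Ω → ℝ}
    {Mt : ℕ → ℕ → Ω → ℝ} {g b : ℕ → Set Ω} {al : Ω → ℝ}
    (h : Chn P G l a0 M al0 s ε q J A W Mt g b al) (hε : ε ≤ ε') :
    Chn P G l a0 M al0 s ε' q J A W Mt g b al :=
  { h with
    eps0 := h.eps0.trans hε
    obs := fun j hj i hi ω hω => (h.obs j hj i hi ω hω).trans hε }

theorem micro_mono {r0 : ℝ} {B : Base A r0} {w : Win B} {P : Par B} {k0 K n : ℕ}
    {pz : ℝ → ℝ} {C0 : ℝ} {q : ℤ} {r1 r2 ρ e0 C ε ε' : ℝ}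
    (h : MicroAt B w P k0 K n pz C0 q r1 r2 ρ e0 C ε) (hε : ε ≤ ε') :
    MicroAt B w P k0 K n pz C0 q r1 r2 ρ e0 C ε' :=
  { h with
    chn := fun J al0 al F0 h1 h2 h3 h4 => chn_mono (h.chn J al0 al F0 h1 h2 h3 h4) hε }

end Pool.Agent.H82.Q1.M7
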