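import Mathlib
import Pool.Agent.H82.Q1.M7.Asm1
import Pool.Agent.H82.Q1.M7.Mono

set_option autoImplicit false
open Set Filter Topology Metric MeasureTheory ProbabilityTheory

/-! # J24, first half: the coarse chain at a fixed index -/

namespace Pool.Agent.H82.Q1.M7

open Pool.Agent.H75.Perc Pool.Agent.H75.TwoArm Pool.Agent.H75.Four Pool.Agent.H69.Q1
open Pool.Agent.H81.Q1 (pt DDomain Approx IsJordanDomain IsArcs)
open Pool.Agent.Q1.M3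
open Pool.Agent.Q1.M3.Pg (SD)
open Pool.Agent.H4.Q1.M7 (Om PO gS MicroAt T_mono AdX FX Aj Wj Mj ad_T cor_of_Hi ad_gS ad_SDj
  Lrg ad_of_meas)
open Pool.Agent.H11.M7 (gp)
open Pool.Agent.H66.M7 (rc F1 ad_F1 not_fin Chn dr cp ws ts qs Stp On m2 kap kc)
open Pool.Agent.H83.M7 (HasPsi psiX AX zX WX sa1 sa2 sa3)
open H37.M7 H37.Levy

variable {D : Set ℂ} {a b : ℂ} {A₁ A₂ : Set ℂ} {A : Approx D a b A₁ A₂} {r0 : ℝ}
  {φ : ℂ → ℂ} {B : Base A r0} {w : Win B} {P : Par B} {k0 K n : ℕ}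

open Classical in
/-- The scale factor, `0` if the first state is not good. -/
noncomputable def alO (φ : ℂ → ℂ) (B : Base A r0) (w : Win B) (P : Par B) (k0 K n : ℕ)
    (F0 : Set (Om (X0 A n).E)) (r ρ e0 : ℝ) (ω : Om (X0 A n).E) : ℝ :=
  if ω ∈ gS B k0 n F0 r ρ e0 0 then alX φ B w (SDj B P k0 K n 0 ω.1) else 0

/-- Macroscopic displacement of the tip. -/
def RO (B : Base A r0) (k0 n : ℕ) (δ : ℝ) (i j : ℕ) : Set (Om (X0 A n).E) :=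
  {ω | δ ≤ dist (gp A n ω.1 (B.T k0 n (i + 1) ω.1)) (gp A n ω.1 (B.T k0 n (j + 1) ω.1))}

lemma ad_gpT {i j : ℕ} (h : i ≤ j + 1) :
    AdX B k0 n j (fun ω => gp A n ω.1 (B.T k0 n i ω.1)) := by
  intro ω ω' h1
  have h2 := ad_T (B := B) (k0 := k0) h ω ω' h1
  simp only at h2 ⊢
  unfold gp
  rw [cor_of_Hi h1 (T_mono h), ← h2]

lemma ad_alO {F0 : Set (Om (X0 A n).E)} (hF : AdX B k0 n 0 (fun ω => ω ∈ F0)) (r ρ e0 : ℝ) :
    AdX B k0 n 0 (alO φ B w P k0 K n F0 r ρ e0) := by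
  intro ω ω' h1
  have h2 := ad_gS hF r ρ e0 0 ω ω' h1
  have h3 := (ad_SDj (B := B) (k0 := k0) P K (le_refl 0)).comp (alX φ B w) ω ω' h1
  simp only [eq_iff_iff] at h2
  simp only at h3
  unfold alO
  by_cases h4 : ω ∈ gS B k0 n F0 r ρ e0 0
  · rw [if_pos h4, if_pos (h2.1 h4)]
    exact h3
  · rw [if_neg h4, if_neg fun h5 => h4 (h2.2 h5)]

lemma alX_nonneg (d : SD) : 0 ≤ alX φ B w d := inv_nonneg.2 (norm_nonneg _)

lemma alO_nonneg (F0 : Set (Om (X0 A n).E)) (r ρ e0 : ℝ) (ω : Om (X0 A n).E) :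
    0 ≤ alO φ B w P k0 K n F0 r ρ e0 ω := by
  unfold alO
  split_ifs
  · exact alX_nonneg _
  · exact le_rfl

lemma alO_le {ε κ Y r1 ρ1 al0 ρ e0 : ℝ} (hF : Facts φ ε κ Y r1 ρ1 al0 B w P k0 K n ρ)
    {pz : ℝ → ℝ} {C0 : ℝ} {q : ℤ} {r2 C ε' : ℝ}
    (hM : MicroAt B w P k0 K n pz C0 q r1 r2 ρ e0 C ε') (hal : 0 ≤ al0) (ω : Om (X0 A n).E) :
    alO φ B w P k0 K n (F1 B k0 n ρ1) r1 ρ e0 ω ≤ al0 := by
  unfold alO
  split_ifs with h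
  · exact hF.al ω.1 ω.sub (hM.geo _ 0 ω h).1 h.1
  · exact hal

lemma meas_RO {δ : ℝ} {i j : ℕ} (h : i < j) : MeasurableSet[FX B k0 n j] (RO B k0 n δ i j) :=
  ((ad_gpT (B := B) (k0 := k0) (n := n) (i := i + 1) (j := j) (by omega)).comp2
    (ad_gpT (B := B) (k0 := k0) (n := n) (i := j + 1) (j := j) le_rfl)
    (fun x y => δ ≤ dist x y)).set

/-- The conditions of the coarse chain. -/
noncomputable abbrev CC (φ : ℂ → ℂ) (B : Base A r0) (w : Win B) (P : Par B) (k0 K n : ℕ)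
    (ρ1 r ρ e0 δ : ℝ) : ℕ → ℕ → Set (Om (X0 A n).E) :=
  Cnd (Aj B w P k0 K n) (Wj B w P k0 K n) (alO φ B w P k0 K n (F1 B k0 n ρ1) r ρ e0) δ
    (RO B k0 n δ)

/-- The hypotheses of the coarse chain. -/
theorem chyp {ε κ Y r1 r2 ρ1 al0 ρ e0 δ : ℝ} (hF : Facts φ ε κ Y r1 ρ1 al0 B w P k0 K n ρ)
    {pz : ℝ → ℝ} {C0 : ℝ} {q : ℤ} {C ε' : ℝ}
    (hM : MicroAt B w P k0 K n pz C0 q r1 r2 ρ e0 C ε') (hal : 0 ≤ al0) (hC : 0 ≤ C) (J : ℕ) :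
    CHyp (PO (X0 A n).E) (FX B k0 n) w.l (10 / w.l) (11 / w.l) al0 (q * mesh (w.k1 + 1)) ε' C
      (fun j => ∑ i ∈ Finset.range 5, ∫ ω in gS B k0 n (F1 B k0 n ρ1) r2 ρ e0 j \
          gS B k0 n (F1 B k0 n ρ1) r1 ρ e0 (j + 1),
        |Mj B w k0 n pz C0 q (j + 1) i ω - Mj B w k0 n pz C0 q j i ω| ∂PO (X0 A n).E) J
      (Aj B w P k0 K n) (Wj B w P k0 K n) (Mj B w k0 n pz C0 q)
      (gS B k0 n (F1 B k0 n ρ1) r1 ρ e0) (gS B k0 n (F1 B k0 n ρ1) r2 ρ e0)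
      (alO φ B w P k0 K n (F1 B k0 n ρ1) r1 ρ e0) (CC φ B w P k0 K n ρ1 r1 ρ e0 δ) := by
  have hF1 := ad_F1 B k0 n ρ1
  have hc := hM.chn J al0 _ _ (alO_nonneg (φ := φ) (w := w) (P := P) (K := K) (F1 B k0 n ρ1)
    r1 ρ e0) (alO_le hF hM hal) (ad_alO hF1 r1 ρ e0) hF1
  refine ⟨hc, hC, ?_, fun j _ i hi ω hω => hM.hM _ j i hi ω hω,
    fun j _ i hi S hS hSb => hM.hbad _ hF1 j i hi S hS hSb, ?_⟩
  · intro i j hij
    have m1 : ∀ k ≤ j, AdX B k0 n j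
        (dr (Wj B w P k0 K n) (alO φ B w P k0 K n (F1 B k0 n ρ1) r1 ρ e0) k) := fun k hk =>
      (ad_of_meas (Pool.Agent.H66.M7.Chn.meas_dr hc k)).mono hk
    have m2 : ∀ k ≤ j, AdX B k0 n j
        (cp (Aj B w P k0 K n) (alO φ B w P k0 K n (F1 B k0 n ρ1) r1 ρ e0) k) := fun k hk =>
      (ad_of_meas (Pool.Agent.H66.M7.Chn.meas_cp hc k)).mono hk
    refine MeasurableSet.union ?_ (MeasurableSet.union ?_ (meas_RO hij))
    · exact ((m1 j le_rfl).comp2 (m1 i hij.le) (fun x y => δ ≤ |x - y|)).set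
    · exact ((m2 j le_rfl).comp2 (m2 i hij.le) (fun x y => δ ≤ x - y)).set
  · intro i j hij _ ω h1 h2
    exact hM.hstep _ i j hij ω h1 h2

end Pool.Agent.H82.Q1.M7
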