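import Mathlib
import Pool.Agent.H82.Q1.M7.Asm2

set_option autoImplicit false
open Set Filter Topology Metric MeasureTheory ProbabilityTheory

/-! # J24, first half: the chain of one configuration exists -/

namespace Pool.Agent.H82.Q1.M7

open Pool.Agent.H75.Perc Pool.Agent.H75.TwoArm Pool.Agent.H75.Four Pool.Agent.H69.Q1
open Pool.Agent.H81.Q1 (pt DDomain Approx IsJordanDomain IsArcs)
open Pool.Agent.Q1.M3
open Pool.Agent.Q1.M3.Pg (SD)
open Pool.Agent.H4.Q1.M7 (Om PO gS MicroAt T_mono AdX FX Aj Wj Mj ad_T cor_of_Hi ad_gS ad_SDj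
  Lrg ad_of_meas)
open Pool.Agent.H11.M7 (gp)
open Pool.Agent.H66.M7 (rc F1 ad_F1 not_fin Chn dr cp ws ts qs Stp On m2 kap kc a1 a2 a3 ws_eq)
open Pool.Agent.H83.M7 (HasPsi psiX AX zX WX sa1 sa2 sa3)
open H37.M7 H37.Levy

variable {D : Set ℂ} {a b : ℂ} {A₁ A₂ : Set ℂ} {A : Approx D a b A₁ A₂} {r0 : ℝ}
  {φ : ℂ → ℂ} {B : Base A r0} {w : Win B} {P : Par B} {k0 K n : ℕ}

/-- No state of the last index is far from `b`. -/
lemma not_last {r1 ρ e0 : ℝ} {F0 : Set (Om (X0 A n).E)} (hDb : Bornology.IsBounded D)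
    (hReg : B.Reg k0 k0 n) (hN : ∀ v ∈ B.N n, pt (A.δ n) v ∈ Metric.ball b r0)
    (hr : r0 + A.δ n ≤ r1) (ω : Om (X0 A n).E) :
    ω ∉ gS B k0 n F0 r1 ρ e0 (cells D B.o k0).card := fun h =>
  not_fin hN hr ω.sub (h.2.1 _ le_rfl) (B.fin_all hDb hReg ω.sub)

/-- Displacements after steps which are not large. -/
lemma disp_le {r ρ e0 : ℝ} {F0 : Set (Om (X0 A n).E)} {ω : Om (X0 A n).E} {j i : ℕ}
    (h : ω ∈ gS B k0 n F0 r ρ e0 j) (hi : 1 ≤ i) (hij : i ≤ j) {u : ℕ}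
    (hu : B.T k0 n i ω.1 ≤ u) (hu' : u ≤ B.T k0 n (i + 1) ω.1) :
    dist (gp A n ω.1 u) (gp A n ω.1 (B.T k0 n i ω.1)) ≤ e0 := by
  by_contra h1
  exact h.2.2.2 i hi hij ⟨u, hu, hu', not_le.1 h1⟩

/-- The step which contains a time. -/
lemma exists_step {T : ℕ → ℕ} {i j u : ℕ} (hij : i < j) (hu : T i ≤ u) (hu' : u ≤ T j) :
    ∃ m, i ≤ m ∧ m < j ∧ T m ≤ u ∧ u ≤ T (m + 1) := by
  induction j with
  | zero => omega
  | succ j ih =>
    rcases Nat.lt_or_ge u (T j) with h1 | h1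
    · rcases Nat.lt_or_ge i j with h2 | h2
      · obtain ⟨m, h3, h4, h5⟩ := ih h2 h1.le
        exact ⟨m, h3, by omega, h5⟩
      · have h3 : i = j := by omega
        rw [h3] at hu
        omega
    · exact ⟨j, by omega, by omega, h1, hu'⟩

/-- **The chain of one configuration.** -/
theorem cdata_of_run {ε κ Y r1 r2 ρ1 al0 ρ e0 δ : ℝ} (hDb : Bornology.IsBounded D)
    (hF : Facts φ ε κ Y r1 ρ1 al0 B w P k0 K n ρ)
    {pz : ℝ → ℝ} {C0 : ℝ} {q : ℤ} {C ε' : ℝ}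
    (hM : MicroAt B w P k0 K n pz C0 q r1 r2 ρ e0 C ε')
    (hReg : B.Reg k0 k0 n) (hN : ∀ v ∈ B.N n, pt (A.δ n) v ∈ Metric.ball b r0)
    (hr : r0 + A.δ n ≤ r1) (hε : 0 < ε) (hε1 : ε ≤ 1) (hκ : κ ≤ ε)
    (hY : ε⁻¹ ≤ Y) (hρ1 : ρ1 ≤ ε) (hδ : 0 < δ) (hδε : 2 * δ ≤ ε)
    (he : e0 + δ ≤ ε) (hr2 : r2 + 2 * e0 ≤ ε) (ω : Om (X0 A n).E)
    {Av : ℕ → Om (X0 A n).E → ℂ → ℂ} {Wv : ℕ → Om (X0 A n).E → ℝ} {alv : Om (X0 A n).E → ℝ}
    {g bb : ℕ → Set (Om (X0 A n).E)} {w' t' q' : ℕ → Om (X0 A n).E → ℝ} {T0 M0 : ℝ} {m : ℕ}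
    {σ : ℕ → ℕ}
    (hg : ∀ j, g j = gS B k0 n (F1 B k0 n ρ1) r1 ρ e0 j)
    (hb : ∀ j, bb j = gS B k0 n (F1 B k0 n ρ1) r2 ρ e0 j)
    (hAv : ∀ j, Av j ω = AX B w (SDj B P k0 K n j ω.1))
    (hWv : ∀ j, Wv j ω = WX B w (SDj B P k0 K n j ω.1))
    (hal : alv ω = alX φ B w (SDj B P k0 K n 0 ω.1))
    (run : CRun g bb Av Wv alv δ (RO B k0 n δ) T0 M0 w' t' q' ω m σ)
    (hT0 : T0 = ε⁻¹) (hM0 : M0 = ε⁻¹) (h0 : ω ∈ bb 0)
    (hq : ∑ k ∈ Finset.range m, q' k ω ≤ ε) :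
    ∃ (μ : ℕ → ℝ) (G : ℕ → Set ℂ) (Z : ℕ → ℂ → ℂ) (Tx : ℕ → ℕ),
      CData A φ ε n ω.1 m (fun j => t' j ω) (fun j => w' j ω) μ G Z Tx := by
  have htX : ∀ k, tX φ B w (SDj B P k0 K n 0 ω.1) (SDj B P k0 K n k ω.1) = cp Av alv k ω := by
    intro k
    unfold tX cp
    rw [hal, hAv, hAv]
  have hVX : ∀ k, VX φ B w (SDj B P k0 K n 0 ω.1) (SDj B P k0 K n k ω.1) = dr Wv alv k ω := by
    intro k
    unfold VX dr
    rw [hal, hWv, hWv]
  have hgood : ∀ k ≤ m, ω ∈ gS B k0 n (F1 B k0 n ρ1) r1 ρ e0 (σ k) := fun k hk => by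
    have := run.good k hk
    rwa [hg] at this
  have hon : ∀ k < m, ∀ i, σ k ≤ i → i < σ (k + 1) →
      ω ∈ gS B k0 n (F1 B k0 n ρ1) r2 ρ e0 i := fun k hk i hi hi' => by
    have := run.on k hk i hi hi'
    rwa [hb] at this
  refine ⟨_, _, _, _, (cdata_of (J := m) (σ := σ) (F0 := F1 B k0 n ρ1) hDb hF hM
    hReg hN hr hε hε1 hκ hY hρ1 ω ?_ run.zero run.lt hgood hon ?_ ?_ ?_ ?_).congr ?_ ?_⟩
  · have := hgood 0 (Nat.zero_le _)
    exact this.1
  · intro k hk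
    rw [htX, htX]
    exact (run.smallt k hk).trans hδε
  · -- moments
    refine le_trans (le_of_eq ?_) hq
    refine Finset.sum_congr rfl fun k hk => ?_
    rw [run.valq k (Finset.mem_range.1 hk)]
    unfold μX sa1 sa2 sa3
    rw [hal, hAv, hAv, hWv]
  · -- displacement
    intro k hk u hu hu'
    obtain ⟨i, h1, h2, h3, h4⟩ := exists_step (T := fun i => B.T k0 n (i + 1) ω.1)
      (run.lt k hk) hu hu'
    have h5 := disp_le (i := i + 1) (hgood (k + 1) hk) (by omega) (by omega) h3 h4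
    rcases h1.eq_or_lt with h6 | h6
    · rw [h6]
      linarith
    · have h7 := run.btw k hk i h6 h2
      unfold RO at h7
      rw [Set.mem_ofPred_eq, not_le, dist_comm] at h7
      have h8 := dist_triangle (gp A n ω.1 u) (gp A n ω.1 (B.T k0 n (i + 1) ω.1))
        (gp A n ω.1 (B.T k0 n (σ k + 1) ω.1))
      linarith
  · -- end
    rcases run.fin with h1 | h1 | h1
    · right; right
      rw [hb] at h1
      have h2 := hgood m le_rfl
      have hm : 0 < σ m := by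
        by_contra h3
        have h4 : σ m = 0 := by omega
        rw [h4] at h1
        rw [hb] at h0
        exact h1 h0
      have hm' : 0 < m := by
        rcases Nat.eq_zero_or_pos m with h3 | h3
        · rw [h3, run.zero] at hm
          omega
        · exact h3
      have h3 : ω ∈ gS B k0 n (F1 B k0 n ρ1) r2 ρ e0 (σ m - 1) := by
        have h4 := run.lt (m - 1) (by omega)
        rw [show m - 1 + 1 = m by omega] at h4
        exact hon (m - 1) (by omega) (σ m - 1) (by omega) (by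
          rw [show m - 1 + 1 = m by omega]; omega)
      have h4 : ∃ t ≤ B.T k0 n (σ m + 1) ω.1, dist (gp A n ω.1 t) b < r2 := by
        by_contra h5
        push Not at h5
        exact h1 ⟨h2.1, h5, h2.2.2⟩
      obtain ⟨t, ht, h5⟩ := h4
      have h6 : B.T k0 n (σ m) ω.1 ≤ t := by
        by_contra h7
        have h8 := h3.2.1 t (by
          rw [show σ m - 1 + 1 = σ m by omega]; exact (not_le.1 h7).le)
        exact absurd h5 (not_lt.2 h8)
      have h7 := disp_le h2 hm le_rfl h6 ht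
      have h8 := disp_le h2 hm le_rfl (T_mono (Nat.le_succ _)) le_rfl
      have h9 := dist_triangle (gp A n ω.1 (B.T k0 n (σ m + 1) ω.1))
        (gp A n ω.1 (B.T k0 n (σ m) ω.1)) b
      have h10 := dist_triangle_left (gp A n ω.1 (B.T k0 n (σ m) ω.1)) b (gp A n ω.1 t)
      linarith
    · right; left
      rw [hVX, ← hM0]
      exact h1.le
    · left
      rw [htX, ← hT0]
      exact h1.le
  · intro j hj
    rw [htX, run.valt j hj]
  · intro j hj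
    rw [hVX, run.valw j hj]

end Pool.Agent.H82.Q1.M7
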