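import Mathlib
import Pool.Agent.H82.Q1.M7.Asm1
import Pool.Agent.H82.Q1.M7.Cnt

set_option autoImplicit false
open Set Filter Topology MeasureTheory ProbabilityTheory

/-! # J24, first half: the coarse array -/

namespace Pool.Agent.H82.Q1.M7

open Pool.Agent.H66.M7
open H37.Levy
open H37.M7

/-- The conclusion of the array theorem. -/
def ArrAt (l a0 M al0 s Cn η Kc : ℝ) : Prop :=
  ∀ (Ω : Type) (m0 : MeasurableSpace Ω) (P : Measure Ω)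
    (_ : IsProbabilityMeasure P) (G : Filtration ℕ m0) (ε T0 M0 : ℝ) (q : ℕ → ℝ) (J : ℕ)
    (A : ℕ → Ω → ℂ → ℂ) (W : ℕ → Ω → ℝ) (Mt : ℕ → ℕ → Ω → ℝ) (g b : ℕ → Set Ω)
    (al : Ω → ℝ), Chn P G l a0 M al0 s ε q J A W Mt g b al → 0 ≤ T0 → 0 ≤ M0 →
    Raw (ws A W al g b T0 M0) (ts A W al g b T0 M0) G P 6 T0 M0 Kc
      (fun j => Kc * dl Cn s ε η q j) (fun j => Kc * dl Cn s ε η q j) J ∧
    ∀ δ : ℝ, 0 ≤ δ → δ ≤ 1 / 2 →
      ∫ ω in (LARGE (ws A W al g b T0 M0) (ts A W al g b T0 M0) δ J)ᶜ,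
          ∑ j ∈ Finset.range J, qs A W al g b T0 M0 j ω ∂P
        ≤ 56 * δ * (T0 + 1) + Kc * (∑ j ∈ Finset.range J, dl Cn s ε η q j
          + P.real (LARGE (ws A W al g b T0 M0) (ts A W al g b T0 M0) δ J))

section

variable {Ω : Type} {m0 : MeasurableSpace Ω} {P : Measure Ω} [IsProbabilityMeasure P]
  {G : Filtration ℕ m0}
  {l a0 M al0 s ε C Cn η Kc : ℝ} {q : ℕ → ℝ} {J : ℕ} {A : ℕ → Ω → ℂ → ℂ} {W : ℕ → Ω → ℝ}
  {Mt : ℕ → ℕ → Ω → ℝ} {g b : ℕ → Set Ω} {al : Ω → ℝ} {δ T0 M0 θ : ℝ} {R : ℕ → ℕ → Set Ω}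

/-- **The coarse array.** -/
theorem arr_abs (h : CHyp P G l a0 M al0 s ε C q J A W Mt g b al (Cnd A W al δ R))
    (HA : ArrAt l a0 M al0 s Cn η Kc) (hKc : 0 ≤ Kc) (hCn : 0 ≤ Cn)
    (hT0 : 0 ≤ T0) (hM0 : 0 ≤ M0) (hδ0 : 0 ≤ δ) (hδ1 : 2 * δ ≤ 1 / 2)
    (hsm : ∀ j ω,
      ω ∉ Lg (ws A W al g b (T0 + 1) (M0 + 1)) (ts A W al g b (T0 + 1) (M0 + 1)) δ j)
    (hfb : P.real (FB J g b) ≤ θ) (N : ℕ) :
    ∃ e : ℕ → ℝ, Arr (cws J g b A W al δ R T0 M0) (cts J g b A W al δ R T0 M0) (cG J h.cm) P 6 T0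
      M0 (2 * δ) e e N ∧
    ∑ j ∈ Finset.range N, e j ≤
      Kc * (N * (Cn / s ^ 4 * (2 * ε) + η) + Cn / s ^ 4 * (2 * C * θ)) ∧
    ∫ ω, ∑ j ∈ Finset.range N, cqs J g b A W al δ R T0 M0 j ω ∂P ≤
      112 * δ * (T0 + 1) + ∑ j ∈ Finset.range N, e j := by
  have hco := coarse h N
  obtain ⟨hraw, hmom⟩ := HA Ω m0 P inferInstance _ _ _ _ _ _ _ _ _ _ _ _ hco hT0 hM0
  have hLg : ∀ k ω, ω ∉ Lg (cws J g b A W al δ R T0 M0) (cts J g b A W al δ R T0 M0) (2 * δ) k :=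
    fun k ω => coarse_Lg h.chn.bg hδ0 (by linarith) (fun j => hsm j ω) k
  refine ⟨_, arr_of_raw hraw (by linarith) (by linarith) fun j _ ω => hLg j ω, ?_, ?_⟩
  · rw [← Finset.mul_sum]
    refine mul_le_mul_of_nonneg_left ?_ hKc
    unfold dl
    rw [Finset.sum_add_distrib, Finset.sum_const, Finset.card_range, nsmul_eq_mul,
      ← Finset.mul_sum, Finset.sum_add_distrib, Finset.sum_const, Finset.card_range, nsmul_eq_mul]
    have h1 := (sum_cq h N).trans (mul_le_mul_of_nonneg_left hfb (by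
      have := h.C0; positivity : 0 ≤ 2 * C))
    have h2 : 0 ≤ Cn / s ^ 4 := by positivity
    have h3 := mul_le_mul_of_nonneg_left h1 h2
    nlinarith
  · have h1 := hmom (2 * δ) (by linarith) hδ1
    have h2 : LARGE (cws J g b A W al δ R T0 M0) (cts J g b A W al δ R T0 M0) (2 * δ) N = ∅ := by
      ext ω
      simp only [LARGE, Set.mem_ofPred_eq, Set.mem_empty_iff_false, iff_false, not_exists, not_and]
      exact fun k _ => hLg k ω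
    unfold cws cts at h2
    rw [h2, Set.compl_empty, setIntegral_univ, measureReal_empty, add_zero] at h1
    refine h1.trans (le_of_eq ?_)
    rw [← Finset.mul_sum]
    ring

open Classical in
/-- **Probability of a run.** -/
theorem run_abs (h : CHyp P G l a0 M al0 s ε C q J A W Mt g b al (Cnd A W al δ R))
    (HA : ArrAt l a0 M al0 s Cn η Kc) (hKc : 0 ≤ Kc) (hCn : 0 ≤ Cn)
    (hT0 : 0 ≤ T0) (hM0 : 0 ≤ M0) (hδ0 : 0 < δ) (hδ1 : 2 * δ ≤ 1 / 2)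
    (hsm : ∀ j ω,
      ω ∉ Lg (ws A W al g b (T0 + 1) (M0 + 1)) (ts A W al g b (T0 + 1) (M0 + 1)) δ j)
    (hlast : ∀ ω, ω ∉ b J) (hint : ∀ f : Ω → ℝ, Integrable f P)
    (hfb : P.real {ω | ω ∉ b 0 ∨ ∃ j, ω ∈ b j ∧ ω ∉ g (j + 1)} ≤ θ) {N1 N2 : ℕ} (hN1 : 0 < N1)
    {θ1 θ2 θ3 E ε1 : ℝ} (hε1 : 0 < ε1)
    (hE : Kc * ((N1 + N2 : ℕ) * (Cn / s ^ 4 * (2 * ε) + η) + Cn / s ^ 4 * (2 * C * θ)) ≤ E)
    (hθ1 : (7 * (T0 + 1) + E) / (δ ^ 2 * N1) ≤ θ1)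
    (hθ2 : P.real {ω | N2 ≤ ((Finset.range (N1 + N2)).filter fun k =>
      ω ∈ R (sg J b (Cnd A W al δ R) k ω) (sg J b (Cnd A W al δ R) (k + 1) ω)).card} ≤ θ2)
    (hθ3 : (112 * δ * (T0 + 1) + E) / ε1 ≤ θ3) :
    (∃ e : ℕ → ℝ, Arr (cws J g b A W al δ R T0 M0) (cts J g b A W al δ R T0 M0) (cG J h.cm) P 6 T0
      M0 (2 * δ) e e (N1 + N2) ∧ ∑ j ∈ Finset.range (N1 + N2), e j ≤ E) ∧
    P.real {ω | ¬ (ω ∈ b 0 ∧ ∃ m ≤ N1 + N2, CRun g b A W al δ R T0 M0 (cws J g b A W al δ R T0 M0)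
      (cts J g b A W al δ R T0 M0) (cqs J g b A W al δ R T0 M0) ω m
      (fun k => sg J b (Cnd A W al δ R) k ω) ∧
      ∑ k ∈ Finset.range m, cqs J g b A W al δ R T0 M0 k ω ≤ ε1)} ≤ θ + θ1 + θ2 + θ3 := by
  have hbg := h.chn.bg
  have hFB : P.real (FB J g b) ≤ θ := by
    refine (measureReal_mono ?_).trans hfb
    rintro ω ⟨j, -, h1, h2⟩
    exact Or.inr ⟨j, h1 j le_rfl, h2⟩
  obtain ⟨e, harr, hsum, hmom⟩ := arr_abs h HA hKc hCn hT0 hM0 hδ0.le hδ1 hsm hFB (N1 + N2)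
  have hsumE := hsum.trans hE
  refine ⟨⟨e, harr, hsumE⟩, ?_⟩
  -- the bad events
  set S1 := {ω | N1 ≤ ((Finset.range (N1 + N2)).filter fun k =>
    δ ≤ |cws J g b A W al δ R T0 M0 (k + 1) ω - cws J g b A W al δ R T0 M0 k ω| ∨
    δ ≤ cts J g b A W al δ R T0 M0 (k + 1) ω - cts J g b A W al δ R T0 M0 k ω).card} with hS1
  have h1 : P.real S1 ≤ θ1 := by
    refine (count_steps harr hδ0 (by linarith) hN1).trans (le_trans ?_ hθ1)
    have h2 : (0 : ℝ) < δ ^ 2 * N1 := by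
      have : (0 : ℝ) < N1 := by exact_mod_cast hN1
      positivity
    refine div_le_div_of_nonneg_right ?_ h2.le
    linarith
  set S3 := {ω | ε1 ≤ ∑ j ∈ Finset.range (N1 + N2), cqs J g b A W al δ R T0 M0 j ω} with hS3
  have hco := coarse h (N1 + N2)
  have hq0 : ∀ j < N1 + N2, ∀ ω, 0 ≤ cqs J g b A W al δ R T0 M0 j ω := fun j hj ω =>
    hco.qs_nonneg hj ω
  have h3 : P.real S3 ≤ θ3 := by
    have hpos : ∀ ω, 0 ≤ ∑ j ∈ Finset.range (N1 + N2), cqs J g b A W al δ R T0 M0 j ω := fun ω =>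
      Finset.sum_nonneg fun j hj => hq0 j (Finset.mem_range.1 hj) ω
    have h4 := mul_meas_ge_le_integral_of_nonneg (μ := P) (Eventually.of_forall hpos) (hint _) ε1
    refine le_trans ?_ hθ3
    rw [le_div_iff₀ hε1, mul_comm]
    exact h4.trans (hmom.trans (by linarith))
  refine (measureReal_mono (?_ : _ ⊆ ({ω | ω ∉ b 0 ∨ ∃ j, ω ∈ b j ∧ ω ∉ g (j + 1)} ∪ S1 ∪
    {ω | N2 ≤ ((Finset.range (N1 + N2)).filter fun k =>
      ω ∈ R (sg J b (Cnd A W al δ R) k ω) (sg J b (Cnd A W al δ R) (k + 1) ω)).card}) ∪ S3)).trans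
    ((measureReal_union_le _ _).trans (add_le_add ((measureReal_union_le _ _).trans
      (add_le_add ((measureReal_union_le _ _).trans (add_le_add hfb h1)) hθ2)) h3))
  intro ω hω
  by_contra hcon
  simp only [Set.mem_union, not_or] at hcon
  obtain ⟨⟨⟨c1, c2⟩, c3⟩, c4⟩ := hcon
  rw [Set.mem_ofPred_eq, not_or, not_not, not_exists] at c1
  rw [hS1, Set.mem_ofPred_eq, not_le] at c2
  rw [Set.mem_ofPred_eq, not_le] at c3
  rw [hS3, Set.mem_ofPred_eq, not_le] at c4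
  obtain ⟨m, hm, hrun⟩ := exists_run hbg hT0 hM0 hδ0.le (by linarith) (fun j => hsm j ω) c1.1
    (fun j hj => by
      by_contra h5
      exact c1.2 j ⟨hj, h5⟩) (hlast ω) c2 c3
  refine hω ⟨c1.1, m, hm, hrun, ?_⟩
  refine (Finset.sum_le_sum_of_subset_of_nonneg (Finset.range_mono hm) fun j hj _ =>
    hq0 j (Finset.mem_range.1 hj) ω).trans c4.le

end

end Pool.Agent.H82.Q1.M7
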