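import Mathlib
import Pool.Agent.H82.Q1.M7.Asm3
import Pool.Agent.H82.Q1.M7.Asm4

set_option autoImplicit false
open Set Filter Topology Metric MeasureTheory ProbabilityTheory

/-! # J24, first half: the statement `Qd` at a fixed index -/

namespace Pool.Agent.H82.Q1.M7

open Pool.Agent.H75.Perc Pool.Agent.H75.TwoArm Pool.Agent.H75.Four Pool.Agent.H69.Q1
open Pool.Agent.H81.Q1 (pt DDomain Approx IsJordanDomain IsArcs)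
open Pool.Agent.Q1.M3
open Pool.Agent.Q1.M3.Pg (SD)
open Pool.Agent.H4.Q1.M7 (Om PO gS MicroAt T_mono AdX FX Aj Wj Mj ad_T cor_of_Hi ad_gS ad_SDj
  Lrg ad_of_meas integrable_PO)
open Pool.Agent.H11.M7 (gp)
open Pool.Agent.H66.M7 (rc F1 ad_F1 not_fin Chn dr cp ws ts qs Stp On m2 kap kc a1 a2 a3 ws_eq)
open Pool.Agent.H83.M7 (HasPsi psiX AX zX WX sa1 sa2 sa3)
open H37.M7 H37.Levy

variable {D : Set ℂ} {a b : ℂ} {A₁ A₂ : Set ℂ} {A : Approx D a b A₁ A₂} {r0 : ℝ}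
  {φ : ℂ → ℂ} {B : Base A r0} {w : Win B} {P : Par B} {k0 K n : ℕ}

open Classical in
/-- **The statement `Qd` at a fixed index.** -/
theorem qd_at {ε κ Y r1 r2 ρ1 al0 ρ e0 δ : ℝ} (hDb : Bornology.IsBounded D)
    (hF : Facts φ ε κ Y r1 ρ1 al0 B w P k0 K n ρ)
    {pz : ℝ → ℝ} {C0 : ℝ} {q : ℤ} {C ε' : ℝ}
    (hM : MicroAt B w P k0 K n pz C0 q r1 r2 ρ e0 C ε') (hC : 0 ≤ C)
    (hReg : B.Reg k0 k0 n) (hN : ∀ v ∈ B.N n, pt (A.δ n) v ∈ Metric.ball b r0)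
    (hr : r0 + A.δ n ≤ r1) (hr12 : r1 ≤ r2) (hε : 0 < ε) (hε1 : ε ≤ 1) (hκ : κ ≤ ε)
    (hY : ε⁻¹ ≤ Y) (hρ1 : ρ1 ≤ ε) (hal : 0 ≤ al0) (hδ : 0 < δ) (hδε : 2 * δ ≤ ε)
    (hδ1 : 2 * δ ≤ 1 / 2) (he : e0 + δ ≤ ε) (hr2 : r2 + 2 * e0 ≤ ε)
    (hsm : ∀ (al : Om (X0 A n).E → ℝ) (F0 : Set (Om (X0 A n).E)),
        (∀ ω, 0 ≤ al ω) → (∀ ω, al ω ≤ al0) → AdX B k0 n 0 al →
        AdX B k0 n 0 (fun ω => ω ∈ F0) → ∀ (T0 M0 : ℝ) (j : ℕ) (ω : Om (X0 A n).E),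
        ω ∉ Lg (ws (Aj B w P k0 K n) (Wj B w P k0 K n) al (gS B k0 n F0 r1 ρ e0)
            (gS B k0 n F0 r2 ρ e0) T0 M0)
          (ts (Aj B w P k0 K n) (Wj B w P k0 K n) al (gS B k0 n F0 r1 ρ e0)
            (gS B k0 n F0 r2 ρ e0) T0 M0) δ j)
    {Cn η Kc θ E : ℝ} (HA : ArrAt w.l (10 / w.l) (11 / w.l) al0 (q * mesh (w.k1 + 1)) Cn η Kc)
    (hKc : 0 ≤ Kc) (hCn : 0 ≤ Cn)
    (hfb : (PO (X0 A n).E).real {ω | ω ∉ gS B k0 n (F1 B k0 n ρ1) r2 ρ e0 0 ∨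
        ∃ j, ω ∈ gS B k0 n (F1 B k0 n ρ1) r2 ρ e0 j ∧
          ω ∉ gS B k0 n (F1 B k0 n ρ1) r1 ρ e0 (j + 1)} ≤ θ)
    {N1 N2 : ℕ} (hN1 : 0 < N1)
    (hc3 : Pr (X0 A n).E (fun ω => ∃ (K : ℕ) (T : ℕ → ℕ),
      (∀ k < K, T k ≤ T (k + 1)) ∧ T K ≤ (X0 A n).len ω ∧
      N2 ≤ ((Finset.range K).filter fun k =>
        δ ≤ dist (gp A n ω (T k)) (gp A n ω (T (k + 1)))).card) ≤ ε / 8)
    (hE : Kc * ((N1 + N2 : ℕ) * (Cn / (q * mesh (w.k1 + 1)) ^ 4 * (2 * ε') + η) +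
      Cn / (q * mesh (w.k1 + 1)) ^ 4 * (2 * C * θ)) ≤ E)
    (hE2 : 2 * E ≤ ε) (hθ : θ ≤ ε / 8)
    (hθ1 : (7 * (ε⁻¹ + 1) + E) / (δ ^ 2 * N1) ≤ ε / 8)
    (hθ3 : (112 * δ * (ε⁻¹ + 1) + E) / ε ≤ ε / 8) :
    Qd A φ ε n := by
  have hT0 : 0 ≤ ε⁻¹ := (inv_pos.2 hε).le
  set J := (cells D B.o k0).card with hJ
  have hch := chyp (δ := δ) hF hM hal hC J
  have hF1 := ad_F1 B k0 n ρ1
  have hsm' := hsm (alO φ B w P k0 K n (F1 B k0 n ρ1) r1 ρ e0) (F1 B k0 n ρ1)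
    (alO_nonneg (F1 B k0 n ρ1) r1 ρ e0) (alO_le hF hM hal) (ad_alO hF1 r1 ρ e0) hF1
    (ε⁻¹ + 1) (ε⁻¹ + 1)
  have hlast : ∀ ω, ω ∉ gS B k0 n (F1 B k0 n ρ1) r2 ρ e0 J := fun ω =>
    not_last hDb hReg hN (hr.trans hr12) ω
  obtain ⟨⟨e, harr, hsum⟩, hprob⟩ := run_abs (θ2 := ε / 8) hch HA hKc hCn hT0 hT0 hδ hδ1 hsm' hlast
    integrable_PO hfb hN1 hε hE hθ1 (by
      refine le_trans ?_ hc3
      rw [← Pool.Agent.H4.Q1.M7.real_PO]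
      refine measureReal_mono ?_
      intro ω hω
      refine ⟨N1 + N2, fun k => B.T k0 n (sg J (gS B k0 n (F1 B k0 n ρ1) r2 ρ e0)
        (CC φ B w P k0 K n ρ1 r1 ρ e0 δ) k ω + 1) ω.1, ?_, B.T_le_len ω.sub _, hω⟩
      intro k _
      exact T_mono (Nat.succ_le_succ sg_le_succ)) hθ3
  refine ⟨_, _, _, ε⁻¹, ε⁻¹, 2 * δ, e, e, N1 + N2, harr, by linarith, hδε, le_rfl, le_rfl, ?_, ?_⟩
  · unfold eps
    rw [Finset.sum_add_distrib]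
    linarith
  · refine (measureReal_mono ?_).trans (hprob.trans (by linarith))
    intro ω hω hcon
    obtain ⟨h0, m, hm, run, hq⟩ := hcon
    refine hω ⟨m, hm, ?_⟩
    refine cdata_of_run hDb hF hM hReg hN hr hε hε1 hκ hY hρ1 hδ hδε he hr2 ω (fun j => rfl)
      (fun j => rfl) (fun j => rfl) (fun j => rfl) ?_ run rfl rfl h0 hq
    unfold alO
    rw [if_pos (Pool.Agent.H4.Q1.M7.gS_anti hr12 0 h0)]

end Pool.Agent.H82.Q1.M7
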