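import Mathlib
import Pool.Agent.H82.Q1.M7.Asm5
import Pool.Agent.H79.M7.Gain
import Pool.Agent.H76.M7.Jump
import Pool.Agent.H76.M7.Unif
import Pool.Agent.H66.M7.Bad
import Pool.Agent.H5.M7.J20
import Pool.Agent.H5.M7.TipS
import Pool.Agent.H5.M7.Param

set_option autoImplicit false
open Set Filter Topology Metric MeasureTheory ProbabilityTheory

/-! # J24, first half -/

namespace Pool.Agent.H82.Q1.M7

open Pool.Agent.H75.Perc Pool.Agent.H75.TwoArm Pool.Agent.H75.Four Pool.Agent.H69.Q1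
open Pool.Agent.H81.Q1 (pt DDomain Approx IsJordanDomain IsArcs)
open Pool.Agent.Q1.M3
open Pool.Agent.Q1.M3.Pg (SD)
open Pool.Agent.Q1.M5 (StPz)
open Pool.Agent.H82.Q1 (HH cHH IsChart)
open Pool.Agent.H4.Q1.M7 (Om PO gS MicroAt micro micro_small)
open Pool.Agent.H11.M7 (gp count3)
open Pool.Agent.H66.M7 (F1 first_bad)
open Pool.Agent.H5.M7 (chart_ab)

variable {D : Set ℂ} {a b : ℂ} {A₁ A₂ : Set ℂ} {φ : ℂ → ℂ}

lemma const_δ {ε : ℝ} (hε : 0 < ε) : ∃ δ > 0, δ ≤ ε / 8 ∧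
    (112 * δ * (ε⁻¹ + 1) + ε ^ 2 / 16) / ε ≤ ε / 8 := by
  have h1 : 0 < ε⁻¹ + 1 := by positivity
  refine ⟨min (ε / 8) (ε ^ 2 / (1792 * (ε⁻¹ + 1))), lt_min (by positivity) (by positivity),
    min_le_left _ _, ?_⟩
  rw [div_le_iff₀ hε]
  have h2 : 112 * min (ε / 8) (ε ^ 2 / (1792 * (ε⁻¹ + 1))) * (ε⁻¹ + 1) ≤ ε ^ 2 / 16 := by
    calc 112 * min (ε / 8) (ε ^ 2 / (1792 * (ε⁻¹ + 1))) * (ε⁻¹ + 1)
        ≤ 112 * (ε ^ 2 / (1792 * (ε⁻¹ + 1))) * (ε⁻¹ + 1) := by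
          gcongr
          exact min_le_right _ _
      _ = ε ^ 2 / 16 := by field_simp; norm_num
  nlinarith

lemma const_N {x δ ε : ℝ} (hδ : 0 < δ) (hε : 0 < ε) :
    ∃ N : ℕ, 0 < N ∧ x / (δ ^ 2 * N) ≤ ε / 8 := by
  obtain ⟨N, hN⟩ := exists_nat_gt (max 0 (8 * x / (δ ^ 2 * ε)))
  have h0 : (0 : ℝ) < N := (le_max_left _ _).trans_lt hN
  refine ⟨N, by exact_mod_cast h0, ?_⟩
  have h1 := (le_max_right _ _).trans hN.le
  rw [div_le_iff₀ (by positivity)] at h1 ⊢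
  nlinarith

lemma const_E {K N X C E ε' η θ : ℝ} (hK : 0 ≤ K) (hN : 0 ≤ N) (hX : 0 ≤ X) (hC : 0 ≤ C)
    (hE : 0 < E) (h1 : ε' ≤ E / (6 * (K + 1) * (N + 1) * (X + 1)))
    (h2 : η ≤ E / (3 * (K + 1) * (N + 1))) (h3 : θ ≤ E / (6 * (K + 1) * (X + 1) * (C + 1))) :
    K * (N * (X * (2 * ε') + η) + X * (2 * C * θ)) ≤ E := by
  have hk : K / (K + 1) ≤ 1 := (div_le_one (by positivity)).2 (by linarith)
  have hn : N / (N + 1) ≤ 1 := (div_le_one (by positivity)).2 (by linarith)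
  have hx : X / (X + 1) ≤ 1 := (div_le_one (by positivity)).2 (by linarith)
  have hc : C / (C + 1) ≤ 1 := (div_le_one (by positivity)).2 (by linarith)
  have hk0 : 0 ≤ K / (K + 1) := by positivity
  have hn0 : 0 ≤ N / (N + 1) := by positivity
  have hx0 : 0 ≤ X / (X + 1) := by positivity
  have hc0 : 0 ≤ C / (C + 1) := by positivity
  have e1 : K * (N * (X * (2 * ε'))) ≤ E / 3 := by
    calc K * (N * (X * (2 * ε'))) ≤
        K * (N * (X * (2 * (E / (6 * (K + 1) * (N + 1) * (X + 1)))))) := by gcongr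
      _ = E / 3 * ((K / (K + 1)) * ((N / (N + 1)) * (X / (X + 1)))) := by field_simp; ring
      _ ≤ E / 3 * 1 := by
          gcongr
          exact mul_le_one₀ hk (by positivity) (mul_le_one₀ hn hx0 hx)
      _ = E / 3 := mul_one _
  have e2 : K * (N * η) ≤ E / 3 := by
    calc K * (N * η) ≤ K * (N * (E / (3 * (K + 1) * (N + 1)))) := by gcongr
      _ = E / 3 * ((K / (K + 1)) * (N / (N + 1))) := by field_simp
      _ ≤ E / 3 * 1 := by
          gcongr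
          exact mul_le_one₀ hk hn0 hn
      _ = E / 3 := mul_one _
  have e3 : K * (X * (2 * C * θ)) ≤ E / 3 := by
    calc K * (X * (2 * C * θ)) ≤ K * (X * (2 * C * (E / (6 * (K + 1) * (X + 1) * (C + 1))))) := by
          gcongr
      _ = E / 3 * ((K / (K + 1)) * ((X / (X + 1)) * (C / (C + 1)))) := by field_simp; ring
      _ ≤ E / 3 * 1 := by
          gcongr
          exact mul_le_one₀ hk (by positivity) (mul_le_one₀ hx hc0 hc)
      _ = E / 3 := mul_one _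
  nlinarith

/-- **J24, first half.** -/
theorem qd_of (hJ : IsJordanDomain D) (hA : IsArcs D a b A₁ A₂) (h : IsChart D a b φ)
    (A : Approx D a b A₁ A₂) (hKC : StKC D a b φ) (hNB : StNB A) {pz : ℝ → ℝ} {C0 : ℝ}
    (hC0 : 0 < C0) (hpz : StPz pz)
    (hObs : ∀ r0 > 0, ∀ (B : Base A r0) (w : Win B), StObs B w pz C0) :
    ∀ ε > 0, ∀ᶠ n in atTop, Qd A φ ε n := by
  intro ε00 hε00
  have hab : a ≠ b := chart_ab h
  have hd : 0 < dist a b := dist_pos.2 hab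
  set ε : ℝ := min ε00 (min 1 (dist a b / 2)) with hεd
  have hε : 0 < ε := lt_min hε00 (lt_min one_pos (by linarith))
  have hε1 : ε ≤ 1 := (min_le_right _ _).trans (min_le_left _ _)
  have hεab : ε ≤ dist a b / 2 := (min_le_right _ _).trans (min_le_right _ _)
  suffices hs : ∀ᶠ n in atTop, Qd A φ ε n from hs.mono fun n hn => hn.mono hε (min_le_left _ _)
  have hDo : IsOpen D := hJ.1
  have hDc : IsConnected D := hJ.2.1
  have hDb : Bornology.IsBounded D := hJ.2.2.1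
  have hfr : ∀ x ∈ frontier D, x ∉ D := by
    intro x hx hxD
    rw [hDo.frontier_eq] at hx
    exact hx.2 hxD
  have ha : a ∉ D := hfr a (hA.union ▸ Or.inl (hA.inter ▸ Or.inl rfl : a ∈ A₁ ∩ A₂).1)
  have hb : b ∉ D := hfr b (hA.union ▸ Or.inl (hA.inter ▸ Or.inr rfl : b ∈ A₁ ∩ A₂).1)
  have hA1f : A₁ ⊆ frontier D := fun x hx => hA.union ▸ Or.inl hx
  have hA1n : A₁.Nonempty := ⟨a, (hA.inter ▸ Or.inl rfl : a ∈ A₁ ∩ A₂).1⟩
  have hpz' : ∀ᶠ n in atTop, 0 < pz (A.δ n)⁻¹ := Eventually.of_forall fun n => hpz.1 _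
  -- radii
  set r1 : ℝ := min (ε / 16) (dist a b / 16) with hr1d
  have hr1 : 0 < r1 := lt_min (by linarith) (by linarith)
  have hr1ε : r1 ≤ ε / 16 := min_le_left _ _
  have hr1ab : r1 ≤ dist a b / 16 := min_le_right _ _
  obtain ⟨κ, Y, hκ0, hκε, hYε, r0, hr0, hr0r, B, w, al0, hSide, hwl, hal0, hfacts⟩ :=
    exists_facts hJ hA h A hKC hNB (Pool.Agent.H5.M7.stWin φ A)
      (fun _ _ B w => Pool.Agent.H5.M7.stGeo B w) (fun _ _ B w => Pool.Agent.H5.M7.stVis B w)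
      (fun _ _ B w => Pool.Agent.H5.M7.stTip φ B w) hε hr1 (by linarith)
  have hl := w.l0
  have hr01 : r0 < r1 := by linarith
  -- array
  obtain ⟨Kc, hKc, HA⟩ := Pool.Agent.H66.M7.array.{0} (l := w.l) (a0 := 10 / w.l)
    (M := 11 / w.l) (al0 := al0) hl (by positivity) (by positivity) hal0
  obtain ⟨δ, hδ, hδε, hθ3⟩ := const_δ hε
  set E : ℝ := ε ^ 2 / 16 with hEd
  have hE : 0 < E := by positivity
  obtain ⟨N1, hN1, hN1'⟩ := const_N (x := 7 * (ε⁻¹ + 1) + E) hδ hε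
  obtain ⟨N2, hN2⟩ := count3 hDb hDc.nonempty hA A hδ (show 0 < ε / 8 by linarith)
  set N : ℝ := ((N1 + N2 : ℕ) : ℝ) with hNd
  have hN0 : 0 ≤ N := Nat.cast_nonneg _
  set η : ℝ := E / (3 * (Kc + 1) * (N + 1)) with hη
  have hη0 : 0 < η := by positivity
  obtain ⟨Cn, hCn, s0, hs0, hs01, hs0l, HA'⟩ := HA η hη0
  obtain ⟨s1, hs1, Hsm⟩ := micro_small (A := A) (r0 := r0) (pz := pz) (C0 := C0) (al0 := al0)
    (δ := δ) (l := w.l) hC0 hal0 hδ hl hpz'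
  -- window
  obtain ⟨k', hk', hk'1⟩ := Pool.Agent.H5.M7.exists_mesh_lt (lt_min hs0 hs1) w.k1
  have hm0 : mesh (k' + 1) ≤ s0 := hk'1.le.trans (min_le_left _ _)
  have hm1 : mesh (k' + 1) ≤ s1 := hk'1.le.trans (min_le_right _ _)
  have hmp := mesh_pos (k' + 1)
  set w' : Win B := w.refine k' hk'.le with hw'd
  have hw' : Same w w' := w.refine_same k' hk'.le
  have hq1 : (((1 : ℤ) : ℝ)) * mesh (w'.k1 + 1) = mesh (k' + 1) := by
    rw [hw'd, Win.refine_k1]; simp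
  have hwl' : w'.l = w.l := rfl
  have hql : 5 * (((1 : ℤ) : ℝ) * mesh (w'.k1 + 1)) < w'.l := by
    rw [hq1, hwl']; linarith
  have hSide' : w'.Side := by
    unfold Win.Side
    rw [hw'.p, hw'.l, hw'.k]; exact hSide
  have hJump' : StJump B w' pz := Pool.Agent.H76.M7.stJump B w' hpz hDo hA1f hA1n hb
  obtain ⟨e2, he2, ε2, hε2, Hsm'⟩ := Hsm (B := B) (w := w') rfl hJump' hr01 (q := 1) one_pos
    (by rw [hq1]; exact hm1) hql
  obtain ⟨C, hC, e1, he1, Hm⟩ := micro hJ hab hA hC0 hpz' hSide' (hObs r0 hr0 B w')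
    (Pool.Agent.H5.M7.stGeo B w') (Pool.Agent.H76.M7.stUnif w' hpz hDo hA1f hA1n hb)
    (Pool.Agent.H66.M7.stBad w' hpz hDo hA1f hA1n hb) (r1 := r1) (by rw [hwl']; linarith)
    (q := 1) one_pos hql
  set e0 : ℝ := min (min e1 e2) (min r1 (ε / 4)) with he0d
  have he0 : 0 < e0 := lt_min (lt_min he1 he2) (lt_min hr1 (by linarith))
  have he01 : e0 ≤ e1 := (min_le_left _ _).trans (min_le_left _ _)
  have he02 : e0 ≤ e2 := (min_le_left _ _).trans (min_le_right _ _)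
  have he0r : e0 ≤ r1 := (min_le_right _ _).trans (min_le_left _ _)
  have he0ε : e0 ≤ ε / 4 := (min_le_right _ _).trans (min_le_right _ _)
  set X : ℝ := Cn / (((1 : ℤ) : ℝ) * mesh (w'.k1 + 1)) ^ 4 with hX
  have hX0 : 0 ≤ X := by rw [hX, hq1]; positivity
  obtain ⟨ρ1, hρ1, hρ1ε, HF⟩ := hfacts w' hw'
  set θ : ℝ := min (ε / 8) (E / (6 * (Kc + 1) * (X + 1) * (C + 1))) with hθ
  have hθ0 : 0 < θ := lt_min (by linarith) (by positivity)
  obtain ⟨k00, Hfb⟩ := first_bad hJ hA B (Pool.Agent.H79.M7.stGain hJ hA A hab B) (r1 := r1)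
    (ρ1 := ρ1) (e0 := e0) (θ := θ) hr01 (by linarith) hρ1 he0 hθ0
  set k0 : ℕ := max k00 (max B.qb.1 w'.q.1) with hk0
  have hk01 : B.qb.1 ≤ k0 := (le_max_left _ _).trans (le_max_right _ _)
  have hk02 : w'.q.1 ≤ k0 := (le_max_right _ _).trans (le_max_right _ _)
  obtain ⟨ρ, hρ, Hfb'⟩ := Hfb k0 (le_max_left _ _)
  set ε' : ℝ := min ε2 (E / (6 * (Kc + 1) * (N + 1) * (X + 1))) with hε'
  have hε'0 : 0 < ε' := lt_min hε2 (by positivity)
  obtain ⟨ra, hra, Ha⟩ := Hm e0 he0 he01 k0 hk01 hk02 ρ hρ ε' hε'0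
  obtain ⟨rb, hrb, Hb⟩ := HF k0 hk01 hk02 ρ hρ
  obtain ⟨P, hP, hPM⟩ := Pool.Agent.H5.M7.stPar (B := B) hb (min ra rb) (lt_min hra hrb) w'.M0
  obtain ⟨Ka, HKa⟩ := Ha P (hP.trans (ball_subset_ball (min_le_left _ _))) hPM
  obtain ⟨Kb, HKb⟩ := Hb P (hP.trans (ball_subset_ball (min_le_right _ _))) hPM
  filter_upwards [HKa (max Ka Kb) (le_max_left _ _), HKb (max Ka Kb) (le_max_right _ _), Hsm',
    Hfb', hN2, A.lim.eventually_le_const (show 0 < r1 - r0 by linarith), B.sub,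
    B.reg_eventually hDb ha (show r0 < dist a b by linarith) k0 k0] with n g1 g2 g3 g4 g5 g6 g7 g8
  have hM := g1 (2 * r1) (by linarith)
  have hs : 0 < ((1 : ℤ) : ℝ) * mesh (w'.k1 + 1) := by rw [hq1]; exact hmp
  refine qd_at (E := E) (θ := θ) (N1 := N1) (N2 := N2) hDb g2 hM hC g8 g7 (by linarith)
    (by linarith) hε hε1 hκε hYε hρ1ε hal0.le hδ (by linarith) (by linarith) (by linarith)
    (by linarith) (g3 P k0 (max Ka Kb) ρ e0 (2 * r1) C he02 (micro_mono hM (min_le_left _ _)))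
    (HA' _ hs (by rw [hq1]; exact hm0)) hKc.le hCn (g4 (2 * r1) (by linarith) (by linarith)) hN1
    g5 (const_E hKc.le hN0 hX0 hC hE (min_le_right _ _) le_rfl (min_le_right _ _)) ?_
    (min_le_left _ _) hN1' hθ3
  rw [hEd]
  nlinarith

end Pool.Agent.H82.Q1.M7
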