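import Mathlib
import Pool.Agent.H82.Q1.M7.Half1
import Pool.Agent.H14.NB.StNB
import Pool.Agent.H11.M7.Limit
import Pool.Agent.H11.M7.Ori3

set_option autoImplicit false
open Set Filter Topology Metric MeasureTheory ProbabilityTheory

/-! # M7: the top theorem -/

namespace Pool.Agent.H82.Q1.M7

open Pool.Agent.H75.Perc Pool.Agent.H75.TwoArm Pool.Agent.H75.Four Pool.Agent.H69.Q1
open Pool.Agent.H81.Q1 (pt DDomain Approx IsJordanDomain IsArcs Curve)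
open Pool.Agent.Q1.M3
open Pool.Agent.Q1.M5 (StPz)
open Pool.Agent.H82.Q1 (HH cHH IsChart IsSLE Q1SLE posArc negArc)
open Pool.Agent.H11.M7 (StGain' stGain'_of limit_sle nonempty_approx isArcs_chart)

/-- **Convergence to SLE(6)** from [KC] and [OBS]. -/
theorem q1sle_of
    (hKC : ∀ (D : Set ℂ) (a b : ℂ) (φ : ℂ → ℂ), IsJordanDomain D → IsChart D a b φ →
      StKC D a b φ)
    (hObs : ∃ (pz : ℝ → ℝ) (C0 : ℝ), 0 < C0 ∧ StPz pz ∧
      ∀ (D : Set ℂ) (a b : ℂ) (A₁ A₂ : Set ℂ) (A : Approx D a b A₁ A₂) (r0 : ℝ), 0 < r0 →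
        ∀ (B : Base A r0) (w : Win B), StObs B w pz C0) : Q1SLE := by
  obtain ⟨pz, C0, hC0, hpz, hO⟩ := hObs
  intro D hJ a b hab φ hφ
  have hA := isArcs_chart hφ
  refine limit_sle hab hA hφ (nonempty_approx hJ hφ) ?_ ?_
  · intro A
    exact qd_of hJ hA hφ A (hKC D a b φ hJ hφ) (Pool.Agent.H14.NB.stNB hJ hab hA A) hC0 hpz
      (fun r0 hr0 B w => hO D a b _ _ A r0 hr0 B w)
  · intro A r hr
    obtain ⟨B⟩ := Pool.Agent.H14.NB.stNB hJ hab hA A r hr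
    exact ⟨r, le_rfl, B, stGain'_of (Pool.Agent.H79.M7.stGain hJ hA A hab B)⟩

end Pool.Agent.H82.Q1.M7
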