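import Mathlib
import Pool.Agent.H82.Q1.M7.Top
import Pool.Agent.H54.M7.KC

set_option autoImplicit false
open Set Filter Topology Metric MeasureTheory ProbabilityTheory

/-! # M7: the top theorem, [KC] plugged in -/

namespace Pool.Agent.H82.Q1.M7

open Pool.Agent.H75.Perc Pool.Agent.H75.TwoArm Pool.Agent.H75.Four Pool.Agent.H69.Q1
open Pool.Agent.H81.Q1 (pt DDomain Approx IsJordanDomain IsArcs Curve)
open Pool.Agent.Q1.M3
open Pool.Agent.Q1.M5 (StPz)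
open Pool.Agent.H82.Q1 (HH cHH IsChart IsSLE Q1SLE posArc negArc)

/-- **Convergence to SLE(6)** from [OBS] alone. -/
theorem q1sle_of_obs
    (hObs : ∃ (pz : ℝ → ℝ) (C0 : ℝ), 0 < C0 ∧ StPz pz ∧
      ∀ (D : Set ℂ) (a b : ℂ) (A₁ A₂ : Set ℂ) (A : Approx D a b A₁ A₂) (r0 : ℝ), 0 < r0 →
        ∀ (B : Base A r0) (w : Win B), StObs B w pz C0) : Q1SLE :=
  q1sle_of (fun _ _ _ _ _ hφ => Pool.Agent.H54.M7.KC.stKC_of_chart hφ) hObs

end Pool.Agent.H82.Q1.M7
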