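import Mathlib
import Pool.Agent.H11.M7.Limit
import Pool.Agent.H54.M7.StartD
import Pool.Agent.H5.M7.Ray

set_option autoImplicit false
open Set Filter Topology Metric

/-! # The boundary arcs of a chart -/

namespace Pool.Agent.H82.Q1.M7

open Pool.Agent.H82.Q1 (HH cHH IsChart posArc negArc)
open Pool.Agent.H81.Q1 (IsArcs)
open Pool.Agent.H5.M7 (chart_mem chart_b chart_a chart_ab)

variable {D : Set ℂ} {a b : ℂ} {φ : ℂ → ℂ}

lemma closure_eq (h : IsChart D a b φ) : closure D = insert b (φ '' cHH) := by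
  refine Subset.antisymm (Pool.Agent.H96.M7.closure_sub h) ?_
  have hcl : closure HH = cHH := by
    have h1 : HH = {z : ℂ | 0 < z.im} := rfl
    rw [h1, Complex.closure_setOfPred_lt_im]
    rfl
  rintro z (rfl | ⟨w, hw, rfl⟩)
  · have h1 : Tendsto (fun n : ℕ => φ (((n : ℝ) + 1 : ℝ) * Complex.I)) atTop (𝓝 z) := by
      refine h.infty.comp ?_
      rw [tendsto_inf]
      constructor
      · rw [← tendsto_norm_atTop_iff_cobounded]
        have h2 : ∀ n : ℕ, ‖(((n : ℝ) + 1 : ℝ) : ℂ) * Complex.I‖ = (n : ℝ) + 1 := by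
          intro n
          rw [norm_mul, Complex.norm_I, mul_one, Complex.norm_real, Real.norm_eq_abs,
            abs_of_pos (by positivity)]
        simp only [h2]
        exact tendsto_natCast_atTop_atTop.atTop_add tendsto_const_nhds
      · refine tendsto_principal.2 (Eventually.of_forall fun n => ?_)
        change 0 ≤ ((((n : ℝ) + 1 : ℝ) : ℂ) * Complex.I).im
        simp only [Complex.mul_im, Complex.ofReal_re, Complex.I_im, mul_one, Complex.ofReal_im,
          Complex.I_re, mul_zero, add_zero]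
        positivity
    refine mem_closure_of_tendsto h1 (Eventually.of_forall fun n => chart_mem h ?_)
    simp only [Complex.mul_im, Complex.ofReal_re, Complex.I_im, mul_one, Complex.ofReal_im,
      Complex.I_re, mul_zero, add_zero]
    positivity
  · have h1 : ContinuousWithinAt φ HH w := (h.cont w hw).mono Pool.Agent.H5.M7.HH_sub
    have h2 : w ∈ closure HH := by rw [hcl]; exact hw
    have h3 := h1.mem_closure_image h2
    rwa [h.image] at h3

/-- the real axis in the chart -/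
lemma frontier_eq (h : IsChart D a b φ) : frontier D = insert b (φ '' {z : ℂ | z.im = 0}) := by
  rw [(Pool.Agent.H11.M7.chart_open h).frontier_eq, closure_eq h]
  ext z
  constructor
  · rintro ⟨rfl | ⟨w, hw, rfl⟩, h2⟩
    · exact Or.inl rfl
    · refine Or.inr ⟨w, ?_, rfl⟩
      by_contra hne
      exact h2 (chart_mem h (lt_of_le_of_ne hw (Ne.symm hne)))
  · rintro (rfl | ⟨w, hw, rfl⟩)
    · exact ⟨Or.inl rfl, chart_b h⟩
    · have hw' : w ∈ cHH := le_of_eq (show (0 : ℝ) = w.im from (show w.im = 0 from hw).symm)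
      refine ⟨Or.inr ⟨w, hw', rfl⟩, fun h2 => ?_⟩
      rw [← h.image] at h2
      obtain ⟨x, hx, h3⟩ := h2
      have h4 := h.inj (Pool.Agent.H5.M7.HH_sub hx) hw' h3
      have h5 : 0 < x.im := hx
      rw [h4, show w.im = 0 from hw] at h5
      exact lt_irrefl _ h5

lemma arc_conn (h : IsChart D a b φ) {S : Set ℂ} (hS : IsPreconnected S) (hSc : S ⊆ cHH)
    (h0 : (0 : ℂ) ∈ S) (hcl : b ∈ closure (φ '' S)) : IsConnected (insert b (φ '' S)) := by
  have h1 : IsConnected (φ '' S) := ⟨⟨_, 0, h0, rfl⟩, hS.image _ (h.cont.mono hSc)⟩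
  refine h1.subset_closure (subset_insert _ _) ?_
  exact insert_subset hcl subset_closure

lemma b_closure (h : IsChart D a b φ) {S : Set ℂ} (hSc : S ⊆ cHH) {f : ℕ → ℂ}
    (hf : ∀ n, f n ∈ S) (hn : Tendsto (fun n => ‖f n‖) atTop atTop) : b ∈ closure (φ '' S) := by
  have h1 : Tendsto (fun n : ℕ => φ (f n)) atTop (𝓝 b) := by
    refine h.infty.comp ?_
    rw [tendsto_inf]
    exact ⟨tendsto_norm_atTop_iff_cobounded.1 hn,
      tendsto_principal.2 (Eventually.of_forall fun n => hSc (hf n))⟩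
  exact mem_closure_of_tendsto h1 (Eventually.of_forall fun n => ⟨_, hf n, rfl⟩)

/-- **The two arcs of a chart.** -/
theorem isArcs_chart (h : IsChart D a b φ) : IsArcs D a b (posArc φ b) (negArc φ b) := by
  have hc1 : {z : ℂ | z.im = 0 ∧ 0 ≤ z.re} ⊆ cHH := fun z hz => le_of_eq hz.1.symm
  have hc2 : {z : ℂ | z.im = 0 ∧ z.re ≤ 0} ⊆ cHH := fun z hz => le_of_eq hz.1.symm
  have hpre1 : IsPreconnected {z : ℂ | z.im = 0 ∧ 0 ≤ z.re} := by
    have e : {z : ℂ | z.im = 0 ∧ 0 ≤ z.re} = (fun t : ℝ => (t : ℂ)) '' Ici 0 := by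
      ext z
      constructor
      · rintro ⟨h1, h2⟩
        exact ⟨z.re, h2, Complex.ext rfl (by simp [h1])⟩
      · rintro ⟨t, ht, rfl⟩
        exact ⟨Complex.ofReal_im t, ht⟩
    rw [e]
    exact isPreconnected_Ici.image _ Complex.continuous_ofReal.continuousOn
  have hpre2 : IsPreconnected {z : ℂ | z.im = 0 ∧ z.re ≤ 0} := by
    have e : {z : ℂ | z.im = 0 ∧ z.re ≤ 0} = (fun t : ℝ => (t : ℂ)) '' Iic 0 := by
      ext z
      constructor
      · rintro ⟨h1, h2⟩
        exact ⟨z.re, h2, Complex.ext rfl (by simp [h1])⟩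
      · rintro ⟨t, ht, rfl⟩
        exact ⟨Complex.ofReal_im t, ht⟩
    rw [e]
    exact isPreconnected_Iic.image _ Complex.continuous_ofReal.continuousOn
  have hb1 : b ∈ closure (φ '' {z : ℂ | z.im = 0 ∧ 0 ≤ z.re}) := by
    refine b_closure h hc1 (f := fun n : ℕ => ((n : ℝ) : ℂ)) (fun n => ?_) ?_
    · exact ⟨Complex.ofReal_im _, by change (0 : ℝ) ≤ n; positivity⟩
    · have : ∀ n : ℕ, ‖((n : ℝ) : ℂ)‖ = n := fun n => by
        rw [Complex.norm_real, Real.norm_eq_abs, abs_of_nonneg (Nat.cast_nonneg n)]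
      simp only [this]
      exact tendsto_natCast_atTop_atTop
  have hb2 : b ∈ closure (φ '' {z : ℂ | z.im = 0 ∧ z.re ≤ 0}) := by
    refine b_closure h hc2 (f := fun n : ℕ => ((-(n : ℝ) : ℝ) : ℂ)) (fun n => ?_) ?_
    · refine ⟨Complex.ofReal_im _, ?_⟩
      change (-(n : ℝ) : ℝ) ≤ 0
      have : (0 : ℝ) ≤ n := Nat.cast_nonneg n
      linarith
    · have : ∀ n : ℕ, ‖((-(n : ℝ) : ℝ) : ℂ)‖ = n := fun n => by
        rw [Complex.norm_real, Real.norm_eq_abs, abs_neg, abs_of_nonneg (Nat.cast_nonneg n)]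
      simp only [this]
      exact tendsto_natCast_atTop_atTop
  refine ⟨(Pool.Agent.H54.M7.isCompact_posArc h).isClosed,
    (Pool.Agent.H54.M7.isCompact_negArc h).isClosed,
    arc_conn h hpre1 hc1 ⟨rfl, le_rfl⟩ hb1, arc_conn h hpre2 hc2 ⟨rfl, le_rfl⟩ hb2, ?_, ?_⟩
  · rw [frontier_eq h]
    ext z
    constructor
    · rintro ((rfl | ⟨w, hw, rfl⟩) | (rfl | ⟨w, hw, rfl⟩))
      · exact Or.inl rfl
      · exact Or.inr ⟨w, hw.1, rfl⟩
      · exact Or.inl rfl
      · exact Or.inr ⟨w, hw.1, rfl⟩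
    · rintro (rfl | ⟨w, hw, rfl⟩)
      · exact Or.inl (Or.inl rfl)
      · rcases le_total 0 w.re with h1 | h1
        · exact Or.inl (Or.inr ⟨w, ⟨hw, h1⟩, rfl⟩)
        · exact Or.inr (Or.inr ⟨w, ⟨hw, h1⟩, rfl⟩)
  · ext z
    constructor
    · rintro ⟨rfl | ⟨w, hw, rfl⟩, h2⟩
      · exact Or.inr rfl
      · rcases h2 with h2 | ⟨x, hx, h3⟩
        · exact absurd (h2 ▸ ⟨w, hc1 hw, rfl⟩) h.ne
        · have h4 := h.inj (hc2 hx) (hc1 hw) h3
          have h5 : w = 0 := by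
            rw [h4] at hx
            exact Complex.ext (le_antisymm hx.2 hw.2) hw.1
          left
          rw [h5, h.zero]
    · rintro (rfl | rfl)
      · exact ⟨Or.inr ⟨0, ⟨rfl, le_rfl⟩, h.zero⟩, Or.inr ⟨0, ⟨rfl, le_rfl⟩, h.zero⟩⟩
      · exact ⟨Or.inl rfl, Or.inl rfl⟩

end Pool.Agent.H82.Q1.M7
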